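import Mathlib

/-!
Discrete fundamental group of a simple graph: closed walks modulo the moves
Sub, Ins, Del of the problem MP_331a15_co, and the threshold for cyclicity.
-/

namespace Pool.Agent.LibDFG

open SimpleGraph

universe u

/-- One elementary move between walks with the same endpoints.
`sub`: replace an inner vertex `b` by another common neighbour of its two walk neighbours.
`ins`: insert a detour `a, w, a` at an occurrence of `a`.
`del`: remove such a detour. -/
inductive Move {V : Type u} {G : SimpleGraph V} :
    {x y : V} → G.Walk x y → G.Walk x y → Prop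
  | sub {x y a b b' c : V} (p : G.Walk x a) (h₁ : G.Adj a b) (h₂ : G.Adj b c)
      (h₁' : G.Adj a b') (h₂' : G.Adj b' c) (q : G.Walk c y) :
      Move (p.append (Walk.cons h₁ (Walk.cons h₂ q)))
        (p.append (Walk.cons h₁' (Walk.cons h₂' q)))
  | ins {x y a w : V} (p : G.Walk x a) (h : G.Adj a w) (q : G.Walk a y) :
      Move (p.append q) (p.append (Walk.cons h (Walk.cons h.symm q)))
  | del {x y a w : V} (p : G.Walk x a) (h : G.Adj a w) (q : G.Walk a y) :
      Move (p.append (Walk.cons h (Walk.cons h.symm q))) (p.append q)

variable {V : Type u} {G : SimpleGraph V}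

/-- Two walks are homotopic if a finite sequence of moves turns one into the other. -/
def Homotopic {x y : V} (p q : G.Walk x y) : Prop :=
  Relation.ReflTransGen Move p q

theorem Move.symm {x y : V} {p q : G.Walk x y} (h : Move p q) : Move q p := by
  cases h with
  | sub p h₁ h₂ h₁' h₂' q => exact Move.sub p h₁' h₂' h₁ h₂ q
  | ins p h q => exact Move.del p h q
  | del p h q => exact Move.ins p h q

theorem Homotopic.refl {x y : V} (p : G.Walk x y) : Homotopic p p :=
  Relation.ReflTransGen.refl

theorem Homotopic.symm {x y : V} {p q : G.Walk x y} (h : Homotopic p q) : Homotopic q p := by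
  induction h with
  | refl => exact Relation.ReflTransGen.refl
  | tail _ hm ih => exact Relation.ReflTransGen.head hm.symm ih

theorem Homotopic.trans {x y : V} {p q r : G.Walk x y} (h : Homotopic p q)
    (h' : Homotopic q r) : Homotopic p r :=
  Relation.ReflTransGen.trans h h'

theorem Move.append_left {x y z : V} (r : G.Walk x y) {p q : G.Walk y z} (h : Move p q) :
    Move (r.append p) (r.append q) := by
  cases h with
  | sub p h₁ h₂ h₁' h₂' q =>
    rw [Walk.append_assoc, Walk.append_assoc]; exact Move.sub _ _ _ _ _ _
  | ins p h q =>
    rw [Walk.append_assoc, Walk.append_assoc]; exact Move.ins _ _ _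
  | del p h q =>
    rw [Walk.append_assoc, Walk.append_assoc]; exact Move.del _ _ _

theorem Move.append_right {x y z : V} {p q : G.Walk x y} (h : Move p q) (r : G.Walk y z) :
    Move (p.append r) (q.append r) := by
  cases h with
  | sub p h₁ h₂ h₁' h₂' q =>
    simp only [← Walk.append_assoc, Walk.cons_append]; exact Move.sub _ _ _ _ _ _
  | ins p h q =>
    simp only [← Walk.append_assoc, Walk.cons_append]; exact Move.ins _ _ _
  | del p h q =>
    simp only [← Walk.append_assoc, Walk.cons_append]; exact Move.del _ _ _

theorem Homotopic.append {x y z : V} {p p' : G.Walk x y} {q q' : G.Walk y z}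
    (h : Homotopic p p') (h' : Homotopic q q') :
    Homotopic (p.append q) (p'.append q') := by
  have h1 : Homotopic (p.append q) (p'.append q) :=
    Relation.ReflTransGen.lift (fun w : G.Walk x y => w.append q)
      (fun _ _ hm => Move.append_right hm q) p p' h
  have h2 : Homotopic (p'.append q) (p'.append q') :=
    Relation.ReflTransGen.lift (fun w : G.Walk y z => p'.append w)
      (fun _ _ hm => Move.append_left p' hm) q q' h'
  exact h1.trans h2

theorem Move.reverse {x y : V} {p q : G.Walk x y} (h : Move p q) :
    Move p.reverse q.reverse := by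
  cases h with
  | sub p h₁ h₂ h₁' h₂' q =>
    simp only [Walk.reverse_append, Walk.reverse_cons, ← Walk.append_assoc, Walk.cons_append,
      Walk.nil_append]
    exact Move.sub _ _ _ _ _ _
  | ins p h q =>
    simp only [Walk.reverse_append, Walk.reverse_cons, ← Walk.append_assoc, Walk.cons_append,
      Walk.nil_append]
    exact Move.ins _ _ _
  | del p h q =>
    simp only [Walk.reverse_append, Walk.reverse_cons, ← Walk.append_assoc, Walk.cons_append,
      Walk.nil_append]
    exact Move.del _ _ _

theorem Homotopic.reverse {x y : V} {p q : G.Walk x y} (h : Homotopic p q) :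
    Homotopic p.reverse q.reverse :=
  Relation.ReflTransGen.lift (fun w : G.Walk x y => w.reverse)
    (fun _ _ hm => Move.reverse hm) p q h

theorem homotopic_append_reverse {x y : V} (p : G.Walk x y) :
    Homotopic (p.append p.reverse) Walk.nil := by
  induction p with
  | nil => exact Homotopic.refl _
  | @cons u v w h p ih =>
    rw [Walk.reverse_cons, Walk.cons_append, Walk.append_assoc]
    have h1 : Homotopic ((Walk.cons h Walk.nil).append ((p.append p.reverse).append
        (Walk.cons h.symm Walk.nil)))
        ((Walk.cons h Walk.nil).append (Walk.nil.append (Walk.cons h.symm Walk.nil))) :=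
      (Homotopic.refl _).append (ih.append (Homotopic.refl _))
    have h2 : Homotopic (Walk.cons h (Walk.cons h.symm (Walk.nil : G.Walk u u))) Walk.nil :=
      Relation.ReflTransGen.single (Move.del (Walk.nil : G.Walk u u) h Walk.nil)
    exact h1.trans h2

/-- The setoid of homotopy on walks from `x` to `y`. -/
def walkSetoid (G : SimpleGraph V) (x y : V) : Setoid (G.Walk x y) where
  r := Homotopic
  iseqv := ⟨Homotopic.refl, Homotopic.symm, Homotopic.trans⟩

/-- Homotopy classes of walks from `x` to `y`. -/
def Cls (G : SimpleGraph V) (x y : V) : Type u := Quotient (walkSetoid G x y)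

/-- The class of a walk. -/
def cls {x y : V} (p : G.Walk x y) : Cls G x y := Quotient.mk (walkSetoid G x y) p

theorem cls_eq_iff {x y : V} {p q : G.Walk x y} : cls p = cls q ↔ Homotopic p q :=
  ⟨fun h => Quotient.exact h, fun h => Quotient.sound h⟩

/-- Concatenation of classes. -/
def Cls.comp {x y z : V} (a : Cls G x y) (b : Cls G y z) : Cls G x z :=
  Quotient.map₂ (fun p q => p.append q) (fun _ _ h _ _ h' => Homotopic.append h h') a b

/-- Reversal of classes. -/
def Cls.inv {x y : V} (a : Cls G x y) : Cls G y x :=
  Quotient.map (fun p => p.reverse) (fun _ _ h => Homotopic.reverse h) a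

@[simp] theorem cls_comp {x y z : V} (p : G.Walk x y) (q : G.Walk y z) :
    (cls p).comp (cls q) = cls (p.append q) := rfl

@[simp] theorem cls_inv {x y : V} (p : G.Walk x y) : (cls p).inv = cls p.reverse := rfl

theorem Cls.ind {x y : V} {P : Cls G x y → Prop} (h : ∀ p : G.Walk x y, P (cls p)) :
    ∀ a, P a := Quotient.ind h

/-- The discrete fundamental group of `G` at `x`: homotopy classes of closed walks at `x`. -/
abbrev DFG (G : SimpleGraph V) (x : V) : Type u := Cls G x x

/-- Concatenation is the product, the trivial walk the unit, reversal the inverse. -/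
instance instGroupDFG (x : V) : Group (DFG G x) where
  mul a b := a.comp b
  one := cls Walk.nil
  inv a := a.inv
  mul_assoc a b c := by
    induction a using Cls.ind with | h p
    induction b using Cls.ind with | h q
    induction c using Cls.ind with | h r
    exact congrArg cls (Walk.append_assoc p q r).symm
  one_mul a := by
    induction a using Cls.ind with | h p
    exact congrArg cls (Walk.nil_append p)
  mul_one a := by
    induction a using Cls.ind with | h p
    exact congrArg cls (Walk.append_nil p)
  inv_mul_cancel a := by
    induction a using Cls.ind with | h p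
    have h := homotopic_append_reverse p.reverse
    rw [Walk.reverse_reverse] at h
    exact Quotient.sound h

open Classical in
/-- `CycAbove H α`: every `H`-free finite graph `G` (of any order) with
`δ(G) > α |G|` has cyclic discrete fundamental group at every vertex. -/
def CycAbove {W : Type} (H : SimpleGraph W) (α : ℝ) : Prop :=
  ∀ (V : Type) [Fintype V] (G : SimpleGraph V), H.Free G →
    α * (Fintype.card V : ℝ) < (G.minDegree : ℝ) → ∀ v : V, IsCyclic (DFG G v)

/-- The threshold `δ_cyc(H)`. -/
noncomputable def deltaCyc {W : Type} (H : SimpleGraph W) : ℝ :=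
  sInf {α : ℝ | 0 ≤ α ∧ CycAbove H α}

end Pool.Agent.LibDFG
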