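import Mathlib
import Pool.Agent.LibDFG.Basic

namespace Pool.Agent.LibDFG

open SimpleGraph

universe u

variable {V : Type u} {G : SimpleGraph V}

/-- class of a single edge -/
def edge {u v : V} (h : G.Adj u v) : Cls G u v := cls (Walk.cons h Walk.nil)

theorem cls_cons {u v w : V} (h : G.Adj u v) (p : G.Walk v w) :
    cls (Walk.cons h p) = (edge h).comp (cls p) := rfl

theorem comp_assoc {a b c d : V} (p : Cls G a b) (q : Cls G b c) (r : Cls G c d) :
    (p.comp q).comp r = p.comp (q.comp r) := by
  induction p using Cls.ind with | h p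
  induction q using Cls.ind with | h q
  induction r using Cls.ind with | h r
  exact congrArg cls (Walk.append_assoc p q r).symm

theorem nil_comp {a b : V} (p : Cls G a b) : (cls (Walk.nil : G.Walk a a)).comp p = p := by
  induction p using Cls.ind with | h p
  exact congrArg cls (Walk.nil_append p)

theorem comp_nil {a b : V} (p : Cls G a b) : p.comp (cls (Walk.nil : G.Walk b b)) = p := by
  induction p using Cls.ind with | h p
  exact congrArg cls (Walk.append_nil p)

theorem comp_inv {a b : V} (p : Cls G a b) : p.comp p.inv = cls Walk.nil := by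
  induction p using Cls.ind with | h p
  exact cls_eq_iff.mpr (homotopic_append_reverse p)

theorem inv_comp {a b : V} (p : Cls G a b) : p.inv.comp p = cls Walk.nil := by
  induction p using Cls.ind with | h p
  have h := homotopic_append_reverse p.reverse
  rw [Walk.reverse_reverse] at h
  exact cls_eq_iff.mpr h

theorem comp_inv_cancel {a b c : V} (p : Cls G a b) (q : Cls G a c) :
    p.comp (p.inv.comp q) = q := by
  rw [← comp_assoc, comp_inv, nil_comp]

theorem inv_comp_cancel {a b c : V} (p : Cls G a b) (q : Cls G b c) :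
    p.inv.comp (p.comp q) = q := by
  rw [← comp_assoc, inv_comp, nil_comp]

theorem edge_back {u v : V} (h : G.Adj u v) (h' : G.Adj v u) :
    (edge h).comp (edge h') = cls Walk.nil :=
  cls_eq_iff.mpr (Relation.ReflTransGen.single (Move.del (Walk.nil : G.Walk u u) h Walk.nil))

theorem edge_sub {a b b' c : V} (h₁ : G.Adj a b) (h₂ : G.Adj b c)
    (h₁' : G.Adj a b') (h₂' : G.Adj b' c) :
    (edge h₁).comp (edge h₂) = (edge h₁').comp (edge h₂') :=
  cls_eq_iff.mpr (Relation.ReflTransGen.single
    (Move.sub (Walk.nil : G.Walk a a) h₁ h₂ h₁' h₂' Walk.nil))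

theorem mul_def' {x : V} (a b : DFG G x) : a * b = a.comp b := rfl

theorem one_def' {x : V} : (1 : DFG G x) = cls Walk.nil := rfl

section potential

variable {x : V} (p : ∀ u, Cls G x u)

open Classical in
/-- the loop `p u`, edge `u v`, back along `p v` -/
noncomputable def tt (u v : V) : DFG G x :=
  if h : G.Adj u v then (p u).comp ((edge h).comp (p v).inv) else 1

theorem tt_adj {u v : V} (h : G.Adj u v) :
    tt p u v = (p u).comp ((edge h).comp (p v).inv) := by
  unfold tt; rw [dif_pos h]

theorem tt_mul {u v w : V} (h : G.Adj u v) (h' : G.Adj v w) :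
    tt p u v * tt p v w = (p u).comp (((edge h).comp (edge h')).comp (p w).inv) := by
  rw [tt_adj p h, tt_adj p h', mul_def']
  simp only [comp_assoc, inv_comp_cancel]

theorem tt_back {u v : V} (h : G.Adj u v) : tt p u v * tt p v u = 1 := by
  rw [tt_mul p h h.symm, edge_back, nil_comp, comp_inv, one_def']

theorem tt_sub {a b b' c : V} (h₁ : G.Adj a b) (h₂ : G.Adj b c)
    (h₁' : G.Adj a b') (h₂' : G.Adj b' c) :
    tt p a b * tt p b c = tt p a b' * tt p b' c := by
  rw [tt_mul p h₁ h₂, tt_mul p h₁' h₂', edge_sub h₁ h₂ h₁' h₂']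

theorem tt_walk_mem (S : Subgroup (DFG G x)) (hS : ∀ u v, G.Adj u v → tt p u v ∈ S)
    {u v : V} (w : G.Walk u v) : (p u).comp ((cls w).comp (p v).inv) ∈ S := by
  induction w with
  | nil =>
    rw [nil_comp, comp_inv]; exact S.one_mem
  | @cons a b c h q ih =>
    have h1 : (p a).comp ((cls (Walk.cons h q)).comp (p c).inv)
        = tt p a b * ((p b).comp ((cls q).comp (p c).inv)) := by
      rw [tt_adj p h, mul_def', cls_cons]
      simp only [comp_assoc, inv_comp_cancel]
    rw [h1]
    exact S.mul_mem (hS a b h) ih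

theorem isCyclic_of_tt (hp : p x = cls Walk.nil) (τ : DFG G x)
    (h : ∀ u v, G.Adj u v → tt p u v ∈ Subgroup.zpowers τ) : IsCyclic (DFG G x) := by
  refine ⟨⟨τ, fun y => ?_⟩⟩
  induction y using Cls.ind with | h w
  have := tt_walk_mem p (Subgroup.zpowers τ) h w
  rw [hp] at this
  have e : (cls (Walk.nil : G.Walk x x)).comp ((cls w).comp (cls (Walk.nil : G.Walk x x)).inv)
      = cls w := by
    rw [nil_comp]
    change (cls w).comp (cls Walk.nil) = cls w
    rw [comp_nil]
  rw [e] at this
  exact this

end potential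

/-! ### weights: homomorphisms out of the discrete fundamental group -/

section weights

variable {A : Type*} [Group A] (φ : V → V → A)

/-- product of the weights along a walk -/
def wt : {u v : V} → G.Walk u v → A
  | _, _, .nil => 1
  | _, _, @Walk.cons _ _ u v _ _ p => φ u v * wt p

@[simp] theorem wt_nil {u : V} : wt φ (Walk.nil : G.Walk u u) = 1 := rfl

@[simp] theorem wt_cons {u v w : V} (h : G.Adj u v) (p : G.Walk v w) :
    wt φ (Walk.cons h p) = φ u v * wt φ p := rfl

theorem wt_append {u v w : V} (p : G.Walk u v) (q : G.Walk v w) :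
    wt φ (p.append q) = wt φ p * wt φ q := by
  induction p with
  | nil => simp
  | cons h p ih => simp [ih, mul_assoc]

/-- the weight function respects the two relations -/
structure IsVoltage (G : SimpleGraph V) (φ : V → V → A) : Prop where
  back : ∀ u v, G.Adj u v → φ u v * φ v u = 1
  sub : ∀ a b b' c, G.Adj a b → G.Adj b c → G.Adj a b' → G.Adj b' c →
    φ a b * φ b c = φ a b' * φ b' c

theorem wt_move (hφ : IsVoltage G φ) {u v : V} {p q : G.Walk u v} (h : Move p q) :
    wt φ p = wt φ q := by
  cases h with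
  | sub p h₁ h₂ h₁' h₂' q =>
    simp only [wt_append, wt_cons, ← mul_assoc]
    rw [mul_assoc (wt φ p), hφ.sub _ _ _ _ h₁ h₂ h₁' h₂', ← mul_assoc]
  | ins p h q =>
    simp only [wt_append, wt_cons, ← mul_assoc]
    rw [mul_assoc (wt φ p), hφ.back _ _ h, mul_one]
  | del p h q =>
    simp only [wt_append, wt_cons, ← mul_assoc]
    rw [mul_assoc (wt φ p), hφ.back _ _ h, mul_one]

theorem wt_homotopic (hφ : IsVoltage G φ) {u v : V} {p q : G.Walk u v} (h : Homotopic p q) :
    wt φ p = wt φ q := by
  induction h with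
  | refl => rfl
  | tail _ hm ih => exact ih.trans (wt_move φ hφ hm)

/-- the induced homomorphism -/
def wtHom (hφ : IsVoltage G φ) (x : V) : DFG G x →* A where
  toFun := Quotient.lift (fun w => wt φ w) (fun _ _ h => wt_homotopic φ hφ h)
  map_one' := rfl
  map_mul' a b := by
    induction a using Cls.ind with | h p
    induction b using Cls.ind with | h q
    exact wt_append φ p q

theorem wtHom_cls (hφ : IsVoltage G φ) (x : V) (w : G.Walk x x) :
    wtHom φ hφ x (cls w) = wt φ w := rfl

/-- If two closed walks have weights that are not powers of one element, the group is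
not cyclic. -/
theorem not_isCyclic_of_wt (hφ : IsVoltage G φ) (x : V) (w₁ w₂ : G.Walk x x)
    (h : ∀ a : A, ¬ (wt φ w₁ ∈ Subgroup.zpowers a ∧ wt φ w₂ ∈ Subgroup.zpowers a)) :
    ¬ IsCyclic (DFG G x) := by
  intro hc
  obtain ⟨g, hg⟩ := hc.exists_generator
  apply h (wtHom φ hφ x g)
  constructor
  · obtain ⟨k, hk⟩ := hg (cls w₁)
    refine ⟨k, ?_⟩
    change (wtHom φ hφ x g) ^ k = _
    rw [← map_zpow, ← wtHom_cls φ hφ]
    exact congrArg _ hk
  · obtain ⟨k, hk⟩ := hg (cls w₂)
    refine ⟨k, ?_⟩
    change (wtHom φ hφ x g) ^ k = _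
    rw [← map_zpow, ← wtHom_cls φ hφ]
    exact congrArg _ hk

end weights

end Pool.Agent.LibDFG
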