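import Mathlib
import Pool.Agent.LibDFG.Tools

/-!
Change of base point, functoriality and retractions.
-/

namespace Pool.Agent.LibDFG

open SimpleGraph

universe u

variable {V : Type u} {G : SimpleGraph V}

/-- conjugation with a class `c` from `v` to `u` -/
def conjHom {u v : V} (c : Cls G v u) : DFG G u →* DFG G v where
  toFun a := c.comp (Cls.comp a c.inv)
  map_one' := by
    change c.comp ((cls Walk.nil).comp c.inv) = cls Walk.nil
    rw [nil_comp, comp_inv]
  map_mul' a b := by
    change c.comp ((Cls.comp a b).comp c.inv) = (c.comp (Cls.comp a c.inv)).comp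
      (c.comp (Cls.comp b c.inv))
    simp only [comp_assoc, inv_comp_cancel]

theorem conjHom_surjective {u v : V} (c : Cls G v u) : Function.Surjective (conjHom c) := by
  intro b
  refine ⟨c.inv.comp (Cls.comp b c), ?_⟩
  change c.comp ((c.inv.comp (Cls.comp b c)).comp c.inv) = b
  simp only [comp_assoc]
  rw [comp_inv_cancel, comp_inv, comp_nil]

theorem isCyclic_of_cls {u v : V} (c : Cls G v u) (h : IsCyclic (DFG G u)) :
    IsCyclic (DFG G v) :=
  isCyclic_of_surjective (conjHom c) (conjHom_surjective c)

theorem isCyclic_of_adj {u v : V} (huv : G.Adj v u) (h : IsCyclic (DFG G u)) :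
    IsCyclic (DFG G v) := isCyclic_of_cls (edge huv) h

section functor

variable {V' : Type*} {G' : SimpleGraph V'} (φ : G →g G')

theorem Move.map {x y : V} {p q : G.Walk x y} (h : Move p q) : Move (p.map φ) (q.map φ) := by
  cases h with
  | sub p h₁ h₂ h₁' h₂' q =>
    simp only [Walk.map_append, Walk.map_cons]; exact Move.sub _ _ _ _ _ _
  | ins p h q =>
    simp only [Walk.map_append, Walk.map_cons]; exact Move.ins _ _ _
  | del p h q =>
    simp only [Walk.map_append, Walk.map_cons]; exact Move.del _ _ _

theorem Homotopic.map {x y : V} {p q : G.Walk x y} (h : Homotopic p q) :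
    Homotopic (p.map φ) (q.map φ) :=
  Relation.ReflTransGen.lift (fun w : G.Walk x y => w.map φ) (fun _ _ hm => Move.map φ hm) p q h

/-- the map on classes induced by a graph homomorphism -/
def Cls.map {x y : V} (a : Cls G x y) : Cls G' (φ x) (φ y) :=
  Quotient.map (fun p => p.map φ) (fun _ _ h => Homotopic.map φ h) a

@[simp] theorem cls_map {x y : V} (p : G.Walk x y) : (cls p).map φ = cls (p.map φ) := rfl

/-- the induced homomorphism of discrete fundamental groups -/
def mapHom (x : V) : DFG G x →* DFG G' (φ x) where
  toFun a := a.map φ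
  map_one' := rfl
  map_mul' a b := by
    induction a using Cls.ind with | h p
    induction b using Cls.ind with | h q
    exact congrArg cls (Walk.map_append φ p q)

/-- if every closed walk of `G'` at `φ x` is homotopic to the image of a closed walk, then
cyclicity passes from `G` to `G'` -/
theorem isCyclic_of_lift (x : V) (h : IsCyclic (DFG G x))
    (hl : ∀ w : G'.Walk (φ x) (φ x), ∃ w' : G.Walk x x, Homotopic (w'.map φ) w) :
    IsCyclic (DFG G' (φ x)) := by
  refine isCyclic_of_surjective (mapHom φ x) ?_
  intro b
  induction b using Cls.ind with | h w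
  obtain ⟨w', hw'⟩ := hl w
  exact ⟨cls w', cls_eq_iff.mpr hw'⟩

end functor

end Pool.Agent.LibDFG
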