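import Mathlib
import Pool.Agent.LibDFG.Tools

namespace Pool.Agent.LibDFG

open SimpleGraph Finset

/-- The join of `s + 1` independent vertices with two disjoint copies of `K_s`. -/
def exG (s : ℕ) : SimpleGraph (Fin (s + 1) ⊕ (Bool × Fin s)) where
  Adj u v := match u, v with
    | .inl _, .inl _ => False
    | .inl _, .inr _ => True
    | .inr _, .inl _ => True
    | .inr a, .inr b => a.1 = b.1 ∧ a.2 ≠ b.2
  symm := ⟨by
    rintro (a | a) (b | b) h
    · exact h
    · trivial
    · trivial
    · exact ⟨h.1.symm, h.2.symm⟩⟩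
  loopless := ⟨by
    rintro (a | a) h
    · exact h
    · exact h.2 rfl⟩

@[simp] theorem exG_ll (s : ℕ) (a b : Fin (s + 1)) :
    (exG s).Adj (.inl a) (.inl b) ↔ False := Iff.rfl
@[simp] theorem exG_lr (s : ℕ) (a : Fin (s + 1)) (b : Bool × Fin s) :
    (exG s).Adj (.inl a) (.inr b) ↔ True := Iff.rfl
@[simp] theorem exG_rl (s : ℕ) (a : Fin (s + 1)) (b : Bool × Fin s) :
    (exG s).Adj (.inr b) (.inl a) ↔ True := Iff.rfl
@[simp] theorem exG_rr (s : ℕ) (a b : Bool × Fin s) :
    (exG s).Adj (.inr a) (.inr b) ↔ (a.1 = b.1 ∧ a.2 ≠ b.2) := Iff.rfl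

theorem exG_colorable (s : ℕ) : (exG s).Colorable (s + 1) := by
  refine ⟨Coloring.mk (fun v => match v with
    | .inl _ => Fin.last s
    | .inr b => b.2.castSucc) ?_⟩
  rintro (a | a) (b | b) h
  · exact h.elim
  · exact (Fin.castSucc_lt_last b.2).ne'
  · exact (Fin.castSucc_lt_last a.2).ne
  · intro hh
    exact h.2 (Fin.castSucc_injective _ hh)

open Classical in
theorem exG_degree (s : ℕ) (hs : 1 ≤ s) (v : Fin (s + 1) ⊕ (Bool × Fin s)) :
    2 * s ≤ (exG s).degree v := by
  rcases v with a | ⟨b, i⟩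
  · have hsub : (univ : Finset (Bool × Fin s)).map ⟨Sum.inr, Sum.inr_injective⟩ ⊆
        (exG s).neighborFinset (.inl a) := by
      intro w hw
      rw [mem_map] at hw
      obtain ⟨c, _, rfl⟩ := hw
      simp
    have h1 := card_le_card hsub
    rw [card_map, card_neighborFinset_eq_degree] at h1
    simp at h1
    exact h1
  · have hsub : (univ : Finset (Fin (s + 1))).map ⟨Sum.inl, Sum.inl_injective⟩ ∪
        ((univ.erase i).map ⟨fun j => (Sum.inr (b, j) : Fin (s + 1) ⊕ (Bool × Fin s)),
          fun x y hxy => by simpa using hxy⟩) ⊆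
        (exG s).neighborFinset (.inr (b, i)) := by
      intro w hw
      rw [mem_union, mem_map, mem_map] at hw
      rcases hw with ⟨c, _, rfl⟩ | ⟨c, hc, rfl⟩
      · simp
      · rw [mem_erase] at hc
        simp only [Function.Embedding.coeFn_mk, mem_neighborFinset, exG_rr]
        simp [Ne.symm hc.1]
    have h1 := card_le_card hsub
    rw [card_union_of_disjoint, card_map, card_map, card_neighborFinset_eq_degree,
      card_erase_of_mem (mem_univ i)] at h1
    · simp at h1
      omega
    · rw [Finset.disjoint_left]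
      intro w hw hw'
      rw [mem_map] at hw hw'
      obtain ⟨c, _, rfl⟩ := hw
      obtain ⟨d, _, hd⟩ := hw'
      simp at hd

/-- the two reference weights -/
def gw (a : Bool) : Multiplicative (ZMod 2 × ZMod 2) :=
  if a then Multiplicative.ofAdd (1, 0) else Multiplicative.ofAdd (0, 1)

theorem gw_mul_self (a : Bool) : gw a * gw a = 1 := by cases a <;> decide

/-- voltages: edges inside the first copy get `(1,0)`, inside the second `(0,1)`, the rest `0`. -/
def exW (s : ℕ) (u v : Fin (s + 1) ⊕ (Bool × Fin s)) : Multiplicative (ZMod 2 × ZMod 2) :=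
  match u, v with
  | .inr a, .inr _ => gw a.1
  | _, _ => 1

/-- value of all two-step walks -/
def exF (s : ℕ) (u v : Fin (s + 1) ⊕ (Bool × Fin s)) : Multiplicative (ZMod 2 × ZMod 2) :=
  match u, v with
  | .inl _, .inl _ => 1
  | .inl _, .inr c => gw c.1
  | .inr a, .inl _ => gw a.1
  | .inr _, .inr _ => 1

theorem exW_two (s : ℕ) (a b c : Fin (s + 1) ⊕ (Bool × Fin s)) (h1 : (exG s).Adj a b)
    (h2 : (exG s).Adj b c) : exW s a b * exW s b c = exF s a c := by
  rcases a with a | ⟨a, i⟩ <;> rcases b with b | ⟨b, j⟩ <;> rcases c with c | ⟨c, k⟩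
  · exact h1.elim
  · exact h1.elim
  · exact mul_one _
  · obtain ⟨h3, _⟩ := h2
    simp only at h3
    subst h3
    exact one_mul _
  · exact h2.elim
  · exact mul_one _
  · exact mul_one _
  · obtain ⟨h3, _⟩ := h1
    simp only at h3
    subst h3
    exact gw_mul_self a

theorem exW_voltage (s : ℕ) : IsVoltage (exG s) (exW s) where
  back := by
    rintro (a | ⟨a, i⟩) (b | ⟨b, j⟩) h
    · exact h.elim
    · rfl
    · rfl
    · obtain ⟨h1, _⟩ := h
      simp only at h1
      subst h1
      exact gw_mul_self a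
  sub := fun a b b' c h1 h2 h3 h4 => (exW_two s a b c h1 h2).trans (exW_two s a b' c h3 h4).symm

theorem exG_not_cyclic (s : ℕ) (hs : 2 ≤ s) : ¬ IsCyclic (DFG (exG s) (.inl 0)) := by
  have hne : (⟨0, by omega⟩ : Fin s) ≠ ⟨1, by omega⟩ := by
    intro h; simp [Fin.ext_iff] at h
  let tri : Bool → (exG s).Walk (.inl 0) (.inl 0) := fun b =>
    Walk.cons (show (exG s).Adj (.inl 0) (.inr (b, ⟨0, by omega⟩)) from trivial)
      (Walk.cons (show (exG s).Adj (.inr (b, ⟨0, by omega⟩)) (.inr (b, ⟨1, by omega⟩)) from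
        ⟨rfl, hne⟩)
        (Walk.cons (show (exG s).Adj (.inr (b, ⟨1, by omega⟩)) (.inl 0) from trivial) Walk.nil))
  have hw : ∀ b, wt (exW s) (tri b) = gw b := by
    intro b
    change 1 * (gw b * (1 * 1)) = gw b
    simp
  refine not_isCyclic_of_wt (exW s) (exW_voltage s) _ (tri true) (tri false) ?_
  rw [hw, hw]
  rintro a ⟨⟨k, hk⟩, ⟨l, hl⟩⟩
  have key : ∀ a : Multiplicative (ZMod 2 × ZMod 2), ∀ k : ℤ, a ^ k = 1 ∨ a ^ k = a := by
    intro a k
    have h2 : a ^ (2 : ℤ) = 1 := by
      revert a; decide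
    rcases Int.even_or_odd k with ⟨m, hm⟩ | ⟨m, hm⟩
    · left
      rw [hm, ← two_mul, zpow_mul, h2, one_zpow]
    · right
      rw [hm, zpow_add, zpow_mul, h2, one_zpow, one_mul, zpow_one]
  change a ^ k = gw true at hk
  change a ^ l = gw false at hl
  have n1 : gw true ≠ 1 := by decide
  have n2 : gw false ≠ 1 := by decide
  have n3 : gw true ≠ gw false := by decide
  rcases key a k with h1 | h1
  · exact n1 (hk.symm.trans h1)
  · rcases key a l with h2 | h2
    · exact n2 (hl.symm.trans h2)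
    · exact n3 (hk.symm.trans (h1.trans (h2.symm.trans hl)))

end Pool.Agent.LibDFG
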