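import Mathlib
import Pool.Agent.LibDFG.Tools
import Pool.Agent.LibDFG.CliqueLower

namespace Pool.Agent.LibDFG

open SimpleGraph Finset

/-- vertices: `Y = Bool × Fin m`, `Z = Fin m`, and four light vertices `Bool × Bool`. -/
abbrev TV (m : ℕ) : Type := (Bool × Fin m) ⊕ (Fin m ⊕ (Bool × Bool))

/-- adjacency: `Y` complete to `Z`; the light vertex `(k, b)` is joined to the half `b` of `Y`;
the two light vertices with the same first coordinate are joined. -/
def tAdj (m : ℕ) : TV m → TV m → Prop
  | .inl _, .inr (.inl _) => True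
  | .inr (.inl _), .inl _ => True
  | .inl y, .inr (.inr f) => f.2 = y.1
  | .inr (.inr f), .inl y => f.2 = y.1
  | .inr (.inr f), .inr (.inr g) => f.1 = g.1 ∧ f.2 ≠ g.2
  | _, _ => False

def tG (m : ℕ) : SimpleGraph (TV m) where
  Adj := tAdj m
  symm := ⟨by
    rintro (a | a | a) (b | b | b) h <;> first | exact h | exact ⟨h.1.symm, h.2.symm⟩⟩
  loopless := ⟨by
    rintro (a | a | a) h
    · exact h
    · exact h
    · exact h.2 rfl⟩

theorem tG_triangle (m : ℕ) (a b c : TV m) (h1 : (tG m).Adj a b) (h2 : (tG m).Adj b c)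
    (h3 : (tG m).Adj c a) : False := by
  change tAdj m a b at h1
  change tAdj m b c at h2
  change tAdj m c a at h3
  rcases a with a | a | a <;> rcases b with b | b | b <;> rcases c with c | c | c <;>
    simp only [tAdj] at h1 h2 h3
  · exact h2.2 (h1.trans h3.symm)
  · exact h3.2 (h2.trans h1.symm)
  · exact h1.2 (h3.trans h2.symm)
  · obtain ⟨_, q1⟩ := h1
    obtain ⟨_, q2⟩ := h2
    obtain ⟨_, q3⟩ := h3
    have key : ∀ x y z : Bool, x ≠ y → y ≠ z → z ≠ x → False := by decide
    exact key _ _ _ q1 q2 q3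

open Classical in
theorem tG_degree (m : ℕ) (hm : 1 ≤ m) (v : TV m) : m + 1 ≤ (tG m).degree v := by
  rcases v with ⟨b, i⟩ | z | ⟨k, b⟩
  · have hsub : ((univ : Finset (Fin m)).map ⟨fun z => (.inr (.inl z) : TV m),
        fun x y hxy => by simpa using hxy⟩) ∪ ({.inr (.inr (true, b))} : Finset (TV m)) ⊆
        (tG m).neighborFinset (.inl (b, i)) := by
      intro w hw
      rw [mem_union, mem_map, mem_singleton] at hw
      rw [mem_neighborFinset]
      rcases hw with ⟨c, _, rfl⟩ | rfl
      · exact trivial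
      · exact rfl
    have h1 := card_le_card hsub
    rw [card_union_of_disjoint, card_map, card_neighborFinset_eq_degree] at h1
    · simpa using h1
    · rw [Finset.disjoint_left]
      intro w hw hw'
      rw [mem_map] at hw
      rw [mem_singleton] at hw'
      obtain ⟨c, _, rfl⟩ := hw
      simp at hw'
  · have hsub : ((univ : Finset (Bool × Fin m)).map ⟨fun z => (.inl z : TV m),
        fun x y hxy => by simpa using hxy⟩) ⊆ (tG m).neighborFinset (.inr (.inl z)) := by
      intro w hw
      rw [mem_map] at hw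
      rw [mem_neighborFinset]
      obtain ⟨c, _, rfl⟩ := hw
      exact trivial
    have h1 := card_le_card hsub
    rw [card_map, card_neighborFinset_eq_degree] at h1
    simp at h1
    omega
  · have hsub : ((univ : Finset (Fin m)).map ⟨fun z => (.inl (b, z) : TV m),
        fun x y hxy => by simpa using hxy⟩) ∪ ({.inr (.inr (k, !b))} : Finset (TV m)) ⊆
        (tG m).neighborFinset (.inr (.inr (k, b))) := by
      intro w hw
      rw [mem_union, mem_map, mem_singleton] at hw
      rw [mem_neighborFinset]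
      rcases hw with ⟨c, _, rfl⟩ | rfl
      · exact rfl
      · exact ⟨rfl, by cases b <;> simp⟩
    have h1 := card_le_card hsub
    rw [card_union_of_disjoint, card_map, card_neighborFinset_eq_degree] at h1
    · simpa using h1
    · rw [Finset.disjoint_left]
      intro w hw hw'
      rw [mem_map] at hw
      rw [mem_singleton] at hw'
      obtain ⟨c, _, rfl⟩ := hw
      simp at hw'

/-- voltages: the two light edges get the two reference weights. -/
def tW (m : ℕ) : TV m → TV m → Multiplicative (ZMod 2 × ZMod 2)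
  | .inr (.inr f), .inr (.inr _) => gw f.1
  | _, _ => 1

/-- value of two-step walks -/
def tF (m : ℕ) : TV m → TV m → Multiplicative (ZMod 2 × ZMod 2)
  | .inl _, .inr (.inr f) => gw f.1
  | .inr (.inr f), .inl _ => gw f.1
  | _, _ => 1

theorem tW_two (m : ℕ) (a b c : TV m) (h1 : (tG m).Adj a b)
    (h2 : (tG m).Adj b c) : tW m a b * tW m b c = tF m a c := by
  change tAdj m a b at h1
  change tAdj m b c at h2
  rcases a with a | a | a <;> rcases b with b | b | b <;> rcases c with c | c | c <;>
    simp only [tAdj] at h1 h2 <;> simp only [tW, tF, mul_one, one_mul]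
  · rw [h2.1]
  · rw [h1.1]; exact gw_mul_self _

theorem tW_voltage (m : ℕ) : IsVoltage (tG m) (tW m) where
  back := by
    intro a b h
    change tAdj m a b at h
    rcases a with a | a | a <;> rcases b with b | b | b <;> simp only [tAdj] at h <;>
      simp only [tW, mul_one]
    rw [h.1]; exact gw_mul_self _
  sub := fun a b b' c h1 h2 h3 h4 => (tW_two m a b c h1 h2).trans (tW_two m a b' c h3 h4).symm

/-- a general non-cyclicity criterion with the two reference weights -/
theorem not_cyclic_of_gw {V : Type} {G : SimpleGraph V}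
    {φ : V → V → Multiplicative (ZMod 2 × ZMod 2)}
    (hφ : IsVoltage G φ) (x : V) (w : Bool → G.Walk x x) (hw : ∀ b, wt φ (w b) = gw b) :
    ¬ IsCyclic (DFG G x) := by
  refine not_isCyclic_of_wt φ hφ _ (w true) (w false) ?_
  rw [hw, hw]
  rintro a ⟨⟨k, hk⟩, ⟨l, hl⟩⟩
  have key : ∀ a : Multiplicative (ZMod 2 × ZMod 2), ∀ k : ℤ, a ^ k = 1 ∨ a ^ k = a := by
    intro a k
    have h2 : a ^ (2 : ℤ) = 1 := by
      revert a; decide
    rcases Int.even_or_odd k with ⟨m, hm⟩ | ⟨m, hm⟩
    · left
      rw [hm, ← two_mul, zpow_mul, h2, one_zpow]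
    · right
      rw [hm, zpow_add, zpow_mul, h2, one_zpow, one_mul, zpow_one]
  change a ^ k = gw true at hk
  change a ^ l = gw false at hl
  have n1 : gw true ≠ 1 := by decide
  have n2 : gw false ≠ 1 := by decide
  have n3 : gw true ≠ gw false := by decide
  rcases key a k with h1 | h1
  · exact n1 (hk.symm.trans h1)
  · rcases key a l with h2 | h2
    · exact n2 (hl.symm.trans h2)
    · exact n3 (hk.symm.trans (h1.trans (h2.symm.trans hl)))

theorem tG_not_cyclic (m : ℕ) (hm : 1 ≤ m) :
    ¬ IsCyclic (DFG (tG m) (.inr (.inl ⟨0, hm⟩))) := by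
  let pent : Bool → (tG m).Walk (.inr (.inl ⟨0, hm⟩)) (.inr (.inl ⟨0, hm⟩)) := fun k =>
    Walk.cons (show (tG m).Adj (.inr (.inl ⟨0, hm⟩)) (.inl (false, ⟨0, hm⟩)) from trivial)
      (Walk.cons (show (tG m).Adj (.inl (false, ⟨0, hm⟩)) (.inr (.inr (k, false))) from rfl)
        (Walk.cons (show (tG m).Adj (.inr (.inr (k, false))) (.inr (.inr (k, true))) from
          ⟨rfl, by simp⟩)
          (Walk.cons (show (tG m).Adj (.inr (.inr (k, true))) (.inl (true, ⟨0, hm⟩)) from rfl)
            (Walk.cons (show (tG m).Adj (.inl (true, ⟨0, hm⟩)) (.inr (.inl ⟨0, hm⟩)) from trivial)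
              Walk.nil))))
  refine not_cyclic_of_gw (tW_voltage m) _ pent ?_
  intro b
  change 1 * (1 * (gw b * (1 * (1 * 1)))) = gw b
  simp

theorem tV_card (m : ℕ) : Fintype.card (TV m) = 3 * m + 4 := by
  simp [TV]; ring

end Pool.Agent.LibDFG
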