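import Mathlib
import Pool.Agent.LibDFG.Base
import Pool.Agent.LibDFG.CliqueLower
import Pool.Agent.LibDFG.TriangleLower

/-!
Lower bounds for the threshold: blow-ups, and a complete bipartite graph with two extra edges.
-/

namespace Pool.Agent.LibDFG

open Finset Function SimpleGraph

section blow
variable {V : Type} (G : SimpleGraph V) (N : ℕ)

/-- every vertex replaced by `N` independent vertices -/
def blow : SimpleGraph (V × Fin N) := G.comap Prod.fst

theorem blow_adj (u v : V × Fin N) : (blow G N).Adj u v ↔ G.Adj u.1 v.1 := Iff.rfl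

theorem blow_colorable {k : ℕ} (h : G.Colorable k) : (blow G N).Colorable k := by
  obtain ⟨c⟩ := h
  exact ⟨Coloring.mk (fun u => c u.1) (fun {u v} huv => c.valid huv)⟩

open Classical in
theorem blow_degree [Fintype V] {δ : ℕ} (hd : ∀ v, δ ≤ G.degree v) (u : V × Fin N) :
    N * δ ≤ (blow G N).degree u := by
  have hsub : (G.neighborFinset u.1) ×ˢ (univ : Finset (Fin N)) ⊆ (blow G N).neighborFinset u := by
    intro w hw
    rw [mem_product, mem_neighborFinset] at hw
    rw [mem_neighborFinset]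
    exact hw.1
  have h1 := card_le_card hsub
  rw [card_product, card_neighborFinset_eq_degree, card_univ, Fintype.card_fin,
    card_neighborFinset_eq_degree] at h1
  have h2 := Nat.mul_le_mul_right N (hd u.1)
  rw [mul_comm δ N] at h2
  exact h2.trans h1

theorem blow_not_cyclic (hN : 0 < N) (x : V) (h : ¬ IsCyclic (DFG G x)) :
    ¬ IsCyclic (DFG (blow G N) (x, ⟨0, hN⟩)) := by
  intro hc
  apply h
  let π : blow G N →g G := ⟨Prod.fst, fun {u v} huv => huv⟩
  let ι : G →g blow G N := ⟨fun v => (v, ⟨0, hN⟩), fun {u v} huv => huv⟩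
  refine isCyclic_of_lift π (x, ⟨0, hN⟩) hc ?_
  intro w
  refine ⟨w.map ι, ?_⟩
  have e : ∀ {a b : V} (p : G.Walk a b), (p.map ι).map π = p := by
    intro a b p
    induction p with
    | nil => rfl
    | cons h p ih =>
      rw [Walk.map_cons, Walk.map_cons, ih]
  have h1 : (w.map ι).map π = w := e w
  exact (congrArg (fun p => Homotopic p w) h1).mpr (Homotopic.refl w)

end blow

/-- the two extra edges `01` and `23` -/
def pr {m : ℕ} (i j : Fin (m + 4)) : Prop :=
  (i.val = 0 ∧ j.val = 1) ∨ (i.val = 1 ∧ j.val = 0) ∨ (i.val = 2 ∧ j.val = 3) ∨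
    (i.val = 3 ∧ j.val = 2)

/-- The complete bipartite graph with sides of size `m + 4` and two disjoint extra edges in one of
the sides. -/
def twoEdges (m : ℕ) : SimpleGraph (Bool × Fin (m + 4)) where
  Adj u v := u.1 ≠ v.1 ∨ (u.1 = false ∧ v.1 = false ∧ pr u.2 v.2)
  symm := ⟨fun u v h => by
    rcases h with h | ⟨h1, h2, h3⟩
    · exact Or.inl h.symm
    · refine Or.inr ⟨h2, h1, ?_⟩
      unfold pr at h3 ⊢
      omega⟩
  loopless := ⟨fun u h => by
    rcases h with h | ⟨_, _, h3⟩
    · exact h rfl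
    · unfold pr at h3
      omega⟩

theorem twoEdges_adj (m : ℕ) (u v : Bool × Fin (m + 4)) : (twoEdges m).Adj u v ↔
    (u.1 ≠ v.1 ∨ (u.1 = false ∧ v.1 = false ∧ pr u.2 v.2)) := Iff.rfl

open Classical in
theorem twoEdges_degree (m : ℕ) (u : Bool × Fin (m + 4)) : m + 4 ≤ (twoEdges m).degree u := by
  have hsub : ({!u.1} : Finset Bool) ×ˢ (univ : Finset (Fin (m + 4))) ⊆
      (twoEdges m).neighborFinset u := by
    intro w hw
    rw [mem_product, mem_singleton] at hw
    rw [mem_neighborFinset, twoEdges_adj]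
    left
    rw [hw.1]
    cases u.1 <;> simp
  have h1 := card_le_card hsub
  rwa [card_product, card_singleton, card_univ, Fintype.card_fin, one_mul,
    card_neighborFinset_eq_degree] at h1

/-- the label of a vertex -/
def lb {m : ℕ} (i : Fin (m + 4)) : Multiplicative (ZMod 2 × ZMod 2) :=
  if i.val ≤ 1 then gw true else gw false

theorem lb_pr {m : ℕ} {i j : Fin (m + 4)} (h : pr i j) : lb i = lb j := by
  unfold pr at h
  unfold lb
  rcases h with h | h | h | h
  · rw [if_pos (by omega), if_pos (by omega)]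
  · rw [if_pos (by omega), if_pos (by omega)]
  · rw [if_neg (by omega), if_neg (by omega)]
  · rw [if_neg (by omega), if_neg (by omega)]

theorem lb_mul_self {m : ℕ} (i : Fin (m + 4)) : lb i * lb i = 1 := by
  unfold lb
  split_ifs <;> exact gw_mul_self _

theorem pr_unique {m : ℕ} {i j k : Fin (m + 4)} (h1 : pr i j) (h2 : pr j k) : i = k := by
  unfold pr at h1 h2
  exact Fin.ext (by omega)

/-- the weights -/
def teW {m : ℕ} (u v : Bool × Fin (m + 4)) : Multiplicative (ZMod 2 × ZMod 2) :=
  match u.1, v.1 with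
  | false, false => lb u.2
  | _, _ => 1

/-- the weights of paths of length two -/
def teF {m : ℕ} (u v : Bool × Fin (m + 4)) : Multiplicative (ZMod 2 × ZMod 2) :=
  match u.1, v.1 with
  | false, true => lb u.2
  | true, false => lb v.2
  | _, _ => 1

theorem teW_two {m : ℕ} (a b c : Bool × Fin (m + 4)) (h1 : (twoEdges m).Adj a b)
    (h2 : (twoEdges m).Adj b c) : teW a b * teW b c = teF a c := by
  obtain ⟨a1, a2⟩ := a
  obtain ⟨b1, b2⟩ := b
  obtain ⟨c1, c2⟩ := c
  rw [twoEdges_adj] at h1 h2
  simp only at h1 h2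
  cases a1 <;> cases b1 <;> cases c1
  · -- false false false
    have p1 : pr a2 b2 := by simpa using h1
    have p2 : pr b2 c2 := by simpa using h2
    change lb a2 * lb b2 = 1
    rw [lb_pr p1]; exact lb_mul_self _
  · have p1 : pr a2 b2 := by simpa using h1
    change lb a2 * 1 = lb a2
    rw [mul_one]
  · change (1 : Multiplicative (ZMod 2 × ZMod 2)) * 1 = 1
    rw [mul_one]
  · exfalso
    rcases h2 with h | h
    · exact h rfl
    · exact absurd h.1 (by simp)
  · have p2 : pr b2 c2 := by simpa using h2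
    change 1 * lb b2 = lb c2
    rw [one_mul, lb_pr p2]
  · change (1 : Multiplicative (ZMod 2 × ZMod 2)) * 1 = 1
    rw [mul_one]
  · exfalso
    rcases h1 with h | h
    · exact h rfl
    · exact absurd h.1 (by simp)
  · exfalso
    rcases h1 with h | h
    · exact h rfl
    · exact absurd h.1 (by simp)

theorem teW_voltage (m : ℕ) : IsVoltage (twoEdges m) teW where
  back := fun u v h => by
    rw [teW_two u v u h h.symm]
    obtain ⟨u1, u2⟩ := u
    cases u1 <;> rfl
  sub := fun a b b' c h1 h2 h3 h4 => (teW_two _ _ _ h1 h2).trans (teW_two _ _ _ h3 h4).symm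

theorem twoEdges_not_cyclic (m : ℕ) :
    ¬ IsCyclic (DFG (twoEdges m) ((true, ⟨0, by omega⟩) : Bool × Fin (m + 4))) := by
  have adj1 : ∀ i j : Fin (m + 4), (twoEdges m).Adj (true, i) (false, j) := fun i j =>
    Or.inl (by simp)
  have adj2 : ∀ i j : Fin (m + 4), (twoEdges m).Adj (false, i) (true, j) := fun i j =>
    Or.inl (by simp)
  have adj3 : ∀ i j : Fin (m + 4), pr i j → (twoEdges m).Adj (false, i) (false, j) := fun i j h =>
    Or.inr ⟨rfl, rfl, h⟩
  let x0 : Bool × Fin (m + 4) := (true, ⟨0, by omega⟩)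
  let loop : ∀ i j : Fin (m + 4), pr i j → (twoEdges m).Walk x0 x0 := fun i j h =>
    Walk.cons (adj1 _ i) (Walk.cons (adj3 i j h) (Walk.cons (adj2 j _) Walk.nil))
  have hw : ∀ (i j : Fin (m + 4)) (h : pr i j), wt teW (loop i j h) = lb i := by
    intro i j h
    change 1 * (lb i * (1 * 1)) = lb i
    rw [mul_one, mul_one, one_mul]
  have p01 : pr (⟨0, by omega⟩ : Fin (m + 4)) ⟨1, by omega⟩ := Or.inl ⟨rfl, rfl⟩
  have p23 : pr (⟨2, by omega⟩ : Fin (m + 4)) ⟨3, by omega⟩ := Or.inr (Or.inr (Or.inl ⟨rfl, rfl⟩))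
  refine not_cyclic_of_gw (teW_voltage m) x0 (fun b => match b with
    | true => loop _ _ p01
    | false => loop _ _ p23) ?_
  intro b
  cases b
  · exact (hw _ _ p23).trans rfl
  · exact (hw _ _ p01).trans rfl

end Pool.Agent.LibDFG
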