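import Mathlib
import Pool.Agent.LibDFG.Tools

namespace Pool.Agent.LibDFG

open SimpleGraph Finset

variable {V : Type} [Fintype V] [DecidableEq V] (G : SimpleGraph V) [DecidableRel G.Adj]

/-- greedy Turan type bound: a set with large inner minimum degree contains a big clique -/
theorem greedy_clique (C : Finset V) (hC : C.Nonempty) (s m : ℕ)
    (hm : ∀ v ∈ C, m ≤ (C ∩ G.neighborFinset v).card)
    (hs : s * C.card < C.card + s * m) :
    ∀ k, k ≤ s + 1 → ∃ t : Finset V, t ⊆ C ∧ G.IsNClique k t := by
  intro k
  induction k with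
  | zero =>
    intro _
    exact ⟨∅, empty_subset _, by simp [isNClique_iff]⟩
  | succ k ih =>
    intro hk
    obtain ⟨t, htC, ht⟩ := ih (by omega)
    have hex : ∃ v ∈ C, ∀ u ∈ t, G.Adj u v := by
      by_contra hno
      push Not at hno
      have hsub : C ⊆ t.biUnion (fun u => C \ G.neighborFinset u) := by
        intro v hv
        obtain ⟨u, hu, hadj⟩ := hno v hv
        rw [mem_biUnion]
        exact ⟨u, hu, by simp [hv, hadj]⟩
      have h1 : C.card ≤ ∑ u ∈ t, (C \ G.neighborFinset u).card :=
        (card_le_card hsub).trans card_biUnion_le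
      have h2 : ∀ u ∈ t, (C \ G.neighborFinset u).card ≤ C.card - m := by
        intro u hu
        have h3 := hm u (htC hu)
        have h4 := card_sdiff_add_card_inter C (G.neighborFinset u)
        omega
      have h5 : ∑ u ∈ t, (C \ G.neighborFinset u).card ≤ t.card * (C.card - m) := by
        have := Finset.sum_le_sum h2
        simpa using this
      have htc : t.card = k := ht.card_eq
      obtain ⟨v0, hv0⟩ := hC
      have h6 : m ≤ C.card := (hm v0 hv0).trans (card_le_card inter_subset_left)
      have h7 : t.card * (C.card - m) ≤ s * (C.card - m) := by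
        apply Nat.mul_le_mul_right; omega
      have h8 : s * (C.card - m) = s * C.card - s * m := Nat.mul_sub s _ _
      have h9 : s * m ≤ s * C.card := Nat.mul_le_mul_left s h6
      omega
    obtain ⟨v, hvC, hv⟩ := hex
    refine ⟨insert v t, insert_subset hvC htC, ?_⟩
    exact ht.insert (fun u hu => (hv u hu).symm)

/-- all pairs have a common neighbour as soon as `2 δ > n` -/
theorem exists_common {δ : ℕ} (hd : ∀ v, δ ≤ G.degree v) (h : Fintype.card V < 2 * δ)
    (u v : V) : ∃ w, G.Adj u w ∧ G.Adj w v := by
  by_contra hno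
  push Not at hno
  have hdisj : Disjoint (G.neighborFinset u) (G.neighborFinset v) := by
    rw [Finset.disjoint_left]
    intro w hw hw'
    rw [mem_neighborFinset] at hw hw'
    exact hno w hw hw'.symm
  have h1 := card_union_of_disjoint hdisj
  have h2 : (G.neighborFinset u ∪ G.neighborFinset v).card ≤ Fintype.card V := card_le_univ _
  have h3 := hd u
  have h4 := hd v
  rw [← card_neighborFinset_eq_degree] at h3 h4
  omega

theorem card_common {δ : ℕ} (hd : ∀ v, δ ≤ G.degree v) (u v : V) :
    2 * δ ≤ Fintype.card V + (G.neighborFinset u ∩ G.neighborFinset v).card := by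
  have h1 := card_union_add_card_inter (G.neighborFinset u) (G.neighborFinset v)
  have h2 : (G.neighborFinset u ∪ G.neighborFinset v).card ≤ Fintype.card V := card_le_univ _
  have h3 := hd u
  have h4 := hd v
  rw [← card_neighborFinset_eq_degree] at h3 h4
  omega

/-- In a `K_{s+2}`-free graph with `(3s+1) δ > 2 s n` all neighbourhoods are connected, stated as
an induction principle. -/
theorem nbhd_induction {s δ : ℕ} (hfree : G.CliqueFree (s + 2)) (hd : ∀ v, δ ≤ G.degree v)
    (h : 2 * s * Fintype.card V < (3 * s + 1) * δ) (u : V) (P : V → Prop)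
    (h0 : ∃ a, G.Adj u a ∧ P a)
    (hstep : ∀ a b, G.Adj u a → G.Adj u b → G.Adj a b → P a → P b) :
    ∀ b, G.Adj u b → P b := by
  classical
  by_contra hcon
  push Not at hcon
  obtain ⟨b0, hb0, hPb0⟩ := hcon
  obtain ⟨a0, ha0, hPa0⟩ := h0
  set N := G.neighborFinset u with hN
  set C1 := N.filter P with hC1
  set C2 := N.filter (fun v => ¬ P v) with hC2
  have hcard : C1.card + C2.card = N.card := card_filter_add_card_filter_not P
  set n := Fintype.card V with hn
  have hdu : δ ≤ N.card := by rw [hN, card_neighborFinset_eq_degree]; exact hd u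
  -- inner degrees
  have hin1 : ∀ v ∈ C1, δ + N.card - n ≤ (C1 ∩ G.neighborFinset v).card := by
    intro v hv
    have hv' : v ∈ N ∧ P v := by simpa [hC1] using hv
    have hsub : N ∩ G.neighborFinset v ⊆ C1 ∩ G.neighborFinset v := by
      intro w hw
      rw [mem_inter] at hw ⊢
      refine ⟨?_, hw.2⟩
      rw [hC1, mem_filter]
      refine ⟨hw.1, ?_⟩
      have h1 : G.Adj u v := by simpa [hN] using hv'.1
      have h2 : G.Adj u w := by simpa [hN] using hw.1
      have h3 : G.Adj v w := by simpa using hw.2
      exact hstep v w h1 h2 h3 hv'.2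
    have h1 := card_union_add_card_inter N (G.neighborFinset v)
    have h2 : (N ∪ G.neighborFinset v).card ≤ n := card_le_univ _
    have h3 := hd v
    rw [← card_neighborFinset_eq_degree] at h3
    have h4 := card_le_card hsub
    omega
  have hin2 : ∀ v ∈ C2, δ + N.card - n ≤ (C2 ∩ G.neighborFinset v).card := by
    intro v hv
    have hv' : v ∈ N ∧ ¬ P v := by simpa [hC2] using hv
    have hsub : N ∩ G.neighborFinset v ⊆ C2 ∩ G.neighborFinset v := by
      intro w hw
      rw [mem_inter] at hw ⊢
      refine ⟨?_, hw.2⟩
      rw [hC2, mem_filter]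
      refine ⟨hw.1, ?_⟩
      have h1 : G.Adj u v := by simpa [hN] using hv'.1
      have h2 : G.Adj u w := by simpa [hN] using hw.1
      have h3 : G.Adj v w := by simpa using hw.2
      exact fun hPw => hv'.2 (hstep w v h2 h1 h3.symm hPw)
    have h1 := card_union_add_card_inter N (G.neighborFinset v)
    have h2 : (N ∪ G.neighborFinset v).card ≤ n := card_le_univ _
    have h3 := hd v
    rw [← card_neighborFinset_eq_degree] at h3
    have h4 := card_le_card hsub
    omega
  have hcl : ∀ C : Finset V, C.Nonempty → C ⊆ N →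
      (∀ v ∈ C, δ + N.card - n ≤ (C ∩ G.neighborFinset v).card) →
      C.card + s * (δ + N.card - n) ≤ s * C.card := by
    intro C hne hCN hin
    by_contra hlt
    push Not at hlt
    obtain ⟨t, htC, ht⟩ := greedy_clique G C hne s (δ + N.card - n) hin hlt (s + 1) le_rfl
    apply hfree (insert u t)
    refine ht.insert (fun w hw => ?_)
    have := hCN (htC hw)
    simpa [hN] using this
  have hne1 : C1.Nonempty := ⟨a0, by simp [hC1, hN, ha0, hPa0]⟩
  have hne2 : C2.Nonempty := ⟨b0, by simp [hC2, hN, hb0, hPb0]⟩
  have e1 := hcl C1 hne1 (filter_subset _ _) hin1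
  have e2 := hcl C2 hne2 (filter_subset _ _) hin2
  set m := δ + N.card - n with hm
  have hm' : δ + N.card ≤ m + n := by omega
  have e3 : N.card + 2 * (s * m) ≤ s * N.card := by
    have : s * N.card = s * C1.card + s * C2.card := by rw [← hcard, mul_add]
    omega
  have e4 : s * (δ + N.card) ≤ s * (m + n) := Nat.mul_le_mul_left s hm'
  nlinarith [Nat.mul_le_mul_left (s + 1) hdu]

end Pool.Agent.LibDFG
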