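import Mathlib
import Pool.Agent.LibDFG.CliqueUpper

namespace Pool.Agent.LibDFG

open SimpleGraph Finset

variable {V : Type} [Fintype V] [DecidableEq V] (G : SimpleGraph V) [DecidableRel G.Adj]

/-- pure arithmetic on the adjacency pattern of one vertex to a closed 5-walk -/
theorem pattern_bound : ∀ b0 b1 b2 b3 b4 : Bool,
    ¬ (b0 ∧ b2 ∧ b3) → ¬ (b1 ∧ b3 ∧ b4) → ¬ (b2 ∧ b4 ∧ b0) → ¬ (b3 ∧ b0 ∧ b1) →
    ¬ (b4 ∧ b1 ∧ b2) →
    b0.toNat + b1.toNat + b2.toNat + b3.toNat + b4.toNat + (b0 && b2 && !b1).toNat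
      + (b2 && b4 && !b3).toNat ≤ 3 := by decide

/-- every set with no `K_{s+1}` has a vertex with many inner non-neighbours -/
theorem exists_low (C : Finset V) (hC : C.Nonempty) (s : ℕ)
    (hno : ∀ t : Finset V, t ⊆ C → ¬ G.IsNClique (s + 1) t) :
    ∃ v ∈ C, C.card ≤ s * (C \ G.neighborFinset v).card := by
  by_contra hcon
  push Not at hcon
  -- m = minimal inner degree
  obtain ⟨v0, hv0, hmin⟩ := exists_min_image C (fun v => (C ∩ G.neighborFinset v).card) hC
  set m := (C ∩ G.neighborFinset v0).card with hm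
  have h1 := hcon v0 hv0
  have h2 := card_sdiff_add_card_inter C (G.neighborFinset v0)
  have h3 : s * C.card < C.card + s * m := by
    have : s * C.card = s * (C \ G.neighborFinset v0).card + s * m := by
      rw [← mul_add, h2]
    omega
  obtain ⟨t, htC, ht⟩ := greedy_clique G C hC s m hmin h3 (s + 1) le_rfl
  exact hno t htC ht

/-- counting: in a `K_{s+2}`-free graph with large minimum degree every closed 5-walk can be
improved (changing the 2nd and 4th vertex) so that some vertex sees a shortening pattern. -/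
theorem five_walk_count {s δ : ℕ} (hs2 : 2 ≤ s) (hfree : G.CliqueFree (s + 2))
    (hd : ∀ v, δ ≤ G.degree v)
    (h : 2 * s * Fintype.card V < (3 * s + 1) * δ) (a0 a2 a4 : V) :
    ∃ a1 a3, G.Adj a0 a1 ∧ G.Adj a1 a2 ∧ G.Adj a2 a3 ∧ G.Adj a3 a4 ∧
      ∃ z, (G.Adj z a0 ∧ G.Adj z a2 ∧ G.Adj z a3) ∨ (G.Adj z a1 ∧ G.Adj z a3 ∧ G.Adj z a4) ∨
        (G.Adj z a2 ∧ G.Adj z a4 ∧ G.Adj z a0) ∨ (G.Adj z a3 ∧ G.Adj z a0 ∧ G.Adj z a1) ∨
        (G.Adj z a4 ∧ G.Adj z a1 ∧ G.Adj z a2) := by
  classical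
  set n := Fintype.card V with hn
  have h2δ : n < 2 * δ := by nlinarith
  -- choose a1 and a3
  have hchoose : ∀ u v : V, ∃ w, G.Adj u w ∧ G.Adj w v ∧
      (G.neighborFinset u ∩ G.neighborFinset v).card ≤
        s * ((G.neighborFinset u ∩ G.neighborFinset v) \ G.neighborFinset w).card := by
    intro u v
    obtain ⟨w0, hw0, hw0'⟩ := exists_common G hd h2δ u v
    have hne : (G.neighborFinset u ∩ G.neighborFinset v).Nonempty :=
      ⟨w0, by simp [hw0, hw0'.symm]⟩
    have hno : ∀ t : Finset V, t ⊆ G.neighborFinset u ∩ G.neighborFinset v →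
        ¬ G.IsNClique (s + 1) t := by
      intro t ht hcl
      apply hfree (insert u t)
      refine hcl.insert (fun w hw => ?_)
      have := ht hw
      simp only [mem_inter, mem_neighborFinset] at this
      exact this.1
    obtain ⟨w, hw, hlow⟩ := exists_low G _ hne s hno
    simp only [mem_inter, mem_neighborFinset] at hw
    exact ⟨w, hw.1, hw.2.symm, hlow⟩
  obtain ⟨a1, h01, h12, hlow1⟩ := hchoose a0 a2
  obtain ⟨a3, h23, h34, hlow3⟩ := hchoose a2 a4
  refine ⟨a1, a3, h01, h12, h23, h34, ?_⟩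
  by_contra hcon
  push Not at hcon
  -- the pattern inequality for every z
  have hz : ∀ z : V, (if G.Adj a0 z then 1 else 0) + (if G.Adj a1 z then 1 else 0)
      + (if G.Adj a2 z then 1 else 0) + (if G.Adj a3 z then 1 else 0)
      + (if G.Adj a4 z then 1 else 0)
      + (if z ∈ (G.neighborFinset a0 ∩ G.neighborFinset a2) \ G.neighborFinset a1
          then 1 else 0)
      + (if z ∈ (G.neighborFinset a2 ∩ G.neighborFinset a4) \ G.neighborFinset a3
          then 1 else 0) ≤ 3 := by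
    intro z
    obtain ⟨c1, c2, c3, c4, c5⟩ := hcon z
    have key := pattern_bound (decide (G.Adj a0 z)) (decide (G.Adj a1 z))
      (decide (G.Adj a2 z)) (decide (G.Adj a3 z)) (decide (G.Adj a4 z))
    simp only [decide_eq_true_eq] at key
    have key2 := key (fun hh => c1 hh.1.symm hh.2.1.symm hh.2.2.symm)
      (fun hh => c2 hh.1.symm hh.2.1.symm hh.2.2.symm)
      (fun hh => c3 hh.1.symm hh.2.1.symm hh.2.2.symm)
      (fun hh => c4 hh.1.symm hh.2.1.symm hh.2.2.symm)
      (fun hh => c5 hh.1.symm hh.2.1.symm hh.2.2.symm)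
    by_cases e0 : G.Adj a0 z <;> by_cases e1 : G.Adj a1 z <;> by_cases e2 : G.Adj a2 z <;>
      by_cases e3 : G.Adj a3 z <;> by_cases e4 : G.Adj a4 z <;>
      simp_all
  have hsum := Finset.sum_le_sum (fun z (_ : z ∈ (univ : Finset V)) => hz z)
  simp only [sum_add_distrib, sum_boole, Nat.cast_id] at hsum
  have hdeg : ∀ a : V, (univ.filter (fun z => G.Adj a z)).card = G.degree a := by
    intro a
    rw [← card_neighborFinset_eq_degree]
    congr 1
    ext z; simp
  have hmem : ∀ S : Finset V, (univ.filter (fun z => z ∈ S)).card = S.card := by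
    intro S; congr 1; ext z; simp
  rw [hdeg, hdeg, hdeg, hdeg, hdeg, hmem, hmem] at hsum
  have hc1 := card_common G hd a0 a2
  have hc2 := card_common G hd a2 a4
  have hr : ∑ _z : V, 3 = 3 * n := by simp [hn, mul_comm]
  rw [hr] at hsum
  set x1 := ((G.neighborFinset a0 ∩ G.neighborFinset a2) \ G.neighborFinset a1).card
  set x3 := ((G.neighborFinset a2 ∩ G.neighborFinset a4) \ G.neighborFinset a3).card
  have g0 := hd a0
  have g1 := hd a1
  have g2 := hd a2
  have g3 := hd a3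
  have g4 := hd a4
  have hA : 5 * δ + x1 + x3 ≤ 3 * n := by omega
  have hB : 2 * (2 * δ) ≤ 2 * n + s * x1 + s * x3 := by omega
  have hC : s * (5 * δ + x1 + x3) ≤ s * (3 * n) := Nat.mul_le_mul_left s hA
  have hD : (5 * s + 4) * δ ≤ (3 * s + 2) * n := by nlinarith
  have hn0 : 0 < n := Fintype.card_pos_iff.mpr ⟨a0⟩
  have hE : (5 * s + 4) * (2 * s * n) < (5 * s + 4) * ((3 * s + 1) * δ) :=
    Nat.mul_lt_mul_of_pos_left h (by omega)
  have hF : (3 * s + 1) * ((5 * s + 4) * δ) ≤ (3 * s + 1) * ((3 * s + 2) * n) :=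
    Nat.mul_le_mul_left _ hD
  have hG : (5 * s + 4) * (2 * s) * n < (3 * s + 1) * (3 * s + 2) * n := by nlinarith
  have hH : (5 * s + 4) * (2 * s) < (3 * s + 1) * (3 * s + 2) := lt_of_mul_lt_mul_right hG (Nat.zero_le n)
  nlinarith

end Pool.Agent.LibDFG
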