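import Mathlib
import Pool.Agent.LibDFG.CliqueCore

namespace Pool.Agent.LibDFG

open SimpleGraph Finset

variable {V : Type} [Fintype V] [DecidableEq V] (G : SimpleGraph V) [DecidableRel G.Adj]

/-- Group theoretic core: all `t u v` lie in one cyclic subgroup. -/
theorem clique_group_core {Γ : Type} [Group Γ] (t : V → V → Γ) (x : V)
    (hback : ∀ u v, G.Adj u v → t u v * t v u = 1)
    (hsub : ∀ a b b' c, G.Adj a b → G.Adj b c → G.Adj a b' → G.Adj b' c →
      t a b * t b c = t a b' * t b' c)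
    (hx : ∀ a u, G.Adj x a → G.Adj a u → t x a * t a u = 1)
    {s δ : ℕ} (hs2 : 2 ≤ s) (hfree : G.CliqueFree (s + 2)) (hd : ∀ v, δ ≤ G.degree v)
    (h : 2 * s * Fintype.card V < (3 * s + 1) * δ) :
    ∃ τ : Γ, ∀ u v, G.Adj u v → t u v ∈ Subgroup.zpowers τ := by
  classical
  have h2δ : Fintype.card V < 2 * δ := by nlinarith
  have hcn : ∀ u v, ∃ w, G.Adj u w ∧ G.Adj w v := exists_common G hd h2δ
  choose c hc1 hc2 using hcn
  have hinv : ∀ u v, G.Adj u v → t v u = (t u v)⁻¹ := fun u v huv =>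
    eq_inv_of_mul_eq_one_right (hback u v huv)
  -- two step classes
  let S : V → V → Γ := fun u v => t u (c u v) * t (c u v) v
  have hS : ∀ u w v, G.Adj u w → G.Adj w v → t u w * t w v = S u v :=
    fun u w v h1 h2 => hsub _ _ _ _ h1 h2 (hc1 u v) (hc2 u v)
  have hSx : ∀ u, S x u = 1 := fun u => hx _ _ (hc1 x u) (hc2 x u)
  have hSinv : ∀ u v, S v u = (S u v)⁻¹ := by
    intro u v
    have h1 := hS v (c u v) u (hc2 u v).symm (hc1 u v).symm
    rw [← h1, hinv _ _ (hc2 u v), hinv _ _ (hc1 u v)]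
    change _ = (t u (c u v) * t (c u v) v)⁻¹
    rw [mul_inv_rev]
  -- triangle classes
  let T : V → V → Γ := fun u v => t u v * S v u
  have hT : ∀ u v w, G.Adj u v → G.Adj v w → G.Adj w u → T u v = t u v * (t v w * t w u) := by
    intro u v w h1 h2 h3
    change t u v * S v u = _
    rw [← hS v w u h2 h3]
  have hTn : ∀ u v w, G.Adj u v → G.Adj u w → G.Adj v w → T u w = (T u v)⁻¹ := by
    intro u v w h1 h2 h3
    rw [hT u v w h1 h3 h2.symm, hT u w v h2 h3.symm h1.symm]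
    rw [hinv u v h1, hinv u w h2, hinv v w h3]
    group
  have hTc : ∀ u v, G.Adj u v → T v u = t v u * (T u v)⁻¹ * t u v := by
    intro u v h1
    change t v u * S u v = t v u * (t u v * S v u)⁻¹ * t u v
    rw [hSinv u v, hinv u v h1]
    group
  -- reference element
  obtain ⟨a0, ha0⟩ : ∃ a0, G.Adj x a0 := ⟨c x x, hc1 x x⟩
  set τ := T x a0 with hτ
  let PM : Γ → Prop := fun γ => γ = τ ∨ γ = τ⁻¹
  have hPMinv : ∀ γ, PM γ → PM γ⁻¹ := by
    rintro γ (h1 | h1)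
    · right; rw [h1]
    · left; rw [h1, inv_inv]
  have hPMmem : ∀ γ, PM γ → γ ∈ Subgroup.zpowers τ := by
    rintro γ (h1 | h1)
    · rw [h1]; exact Subgroup.mem_zpowers τ
    · rw [h1]; exact (Subgroup.zpowers τ).inv_mem (Subgroup.mem_zpowers τ)
  have hPMconj : ∀ a b, PM a → PM b → a⁻¹ * b * a = b := by
    rintro a b (h1 | h1) (h2 | h2) <;> rw [h1, h2] <;> group
  have hprop : ∀ u, (∃ a, G.Adj u a ∧ PM (T u a)) → ∀ b, G.Adj u b → PM (T u b) := by
    intro u hu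
    refine nbhd_induction G hfree hd h u (fun b => PM (T u b)) hu ?_
    intro a b h1 h2 h3 h4
    rw [hTn u a b h1 h2 h3]
    exact hPMinv _ h4
  have hTx : ∀ b, G.Adj x b → PM (T x b) := hprop x ⟨a0, ha0, Or.inl rfl⟩
  have htx : ∀ b, G.Adj x b → T x b = t x b := by
    intro b _
    change t x b * S b x = t x b
    rw [hSinv x b, hSx, inv_one, mul_one]
  have hTnx : ∀ v, G.Adj x v → ∀ b, G.Adj v b → PM (T v b) := by
    intro v hv
    refine hprop v ⟨x, hv.symm, ?_⟩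
    rw [hTc x v hv, hinv x v hv, htx v hv]
    have := hTx v hv
    rw [htx v hv] at this
    have h1 : (t x v)⁻¹ * (t x v)⁻¹ * t x v = (t x v)⁻¹ := by group
    rw [h1]
    exact hPMinv _ this
  have hTall : ∀ u b, G.Adj u b → PM (T u b) := by
    intro u
    refine hprop u ⟨c x u, (hc2 x u).symm, ?_⟩
    have hw1 := hc1 x u
    have hw2 := hc2 x u
    set w := c x u with hw
    have h1 : t x w * t w u = 1 := hx w u hw1 hw2
    have h2 : t w u = (t x w)⁻¹ := eq_inv_of_mul_eq_one_right h1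
    have h3 : PM (t w u) := by
      rw [h2]; apply hPMinv; rw [← htx w hw1]; exact hTx w hw1
    have h4 : PM (T w u) := hTnx w hw1 u hw2
    rw [hTc w u hw2, hinv w u hw2, hPMconj _ _ h3 (hPMinv _ h4)]
    exact hPMinv _ h4
  -- conjugation by edges preserves the cyclic subgroup
  have hconjτ : ∀ u v, G.Adj u v → PM (t v u * τ * t u v) := by
    intro u v huv
    have h1 := hTc u v huv
    have h2 := hTall u v huv
    have h3 := hTall v u huv.symm
    rcases h2 with h2 | h2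
    · rw [h2] at h1
      have h4 : t v u * τ * t u v = (T v u)⁻¹ := by
        rw [h1, hinv u v huv]; group
      rw [h4]; exact hPMinv _ h3
    · rw [h2, inv_inv] at h1
      rw [← h1]; exact h3
  have hnorm : ∀ u v, G.Adj u v → ∀ γ ∈ Subgroup.zpowers τ,
      t v u * γ * t u v ∈ Subgroup.zpowers τ := by
    intro u v huv γ hγ
    obtain ⟨k, rfl⟩ := hγ
    have h1 : t u v = (t v u)⁻¹ := hinv v u huv.symm
    have h2 : t v u * τ ^ k * t u v = (t v u * τ * t u v) ^ k := by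
      rw [h1, conj_zpow]
    change t v u * τ ^ k * t u v ∈ _
    rw [h2]
    exact (Subgroup.zpowers τ).zpow_mem (hPMmem _ (hconjτ u v huv)) k
  -- closed five walks
  let Q : V → V → V → V → V → Γ := fun a0 a1 a2 a3 a4 =>
    t a0 a1 * t a1 a2 * t a2 a3 * t a3 a4 * t a4 a0
  have hrot : ∀ a0 a1 a2 a3 a4, G.Adj a0 a1 → Q a1 a2 a3 a4 a0 ∈ Subgroup.zpowers τ →
      Q a0 a1 a2 a3 a4 ∈ Subgroup.zpowers τ := by
    intro a0 a1 a2 a3 a4 h1 h2
    have h3 := hnorm a1 a0 h1.symm _ h2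
    have h4 : t a0 a1 * Q a1 a2 a3 a4 a0 * t a1 a0 = Q a0 a1 a2 a3 a4 := by
      change t a0 a1 * (t a1 a2 * t a2 a3 * t a3 a4 * t a4 a0 * t a0 a1) * t a1 a0
        = t a0 a1 * t a1 a2 * t a2 a3 * t a3 a4 * t a4 a0
      rw [hinv a0 a1 h1]; group
    rwa [h4] at h3
  have hbase : ∀ a0 a1 a2 a3 a4 z, G.Adj a0 a1 → G.Adj a1 a2 → G.Adj a2 a3 → G.Adj a3 a4 →
      G.Adj a4 a0 → G.Adj z a0 → G.Adj z a2 → G.Adj z a3 →
      Q a0 a1 a2 a3 a4 ∈ Subgroup.zpowers τ := by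
    intro a0 a1 a2 a3 a4 z h01 h12 h23 h34 h40 z0 z2 z3
    have e1 : t a0 a1 * t a1 a2 = t a0 z * t z a2 := hsub _ _ _ _ h01 h12 z0.symm z2
    have e2 : t a3 a4 * t a4 a0 = t a3 z * t z a0 := hsub _ _ _ _ h34 h40 z3.symm z0
    have e3 : Q a0 a1 a2 a3 a4 = t a0 z * T z a2 * t z a0 := by
      rw [hT z a2 a3 z2 h23 z3.symm]
      calc Q a0 a1 a2 a3 a4 = (t a0 a1 * t a1 a2) * t a2 a3 * (t a3 a4 * t a4 a0) := by
            change t a0 a1 * t a1 a2 * t a2 a3 * t a3 a4 * t a4 a0 = _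
            group
        _ = _ := by rw [e1, e2]; group
    rw [e3]
    exact hnorm z a0 z0 _ (hPMmem _ (hTall z a2 z2))
  refine ⟨τ, fun u v huv => ?_⟩
  -- the closed five walk x, ?, u, ?, b, x
  have hb1 := hc1 v x
  have hb2 := hc2 v x
  set b := c v x with hb
  obtain ⟨a1, a3, h01, h12, h23, h34, z, hz⟩ := five_walk_count G hs2 hfree hd h x u b
  have hQ : Q x a1 u a3 b = t u v := by
    have e1 : t x a1 * t a1 u = 1 := hx a1 u h01 h12
    have e2 : t u a3 * t a3 b = t u v * t v b := hsub _ _ _ _ h23 h34 huv hb1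
    have e3 : t v b * t b x = 1 := by
      rw [hS v b x hb1 hb2, hSinv x v, hSx, inv_one]
    calc Q x a1 u a3 b = (t x a1 * t a1 u) * (t u a3 * t a3 b) * t b x := by
          change t x a1 * t a1 u * t u a3 * t a3 b * t b x = _
          group
      _ = t u v * (t v b * t b x) := by rw [e1, e2]; group
      _ = t u v := by rw [e3, mul_one]
  rw [← hQ]
  rcases hz with hz | hz | hz | hz | hz
  · exact hbase x a1 u a3 b z h01 h12 h23 h34 hb2 hz.1 hz.2.1 hz.2.2
  · exact hrot _ _ _ _ _ h01 (hbase a1 u a3 b x z h12 h23 h34 hb2 h01 hz.1 hz.2.1 hz.2.2)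
  · exact hrot _ _ _ _ _ h01 (hrot _ _ _ _ _ h12
      (hbase u a3 b x a1 z h23 h34 hb2 h01 h12 hz.1 hz.2.1 hz.2.2))
  · exact hrot _ _ _ _ _ h01 (hrot _ _ _ _ _ h12 (hrot _ _ _ _ _ h23
      (hbase a3 b x a1 u z h34 hb2 h01 h12 h23 hz.1 hz.2.1 hz.2.2)))
  · exact hrot _ _ _ _ _ h01 (hrot _ _ _ _ _ h12 (hrot _ _ _ _ _ h23 (hrot _ _ _ _ _ h34
      (hbase b x a1 u a3 z hb2 h01 h12 h23 h34 hz.1 hz.2.1 hz.2.2))))

/-- Upper bound: `K_{s+2}`-free graphs with `(3s+1) δ > 2 s n`, `s ≥ 2`, have cyclic group. -/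
theorem clique_upper {s δ : ℕ} (hs2 : 2 ≤ s) (hfree : G.CliqueFree (s + 2))
    (hd : ∀ v, δ ≤ G.degree v)
    (h : 2 * s * Fintype.card V < (3 * s + 1) * δ) (x : V) : IsCyclic (DFG G x) := by
  classical
  have h2δ : Fintype.card V < 2 * δ := by nlinarith
  have hcn : ∀ u v, ∃ w, G.Adj u w ∧ G.Adj w v := exists_common G hd h2δ
  choose c hc1 hc2 using hcn
  let p : ∀ u, Cls G x u := fun u => (edge (hc1 x u)).comp (edge (hc2 x u))
  have hp : ∀ a u (h1 : G.Adj x a) (h2 : G.Adj a u), p u = (edge h1).comp (edge h2) :=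
    fun a u h1 h2 => edge_sub _ _ _ _
  have hpx : p x = cls Walk.nil := by
    have h1 := hc1 x x
    rw [hp _ _ h1 h1.symm]
    exact edge_back h1 h1.symm
  obtain ⟨τ, hτ⟩ := clique_group_core G (tt p) x (fun u v huv => tt_back p huv)
    (fun a b b' c h1 h2 h3 h4 => tt_sub p h1 h2 h3 h4)
    (by
      intro a u h1 h2
      rw [tt_mul p h1 h2, hpx, nil_comp, ← hp a u h1 h2, comp_inv, one_def'])
    hs2 hfree hd h
  exact isCyclic_of_tt p hpx τ hτ

end Pool.Agent.LibDFG
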