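import Mathlib
import Pool.Agent.LibDFG.Basic

/-!
The threshold for cyclicity for graphs of large order.
-/

namespace Pool.Agent.LibDFG

open SimpleGraph

open Classical in
/-- `CycAboveLarge H α`: for some `n0`, every `H`-free finite graph `G` of order at least `n0` with
`δ(G) > α |G|` has cyclic discrete fundamental group at every vertex. -/
def CycAboveLarge {W : Type} (H : SimpleGraph W) (α : ℝ) : Prop :=
  ∃ n0 : ℕ, ∀ (V : Type) [Fintype V] (G : SimpleGraph V), n0 ≤ Fintype.card V → H.Free G →
    α * (Fintype.card V : ℝ) < (G.minDegree : ℝ) → ∀ v : V, IsCyclic (DFG G v)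

/-- The threshold for graphs of large order. -/
noncomputable def deltaCycLarge {W : Type} (H : SimpleGraph W) : ℝ :=
  sInf {α : ℝ | 0 ≤ α ∧ CycAboveLarge H α}

end Pool.Agent.LibDFG
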