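import Mathlib

/-!
Erdős' theorem on dense `r`-ary relations: a relation on `V^r` of positive density contains a
full box `T_1 × ... × T_r` with `|T_i| = t`.
-/

namespace Pool.Agent.LibDFG

open Finset Function

/-- the number of functions identifying two given points -/
theorem card_eq_at {V : Type} [Fintype V] [DecidableEq V] {t : ℕ} {i j : Fin t} (hij : i ≠ j) :
    (univ.filter fun g : Fin t → V => g i = g j).card * Fintype.card V ≤
      Fintype.card V ^ t := by
  classical
  have h1 : (univ.filter fun g : Fin t → V => g i = g j).card * Fintype.card V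
      = ((univ.filter fun g : Fin t → V => g i = g j) ×ˢ (univ : Finset V)).card := by
    rw [card_product, card_univ]
  have h2 : Fintype.card V ^ t = (univ : Finset (Fin t → V)).card := by
    rw [card_univ, Fintype.card_fun, Fintype.card_fin]
  rw [h1, h2]
  apply card_le_card_of_injOn (fun p => Function.update p.1 j p.2)
  · intro p _; exact mem_coe.mpr (mem_univ _)
  · rintro ⟨g, v⟩ hg ⟨g', v'⟩ hg' he
    simp only [coe_product, Set.mem_prod, mem_coe, mem_filter, mem_univ, true_and,
      and_true] at hg hg'
    simp only at he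
    have hv : v = v' := by
      have := congrFun he j
      simpa using this
    have hg1 : g = g' := by
      funext k
      by_cases hk : k = j
      · subst hk
        have := congrFun he i
        rw [Function.update_of_ne hij, Function.update_of_ne hij] at this
        rw [← hg, ← hg', this]
      · have := congrFun he k
        rwa [Function.update_of_ne hk, Function.update_of_ne hk] at this
    rw [hg1, hv]

theorem card_not_injective {V : Type} [Fintype V] [DecidableEq V] (t : ℕ) :
    (univ.filter fun g : Fin t → V => ¬ Injective g).card * Fintype.card V ≤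
      t ^ 2 * Fintype.card V ^ t := by
  classical
  have hsub : (univ.filter fun g : Fin t → V => ¬ Injective g) ⊆
      (univ.filter fun p : Fin t × Fin t => p.1 ≠ p.2).biUnion
        (fun p => univ.filter fun g : Fin t → V => g p.1 = g p.2) := by
    intro g hg
    simp only [mem_filter, mem_univ, true_and] at hg
    rw [Injective] at hg
    push Not at hg
    obtain ⟨a, b, hab, hne⟩ := hg
    simp only [mem_biUnion, mem_filter, mem_univ, true_and]
    exact ⟨(a, b), hne, hab⟩
  have h1 := (card_le_card hsub).trans card_biUnion_le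
  calc (univ.filter fun g : Fin t → V => ¬ Injective g).card * Fintype.card V
      ≤ (∑ p ∈ univ.filter fun p : Fin t × Fin t => p.1 ≠ p.2,
          (univ.filter fun g : Fin t → V => g p.1 = g p.2).card) * Fintype.card V :=
        Nat.mul_le_mul_right _ h1
    _ = ∑ p ∈ univ.filter fun p : Fin t × Fin t => p.1 ≠ p.2,
          (univ.filter fun g : Fin t → V => g p.1 = g p.2).card * Fintype.card V := by
        rw [sum_mul]
    _ ≤ ∑ p ∈ univ.filter fun p : Fin t × Fin t => p.1 ≠ p.2, Fintype.card V ^ t := by
        apply sum_le_sum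
        intro p hp
        simp only [mem_filter, mem_univ, true_and] at hp
        exact card_eq_at hp
    _ = (univ.filter fun p : Fin t × Fin t => p.1 ≠ p.2).card * Fintype.card V ^ t := by
        rw [sum_const, smul_eq_mul]
    _ ≤ t ^ 2 * Fintype.card V ^ t := by
        apply Nat.mul_le_mul_right
        calc (univ.filter fun p : Fin t × Fin t => p.1 ≠ p.2).card
            ≤ (univ : Finset (Fin t × Fin t)).card := card_filter_le _ _
          _ = t ^ 2 := by rw [card_univ, Fintype.card_prod, Fintype.card_fin]; ring

open Classical in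
/-- one step: many `x` are joined to all `g i` for some injective `g` -/
theorem erdos_step {V X : Type} [Fintype V] [Fintype X] (t : ℕ) (ht : 0 < t)
    (c : ℝ) (hc : 0 < c) (hV : 0 < Fintype.card V) (hX : 0 < Fintype.card X)
    (hn : 2 * (t : ℝ) ^ 2 ≤ c ^ t * (Fintype.card V : ℝ))
    (R : V → X → Prop) (hR : c * (Fintype.card V : ℝ) * (Fintype.card X : ℝ) ≤
      ((univ.filter fun p : V × X => R p.1 p.2).card : ℝ)) :
    ∃ g : Fin t → V, Injective g ∧ c ^ t / 2 * (Fintype.card X : ℝ) ≤
      ((univ.filter fun x : X => ∀ i, R (g i) x).card : ℝ) := by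
  set n : ℝ := (Fintype.card V : ℝ) with hndef
  set m : ℝ := (Fintype.card X : ℝ) with hmdef
  have hn0 : 0 < n := by rw [hndef]; exact_mod_cast hV
  have hm0 : 0 < m := by rw [hmdef]; exact_mod_cast hX
  have hc1 : c ≤ 1 := by
    have h1 : ((univ.filter fun p : V × X => R p.1 p.2).card : ℝ) ≤ n * m := by
      have : (univ.filter fun p : V × X => R p.1 p.2).card ≤ Fintype.card V * Fintype.card X := by
        refine (card_filter_le _ _).trans ?_
        rw [card_univ, Fintype.card_prod]
      rw [hndef, hmdef]; exact_mod_cast this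
    have h2 : c * (n * m) ≤ 1 * (n * m) := by
      rw [one_mul, ← mul_assoc]; exact hR.trans h1
    exact le_of_mul_le_mul_right h2 (mul_pos hn0 hm0)
  have hct : c ^ t ≤ 1 := pow_le_one₀ hc.le hc1
  have hct0 : 0 < c ^ t := pow_pos hc t
  let d : X → ℕ := fun x => (univ.filter fun v : V => R v x).card
  have hd : ((univ.filter fun p : V × X => R p.1 p.2).card : ℝ) = ∑ x : X, (d x : ℝ) := by
    rw [← Nat.cast_sum]
    congr 1
    rw [card_filter, Fintype.sum_prod_type_right]
    apply sum_congr rfl
    intro x _
    exact (card_filter _ _).symm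
  -- power mean
  have hpm : c ^ t * n ^ t * m ≤ ∑ x : X, (d x : ℝ) ^ t := by
    obtain ⟨s, rfl⟩ : ∃ s, t = s + 1 := ⟨t - 1, by omega⟩
    have h1 := pow_sum_div_card_le_sum_pow (s := (univ : Finset X)) (f := fun x => (d x : ℝ))
      (fun x _ => by positivity) s
    refine le_trans ?_ h1
    rw [card_univ, ← hmdef, le_div_iff₀ (pow_pos hm0 s)]
    rw [hd] at hR
    calc c ^ (s + 1) * n ^ (s + 1) * m * m ^ s = (c * n * m) ^ (s + 1) := by ring
      _ ≤ (∑ x : X, (d x : ℝ)) ^ (s + 1) := by
        apply pow_le_pow_left₀ (by positivity) hR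
  -- double counting
  have hdc : ∑ x : X, (d x : ℝ) ^ t
      = ∑ g : Fin t → V, ((univ.filter fun x : X => ∀ i, R (g i) x).card : ℝ) := by
    have e1 : ∀ x : X, (d x) ^ t = (univ.filter fun g : Fin t → V => ∀ i, R (g i) x).card := by
      intro x
      have : (univ.filter fun g : Fin t → V => ∀ i, R (g i) x)
          = Fintype.piFinset fun _ : Fin t => univ.filter fun v : V => R v x := by
        ext g
        simp
      rw [this, Fintype.card_piFinset_const]
    have e2 : ∑ x : X, (d x) ^ t
        = ∑ g : Fin t → V, (univ.filter fun x : X => ∀ i, R (g i) x).card := by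
      simp_rw [e1, card_filter]
      exact sum_comm
    exact_mod_cast e2
  by_contra hcon
  push Not at hcon
  set I := (univ.filter fun g : Fin t → V => Injective g) with hI
  set J := (univ.filter fun g : Fin t → V => ¬ Injective g) with hJ
  have hIJ : (I.card : ℝ) + (J.card : ℝ) = n ^ t := by
    have := card_filter_add_card_filter_not (s := (univ : Finset (Fin t → V)))
      (fun g => Injective g)
    rw [card_univ, Fintype.card_fun, Fintype.card_fin] at this
    rw [hndef]; exact_mod_cast this
  have hJc : (J.card : ℝ) ≤ c ^ t / 2 * n ^ t := by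
    have h1 : (J.card : ℝ) * n ≤ (t : ℝ) ^ 2 * n ^ t := by
      have := card_not_injective (V := V) t
      rw [hndef]; exact_mod_cast this
    have h2 : (t : ℝ) ^ 2 ≤ c ^ t / 2 * n := by linarith
    have h3 : (J.card : ℝ) * n ≤ (c ^ t / 2 * n ^ t) * n := by
      calc (J.card : ℝ) * n ≤ (t : ℝ) ^ 2 * n ^ t := h1
        _ ≤ (c ^ t / 2 * n) * n ^ t := by
            apply mul_le_mul_of_nonneg_right h2 (by positivity)
        _ = _ := by ring
    exact le_of_mul_le_mul_right h3 hn0
  have hIpos : 0 < (I.card : ℝ) := by
    have : (J.card : ℝ) ≤ 1 / 2 * n ^ t := hJc.trans (by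
      apply mul_le_mul_of_nonneg_right _ (by positivity)
      linarith)
    have hnt : 0 < n ^ t := by positivity
    linarith
  have hsplit : ∑ g : Fin t → V, ((univ.filter fun x : X => ∀ i, R (g i) x).card : ℝ)
      = ∑ g ∈ I, ((univ.filter fun x : X => ∀ i, R (g i) x).card : ℝ)
        + ∑ g ∈ J, ((univ.filter fun x : X => ∀ i, R (g i) x).card : ℝ) :=
    (sum_filter_add_sum_filter_not _ _ _).symm
  have hA : ∑ g ∈ I, ((univ.filter fun x : X => ∀ i, R (g i) x).card : ℝ)
      < (I.card : ℝ) * (c ^ t / 2 * m) := by
    have h1 : ∑ g ∈ I, ((univ.filter fun x : X => ∀ i, R (g i) x).card : ℝ)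
        < ∑ g ∈ I, (c ^ t / 2 * m) := by
      apply sum_lt_sum_of_nonempty
      · exact card_pos.mp (by exact_mod_cast hIpos)
      · intro g hg
        exact hcon g (mem_filter.mp hg).2
    rwa [sum_const, nsmul_eq_mul] at h1
  have hB : ∑ g ∈ J, ((univ.filter fun x : X => ∀ i, R (g i) x).card : ℝ)
      ≤ (J.card : ℝ) * m := by
    rw [← nsmul_eq_mul]
    apply sum_le_card_nsmul
    intro g _
    rw [hmdef]
    have : (univ.filter fun x : X => ∀ i, R (g i) x).card ≤ Fintype.card X := by
      refine (card_filter_le _ _).trans ?_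
      rw [card_univ]
    exact_mod_cast this
  have hfin : c ^ t * n ^ t * m < (I.card : ℝ) * (c ^ t / 2 * m) + (J.card : ℝ) * m := by
    calc c ^ t * n ^ t * m ≤ _ := hpm
      _ = _ := hdc
      _ = _ := hsplit
      _ < _ := add_lt_add_of_lt_of_le hA hB
  have h1 : (I.card : ℝ) ≤ n ^ t := by
    have : (0 : ℝ) ≤ (J.card : ℝ) := by positivity
    linarith
  have h2 : (I.card : ℝ) * (c ^ t / 2 * m) ≤ n ^ t * (c ^ t / 2 * m) :=
    mul_le_mul_of_nonneg_right h1 (by positivity)
  have h3 : (J.card : ℝ) * m ≤ (c ^ t / 2 * n ^ t) * m := mul_le_mul_of_nonneg_right hJc hm0.le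
  nlinarith

open Classical in
/-- Erdős: a dense `r`-ary relation contains a box `t × ... × t`. -/
theorem erdos_box (t : ℕ) (ht : 0 < t) (r : ℕ) : ∀ c : ℝ, 0 < c → ∃ n0 : ℕ,
    ∀ (V : Type) [Fintype V], n0 ≤ Fintype.card V → ∀ R : (Fin r → V) → Prop,
      c * (Fintype.card V : ℝ) ^ r ≤ ((univ.filter fun x => R x).card : ℝ) →
      ∃ f : Fin r → Fin t → V, (∀ i, Injective (f i)) ∧ ∀ s : Fin r → Fin t,
        R (fun i => f i (s i)) := by
  induction r with
  | zero =>
    intro c hc
    refine ⟨0, fun V _ _ R hR => ?_⟩
    rw [pow_zero, mul_one] at hR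
    have hpos : 0 < (univ.filter fun x : Fin 0 → V => R x).card := by
      have : (0 : ℝ) < ((univ.filter fun x : Fin 0 → V => R x).card : ℝ) := lt_of_lt_of_le hc hR
      exact_mod_cast this
    obtain ⟨x, hx⟩ := card_pos.mp hpos
    rw [mem_filter] at hx
    refine ⟨fun i => i.elim0, fun i => i.elim0, fun s => ?_⟩
    have : (fun i : Fin 0 => (i.elim0 : Fin t → V) (s i)) = x := by funext i; exact i.elim0
    rw [this]
    exact hx.2
  | succ r ih =>
    intro c hc
    obtain ⟨n1, hn1⟩ := ih (c ^ t / 2) (by positivity)
    obtain ⟨n2, hn2⟩ := exists_nat_ge (2 * (t : ℝ) ^ 2 / c ^ t)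
    refine ⟨max (max n1 n2) 1, fun V _ hV R hR => ?_⟩
    have hV1 : n1 ≤ Fintype.card V := le_trans (le_trans (le_max_left _ _) (le_max_left _ _)) hV
    have hV2 : n2 ≤ Fintype.card V := le_trans (le_trans (le_max_right _ _) (le_max_left _ _)) hV
    have hV3 : 0 < Fintype.card V := lt_of_lt_of_le Nat.one_pos (le_trans (le_max_right _ _) hV)
    have hct0 : 0 < c ^ t := pow_pos hc t
    have hX : Fintype.card (Fin r → V) = Fintype.card V ^ r := by
      rw [Fintype.card_fun, Fintype.card_fin]
    have hcount : (univ.filter fun p : V × (Fin r → V) =>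
        R (Fin.cons p.1 p.2 : Fin (r + 1) → V)).card
        = (univ.filter fun x : Fin (r + 1) → V => R x).card := by
      apply card_bij (fun (p : V × (Fin r → V)) _ => (Fin.cons p.1 p.2 : Fin (r + 1) → V))
      · intro p hp
        simp only [mem_filter, mem_univ, true_and] at hp ⊢
        exact hp
      · rintro ⟨v, x⟩ _ ⟨v', x'⟩ _ h
        simp only at h
        have h1 := congrFun h 0
        have h2 : x = x' := by
          funext i
          have := congrFun h i.succ
          simpa using this
        simp only [Fin.cons_zero] at h1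
        rw [h1, h2]
      · intro x hx
        simp only [mem_filter, mem_univ, true_and] at hx
        refine ⟨(x 0, Fin.tail x), ?_, ?_⟩
        · simp only [mem_filter, mem_univ, true_and, Fin.cons_self_tail]
          exact hx
        · simp only [Fin.cons_self_tail]
    obtain ⟨g, hg, hcnt⟩ := erdos_step (V := V) (X := Fin r → V) t ht c hc hV3
      (by rw [hX]; positivity)
      (by
        have h1 : 2 * (t : ℝ) ^ 2 / c ^ t ≤ (Fintype.card V : ℝ) :=
          hn2.trans (by exact_mod_cast hV2)
        rw [div_le_iff₀ hct0] at h1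
        linarith)
      (fun v x => R (Fin.cons v x : Fin (r + 1) → V))
      (by
        rw [hcount, hX]
        refine le_trans (le_of_eq ?_) hR
        push_cast
        ring)
    rw [hX] at hcnt
    push_cast at hcnt
    obtain ⟨f, hf, hbox⟩ := hn1 V hV1 (fun x => ∀ i, R (Fin.cons (g i) x : Fin (r + 1) → V))
      (le_trans hcnt (le_of_eq (congrArg (fun S : Finset (Fin r → V) => (S.card : ℝ))
        (Finset.ext fun x => by simp))))
    refine ⟨Fin.cons g f, ?_, ?_⟩
    · intro i
      refine Fin.cases ?_ (fun j => ?_) i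
      · simpa using hg
      · simpa using hf j
    · intro s
      have h1 := hbox (fun i => s i.succ) (s 0)
      convert h1 using 1
      funext i
      refine Fin.cases ?_ (fun j => ?_) i
      · simp
      · simp

end Pool.Agent.LibDFG
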