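import Mathlib
import Pool.Agent.LibDFG.Erdos

/-!
Random samples of vertices, by counting.
-/

namespace Pool.Agent.LibDFG

open Finset Function

section variance
variable {V : Type} [Fintype V]

theorem sum_cons {A : Type} [AddCommMonoid A] (m : ℕ) (F : (Fin (m + 1) → V) → A) :
    ∑ f : Fin (m + 1) → V, F f = ∑ v : V, ∑ g : Fin m → V, F (Fin.cons v g) := by
  rw [← Fintype.sum_prod_type']
  exact (Fintype.sum_equiv (Fin.consEquiv (fun _ : Fin (m + 1) => V)) _ _ (fun x => rfl)).symm

theorem sum_mean (Y : V → ℝ) (hY : ∑ v, Y v = 0) (m : ℕ) :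
    ∑ f : Fin m → V, ∑ i, Y (f i) = 0 := by
  induction m with
  | zero => simp
  | succ m ih =>
    rw [sum_cons]
    simp only [Fin.sum_univ_succ, Fin.cons_zero, Fin.cons_succ, sum_add_distrib, sum_const,
      card_univ, nsmul_eq_mul, ih, add_zero]
    rw [← mul_sum, hY, mul_zero]

theorem sum_variance (Y : V → ℝ) (hY : ∑ v, Y v = 0) (hY1 : ∀ v, Y v ^ 2 ≤ 1) (m : ℕ) :
    ∑ f : Fin m → V, (∑ i, Y (f i)) ^ 2 ≤ m * (Fintype.card V : ℝ) ^ m := by
  induction m with
  | zero => simp
  | succ m ih =>
    rw [sum_cons]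
    have e : ∀ v : V, ∑ g : Fin m → V, (∑ i, Y ((Fin.cons v g : Fin (m + 1) → V) i)) ^ 2
        = (Fintype.card V : ℝ) ^ m * Y v ^ 2 + 2 * Y v * (∑ g : Fin m → V, ∑ i, Y (g i)) +
          ∑ g : Fin m → V, (∑ i, Y (g i)) ^ 2 := by
      intro v
      have e1 : ∀ g : Fin m → V, (∑ i, Y ((Fin.cons v g : Fin (m + 1) → V) i)) ^ 2
          = Y v ^ 2 + 2 * Y v * (∑ i, Y (g i)) + (∑ i, Y (g i)) ^ 2 := by
        intro g
        rw [Fin.sum_univ_succ]
        simp only [Fin.cons_zero, Fin.cons_succ]
        ring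
      simp only [e1, sum_add_distrib, ← mul_sum, sum_const, card_univ, Fintype.card_fun,
        Fintype.card_fin, nsmul_eq_mul]
      push_cast
      ring
    simp only [e, sum_mean Y hY m, mul_zero, add_zero, sum_add_distrib, ← mul_sum, sum_const,
      card_univ, nsmul_eq_mul]
    have h1 : ∑ v, Y v ^ 2 ≤ (Fintype.card V : ℝ) := by
      calc ∑ v, Y v ^ 2 ≤ ∑ v : V, (1 : ℝ) := sum_le_sum fun v _ => hY1 v
        _ = _ := by simp
    have h0 : (0 : ℝ) ≤ (Fintype.card V : ℝ) ^ m := by positivity
    have h2 := mul_le_mul_of_nonneg_left h1 h0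
    have h3 := mul_le_mul_of_nonneg_left ih (show (0 : ℝ) ≤ (Fintype.card V : ℝ) by positivity)
    push_cast
    calc (Fintype.card V : ℝ) ^ m * ∑ v, Y v ^ 2 + (Fintype.card V : ℝ) *
          ∑ g : Fin m → V, (∑ i, Y (g i)) ^ 2
        ≤ (Fintype.card V : ℝ) ^ m * (Fintype.card V : ℝ) +
          (Fintype.card V : ℝ) * (m * (Fintype.card V : ℝ) ^ m) := add_le_add h2 h3
      _ = _ := by ring

open Classical in
/-- few samples hit a set `A` much less often than expected -/
theorem chebyshev (m : ℕ) (hm : 0 < m) (A : Finset V) (hn : 0 < Fintype.card V) (u t : ℝ)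
    (hu : 0 < u) (ht : t ≤ m * ((A.card : ℝ) / Fintype.card V) - u * m) :
    ((univ.filter fun f : Fin m → V =>
      ((univ.filter fun i => f i ∈ A).card : ℝ) < t).card : ℝ) * (u ^ 2 * m) ≤
      (Fintype.card V : ℝ) ^ m := by
  set n : ℝ := (Fintype.card V : ℝ) with hndef
  have hn0 : 0 < n := by rw [hndef]; exact_mod_cast hn
  have hm0 : (0 : ℝ) < m := by exact_mod_cast hm
  set p : ℝ := (A.card : ℝ) / n with hp
  have hp0 : 0 ≤ p := by positivity
  have hp1 : p ≤ 1 := by
    rw [hp, div_le_one hn0, hndef]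
    exact_mod_cast card_le_univ A
  let Y : V → ℝ := fun v => (if v ∈ A then 1 else 0) - p
  have hY : ∑ v, Y v = 0 := by
    simp only [Y, sum_sub_distrib, sum_const, card_univ, nsmul_eq_mul]
    rw [← hndef, hp]
    have : ∑ v : V, (if v ∈ A then (1 : ℝ) else 0) = A.card := by simp
    rw [this]
    field_simp
    ring
  have hY1 : ∀ v, Y v ^ 2 ≤ 1 := by
    intro v
    simp only [Y]
    split_ifs <;> nlinarith
  have hvar := sum_variance Y hY hY1 m
  have hX : ∀ f : Fin m → V, ∑ i, Y (f i) = ((univ.filter fun i => f i ∈ A).card : ℝ) - m * p := by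
    intro f
    simp only [Y, sum_sub_distrib, sum_const, card_univ, nsmul_eq_mul, Fintype.card_fin]
    congr 1
    simp
  set F := univ.filter fun f : Fin m → V => ((univ.filter fun i => f i ∈ A).card : ℝ) < t with hF
  have h1 : (F.card : ℝ) * (u * m) ^ 2 ≤ ∑ f : Fin m → V, (∑ i, Y (f i)) ^ 2 := by
    calc (F.card : ℝ) * (u * m) ^ 2 = ∑ f ∈ F, (u * m) ^ 2 := by
          rw [sum_const, nsmul_eq_mul]
      _ ≤ ∑ f ∈ F, (∑ i, Y (f i)) ^ 2 := by
          apply sum_le_sum
          intro f hf
          have h2 := (mem_filter.mp hf).2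
          rw [hX]
          have h3 : u * m < m * p - ((univ.filter fun i => f i ∈ A).card : ℝ) := by linarith
          have h4 : 0 < u * m := by positivity
          nlinarith
      _ ≤ ∑ f : Fin m → V, (∑ i, Y (f i)) ^ 2 :=
          sum_le_sum_of_subset_of_nonneg (subset_univ _) (fun _ _ _ => sq_nonneg _)
  have h2 : (F.card : ℝ) * (u ^ 2 * m) * m ≤ n ^ m * m := by
    calc (F.card : ℝ) * (u ^ 2 * m) * m = (F.card : ℝ) * (u * m) ^ 2 := by ring
      _ ≤ _ := h1
      _ ≤ m * n ^ m := hvar
      _ = _ := by ring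
  exact le_of_mul_le_mul_right h2 hm0

end variance

open Classical in
/-- the number of samples with a bad entry at `i` -/
theorem bad_index {V : Type} [Fintype V] (m : ℕ) (hn : 0 < Fintype.card V) (N : V → Finset V)
    (t C : ℝ) (hC : ∀ v, ((univ.filter fun f : Fin m → V =>
      ((univ.filter fun j => f j ∈ N v).card : ℝ) < t + 1).card : ℝ) ≤ C) (i : Fin m) :
    ((univ.filter fun f : Fin m → V =>
      ((univ.filter fun j => f j ∈ N (f i)).card : ℝ) < t).card : ℝ) ≤ C := by
  have hn0 : (0 : ℝ) < (Fintype.card V : ℝ) := by exact_mod_cast hn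
  set F := univ.filter fun f : Fin m → V =>
      ((univ.filter fun j => f j ∈ N (f i)).card : ℝ) < t with hF
  let E : Finset (V × (Fin m → V)) := univ.filter fun x =>
    ((univ.filter fun j => x.2 j ∈ N x.1).card : ℝ) < t + 1
  have h1 : F.card * Fintype.card V ≤ E.card := by
    rw [← card_univ, ← card_product]
    apply card_le_card_of_injOn (fun x => (x.1 i, Function.update x.1 i x.2))
    · rintro ⟨f, w⟩ hf
      simp only [coe_product, Set.mem_prod, mem_coe, mem_univ, and_true] at hf
      have h2 := (mem_filter.mp hf).2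
      refine mem_coe.mpr (mem_filter.mpr ⟨mem_univ _, ?_⟩)
      simp only
      have h3 : (univ.filter fun j => Function.update f i w j ∈ N (f i)) ⊆
          insert i (univ.filter fun j => f j ∈ N (f i)) := by
        intro j hj
        rw [mem_filter] at hj
        by_cases hji : j = i
        · rw [hji]; exact mem_insert_self _ _
        · rw [Function.update_of_ne hji] at hj
          exact mem_insert_of_mem (mem_filter.mpr hj)
      have h4 := (card_le_card h3).trans (card_insert_le _ _)
      have h5 : ((univ.filter fun j => Function.update f i w j ∈ N (f i)).card : ℝ) ≤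
          ((univ.filter fun j => f j ∈ N (f i)).card : ℝ) + 1 := by exact_mod_cast h4
      linarith
    · rintro ⟨f, w⟩ hf ⟨f', w'⟩ hf' he
      simp only [Prod.mk.injEq] at he
      obtain ⟨he1, he2⟩ := he
      have hw : w = w' := by
        have := congrFun he2 i
        simpa using this
      have hf1 : f = f' := by
        funext j
        by_cases hji : j = i
        · rw [hji]; exact he1
        · have := congrFun he2 j
          rwa [Function.update_of_ne hji, Function.update_of_ne hji] at this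
      rw [hf1, hw]
  have h2 : (E.card : ℝ) = ∑ v : V, ((univ.filter fun f : Fin m → V =>
      ((univ.filter fun j => f j ∈ N v).card : ℝ) < t + 1).card : ℝ) := by
    rw [← Nat.cast_sum]
    congr 1
    simp only [E]
    rw [card_filter, Fintype.sum_prod_type]
    apply sum_congr rfl
    intro v _
    rw [card_filter]
  have h3 : (F.card : ℝ) * (Fintype.card V : ℝ) ≤ C * (Fintype.card V : ℝ) := by
    calc (F.card : ℝ) * (Fintype.card V : ℝ) ≤ (E.card : ℝ) := by exact_mod_cast h1
      _ = _ := h2
      _ ≤ ∑ v : V, C := sum_le_sum fun v _ => hC v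
      _ = _ := by rw [sum_const, card_univ, nsmul_eq_mul]; ring
  exact le_of_mul_le_mul_right h3 hn0

end Pool.Agent.LibDFG
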