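import Mathlib
import Pool.Agent.LibDFG.Sample

/-!
A good sample of vertices of a graph without large complete multipartite subgraphs.
-/

namespace Pool.Agent.LibDFG

open Finset Function SimpleGraph

open Classical in
theorem markov {Ω ι : Type} [Fintype Ω] [Fintype ι] (P : Ω → ι → Prop) (C b : ℝ)
    (hC : ∀ i, ((univ.filter fun f : Ω => P f i).card : ℝ) ≤ C) :
    ((univ.filter fun f : Ω => b < ((univ.filter fun i => P f i).card : ℝ)).card : ℝ) * b ≤
      (Fintype.card ι : ℝ) * C := by
  set F := univ.filter fun f : Ω => b < ((univ.filter fun i => P f i).card : ℝ) with hF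
  calc (F.card : ℝ) * b = ∑ f ∈ F, b := by rw [sum_const, nsmul_eq_mul]
    _ ≤ ∑ f ∈ F, ((univ.filter fun i => P f i).card : ℝ) :=
        sum_le_sum fun f hf => (mem_filter.mp hf).2.le
    _ ≤ ∑ f : Ω, ((univ.filter fun i => P f i).card : ℝ) :=
        sum_le_sum_of_subset_of_nonneg (subset_univ _) (fun _ _ _ => by positivity)
    _ = ∑ i : ι, ((univ.filter fun f : Ω => P f i).card : ℝ) := by
        have : ∑ f : Ω, (univ.filter fun i => P f i).card
            = ∑ i : ι, (univ.filter fun f : Ω => P f i).card := by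
          simp_rw [card_filter]
          exact sum_comm
        exact_mod_cast this
    _ ≤ ∑ i : ι, C := sum_le_sum fun i _ => hC i
    _ = _ := by rw [sum_const, card_univ, nsmul_eq_mul]

open Classical in
theorem exists_sample (r T : ℕ) (hT : 0 < T) (α ε β : ℝ) (hε : 0 < ε) (hβ : 0 < β) :
    ∃ n0 : ℕ, ∀ (V : Type) [Fintype V], n0 ≤ Fintype.card V → ∀ G : SimpleGraph V,
      (∀ v, α * (Fintype.card V : ℝ) ≤ (G.degree v : ℝ)) →
      (¬ ∃ F : Fin r → Fin T → V, (∀ a, Injective (F a)) ∧
        ∀ a b x y, a ≠ b → G.Adj (F a x) (F b y)) →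
      ∃ m : ℕ, 0 < m ∧ ∃ f : Fin m → V, Injective f ∧
        (∀ ι : Fin r → Fin m, ¬ ∀ a b, a ≠ b → G.Adj (f (ι a)) (f (ι b))) ∧
        ((univ.filter fun v => ((univ.filter fun j => G.Adj v (f j)).card : ℝ) <
          (α - ε) * m).card : ℝ) ≤ β * (Fintype.card V : ℝ) ∧
        ((univ.filter fun i => ((univ.filter fun j => G.Adj (f i) (f j)).card : ℝ) <
          (α - ε) * m).card : ℝ) ≤ β * m := by
  obtain ⟨m, hm⟩ := exists_nat_ge (max (2 / ε) (max (32 / (ε ^ 2 * β)) 1))
  have hm1 : 2 / ε ≤ m := (le_max_left _ _).trans hm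
  have hm2 : 32 / (ε ^ 2 * β) ≤ m := ((le_max_left _ _).trans (le_max_right _ _)).trans hm
  have hm3 : (1 : ℝ) ≤ m := ((le_max_right _ _).trans (le_max_right _ _)).trans hm
  have hm0 : 0 < m := by
    have : (0 : ℝ) < m := by linarith
    exact_mod_cast this
  have hm0r : (0 : ℝ) < m := by exact_mod_cast hm0
  set c : ℝ := 1 / (8 * (m : ℝ) ^ r) with hc
  have hcpos : 0 < c := by positivity
  obtain ⟨n1, hn1⟩ := erdos_box T hT m c hcpos
  refine ⟨max n1 (8 * m ^ 2), fun V _ hV G hdeg hbox => ⟨m, hm0, ?_⟩⟩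
  have hV1 : n1 ≤ Fintype.card V := (le_max_left _ _).trans hV
  have hV2 : 8 * m ^ 2 ≤ Fintype.card V := (le_max_right _ _).trans hV
  have hn : 0 < Fintype.card V := lt_of_lt_of_le (by positivity) hV2
  set n : ℝ := (Fintype.card V : ℝ) with hndef
  have hn0 : 0 < n := by rw [hndef]; exact_mod_cast hn
  have hn8 : 8 * (m : ℝ) ^ 2 ≤ n := by rw [hndef]; exact_mod_cast hV2
  have hnm : 0 < n ^ m := by positivity
  -- the clique relations
  have hrel : ∀ ι : Fin r → Fin m, ((univ.filter fun f : Fin m → V =>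
      ∀ a b, a ≠ b → G.Adj (f (ι a)) (f (ι b))).card : ℝ) < c * n ^ m := by
    intro ι
    by_contra hcon
    push Not at hcon
    obtain ⟨F, hF, hsel⟩ := hn1 V hV1 (fun f => ∀ a b, a ≠ b → G.Adj (f (ι a)) (f (ι b)))
      (le_trans hcon (le_of_eq (congrArg (fun S : Finset (Fin m → V) => (S.card : ℝ))
        (Finset.ext fun x => by simp only [mem_filter, mem_univ, true_and]))))
    apply hbox
    have hι : ∀ a b, a ≠ b → ι a ≠ ι b := by
      intro a b hab he
      have := hsel (fun _ => ⟨0, hT⟩) a b hab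
      rw [he] at this
      exact G.irrefl this
    refine ⟨fun a => F (ι a), fun a => hF (ι a), ?_⟩
    intro a b x y hab
    have h1 := hsel (fun i => if i = ι a then x else y) a b hab
    simp only [if_true, if_neg (hι a b hab).symm] at h1
    exact h1
  -- concentration
  set C : ℝ := n ^ m / ((ε / 2) ^ 2 * m) with hC
  have hcheb : ∀ v, ((univ.filter fun f : Fin m → V =>
      ((univ.filter fun j => f j ∈ G.neighborFinset v).card : ℝ) < (α - ε) * m + 1).card : ℝ)
        ≤ C := by
    intro v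
    rw [hC, le_div_iff₀ (by positivity)]
    apply chebyshev m hm0 (G.neighborFinset v) hn (ε / 2) _ (by positivity)
    have h1 : α ≤ ((G.neighborFinset v).card : ℝ) / n := by
      rw [le_div_iff₀ hn0, card_neighborFinset_eq_degree]
      exact hdeg v
    have h2 : 1 ≤ ε / 2 * m := by
      rw [div_le_iff₀ hε] at hm1
      linarith
    have h3 : m * α ≤ m * (((G.neighborFinset v).card : ℝ) / n) :=
      mul_le_mul_of_nonneg_left h1 hm0r.le
    rw [← hndef]
    linarith
  have hcheb' : ∀ v, ((univ.filter fun f : Fin m → V =>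
      ((univ.filter fun j => G.Adj v (f j)).card : ℝ) < (α - ε) * m).card : ℝ) ≤ C := by
    intro v
    refine le_trans ?_ (hcheb v)
    have : (univ.filter fun f : Fin m → V =>
      ((univ.filter fun j => G.Adj v (f j)).card : ℝ) < (α - ε) * m) ⊆
        (univ.filter fun f : Fin m → V =>
      ((univ.filter fun j => f j ∈ G.neighborFinset v).card : ℝ) < (α - ε) * m + 1) := by
      intro f hf
      rw [mem_filter] at hf ⊢
      refine ⟨mem_univ _, ?_⟩
      simp only [mem_neighborFinset]
      linarith [hf.2]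
    exact_mod_cast card_le_card this
  have hidx : ∀ i : Fin m, ((univ.filter fun f : Fin m → V =>
      ((univ.filter fun j => G.Adj (f i) (f j)).card : ℝ) < (α - ε) * m).card : ℝ) ≤ C := by
    intro i
    have := bad_index m hn (fun v => G.neighborFinset v) ((α - ε) * m) C hcheb i
    simpa only [mem_neighborFinset] using this
  -- the bad samples
  have hCb : C ≤ β * (n ^ m / 8) := by
    rw [hC, div_le_iff₀ (by positivity)]
    have h1 : 32 ≤ (ε ^ 2 * β) * m := by
      rw [div_le_iff₀ (by positivity)] at hm2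
      linarith
    have h2 : 1 ≤ β * ((ε / 2) ^ 2 * m) / 8 := by
      have : β * ((ε / 2) ^ 2 * m) / 8 = (ε ^ 2 * β * m) / 32 := by ring
      rw [this]; linarith
    calc n ^ m = n ^ m * 1 := (mul_one _).symm
      _ ≤ n ^ m * (β * ((ε / 2) ^ 2 * m) / 8) := mul_le_mul_of_nonneg_left h2 hnm.le
      _ = _ := by ring
  set F1 := univ.filter fun f : Fin m → V => ¬ Injective f with hF1
  set F2 := (univ : Finset (Fin r → Fin m)).biUnion fun ι => univ.filter fun f : Fin m → V =>
      ∀ a b, a ≠ b → G.Adj (f (ι a)) (f (ι b)) with hF2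
  set F3 := univ.filter fun f : Fin m → V => β * n <
    ((univ.filter fun v => ((univ.filter fun j => G.Adj v (f j)).card : ℝ) <
      (α - ε) * m).card : ℝ) with hF3
  set F4 := univ.filter fun f : Fin m → V => β * m <
    ((univ.filter fun i => ((univ.filter fun j => G.Adj (f i) (f j)).card : ℝ) <
      (α - ε) * m).card : ℝ) with hF4
  have b1 : (F1.card : ℝ) ≤ n ^ m / 8 := by
    have h1 : (F1.card : ℝ) * n ≤ (m : ℝ) ^ 2 * n ^ m := by
      rw [hndef]; exact_mod_cast card_not_injective (V := V) m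
    have h2 : (F1.card : ℝ) * n ≤ (n ^ m / 8) * n := by
      refine h1.trans ?_
      have := mul_le_mul_of_nonneg_right hn8 hnm.le
      linarith
    exact le_of_mul_le_mul_right h2 hn0
  have b2 : (F2.card : ℝ) ≤ n ^ m / 8 := by
    calc (F2.card : ℝ) ≤ ∑ ι : Fin r → Fin m, ((univ.filter fun f : Fin m → V =>
          ∀ a b, a ≠ b → G.Adj (f (ι a)) (f (ι b))).card : ℝ) := by
          exact_mod_cast card_biUnion_le
      _ ≤ ∑ ι : Fin r → Fin m, c * n ^ m := sum_le_sum fun ι _ => (hrel ι).le
      _ = n ^ m / 8 := by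
          rw [sum_const, card_univ, Fintype.card_fun, Fintype.card_fin, Fintype.card_fin,
            nsmul_eq_mul, hc]
          push_cast
          field_simp
  have b3 : (F3.card : ℝ) ≤ n ^ m / 8 := by
    have h1 := markov (Ω := Fin m → V) (ι := V)
      (fun f v => ((univ.filter fun j => G.Adj v (f j)).card : ℝ) < (α - ε) * m) C (β * n)
      hcheb'
    rw [← hndef] at h1
    have h2 : (F3.card : ℝ) * (β * n) ≤ (n ^ m / 8) * (β * n) := by
      refine h1.trans ?_
      have := mul_le_mul_of_nonneg_left hCb hn0.le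
      linarith
    exact le_of_mul_le_mul_right h2 (by positivity)
  have b4 : (F4.card : ℝ) ≤ n ^ m / 8 := by
    have h1 := markov (Ω := Fin m → V) (ι := Fin m)
      (fun f i => ((univ.filter fun j => G.Adj (f i) (f j)).card : ℝ) < (α - ε) * m) C (β * m)
      hidx
    rw [Fintype.card_fin] at h1
    have h2 : (F4.card : ℝ) * (β * m) ≤ (n ^ m / 8) * (β * m) := by
      refine h1.trans ?_
      have := mul_le_mul_of_nonneg_left hCb hm0r.le
      linarith
    exact le_of_mul_le_mul_right h2 (by positivity)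
  -- a good sample
  obtain ⟨f, hf⟩ : ∃ f : Fin m → V, f ∉ ((F1 ∪ F2) ∪ F3) ∪ F4 := by
    by_contra hcon
    push Not at hcon
    have h1 : ((F1 ∪ F2) ∪ F3) ∪ F4 = univ := eq_univ_of_forall hcon
    have h2 : Fintype.card (Fin m → V) ≤ F1.card + F2.card + F3.card + F4.card := by
      rw [← card_univ, ← h1]
      refine (card_union_le _ _).trans (Nat.add_le_add_right ?_ _)
      refine (card_union_le _ _).trans (Nat.add_le_add_right ?_ _)
      exact card_union_le _ _
    rw [Fintype.card_fun, Fintype.card_fin] at h2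
    have h3 : n ^ m ≤ (F1.card : ℝ) + F2.card + F3.card + F4.card := by
      rw [hndef]; exact_mod_cast h2
    linarith
  simp only [mem_union, not_or] at hf
  obtain ⟨⟨⟨f1, f2⟩, f3⟩, f4⟩ := hf
  refine ⟨f, ?_, ?_, ?_, ?_⟩
  · by_contra hcon
    exact f1 (mem_filter.mpr ⟨mem_univ _, hcon⟩)
  · intro ι hcon
    exact f2 (mem_biUnion.mpr ⟨ι, mem_univ _, mem_filter.mpr ⟨mem_univ _, hcon⟩⟩)
  · by_contra hcon
    push Not at hcon
    exact f3 (mem_filter.mpr ⟨mem_univ _, hcon⟩)
  · by_contra hcon
    push Not at hcon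
    exact f4 (mem_filter.mpr ⟨mem_univ _, hcon⟩)

end Pool.Agent.LibDFG
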