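import Mathlib
import Pool.Agent.LibDFG.Select
import Pool.Agent.LibDFG.Large
import Pool.Agent.LibDFG.Base
import Pool.Agent.LibDFG.CliqueGroup

/-!
Upper bound for the threshold of an arbitrary graph, for graphs of large order.
-/

namespace Pool.Agent.LibDFG

open Finset Function SimpleGraph

section push
variable {V : Type} {G : SimpleGraph V} (S V' : Set V)

/-- pushing a walk with end points in `S` into `S`, with an intermediate set `V'` -/
theorem push_walk2 (hSV : S ⊆ V') (hV : ∀ u v, ∃ z ∈ V', G.Adj u z ∧ G.Adj z v)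
    (hS : ∀ a ∈ S, ∀ b ∈ V', ∃ z ∈ S, G.Adj a z ∧ G.Adj z b)
    (n : ℕ) : ∀ (a b : V) (ha : a ∈ S) (hb : b ∈ S) (w : G.Walk a b), w.length = n →
      ∃ w' : (G.induce S).Walk ⟨a, ha⟩ ⟨b, hb⟩,
        Homotopic (w'.map (Embedding.induce (G := G) S).toHom) w := by
  induction n using Nat.strong_induction_on with
  | _ n ih =>
    intro a b ha hb w hw
    cases w with
    | nil => exact ⟨Walk.nil, Homotopic.refl _⟩
    | @cons _ y _ h1 p =>
      cases p with
      | nil =>
        refine ⟨Walk.cons (show (G.induce S).Adj ⟨a, ha⟩ ⟨b, hb⟩ from h1) Walk.nil, ?_⟩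
        exact Homotopic.refl _
      | @cons _ c _ h2 q =>
        cases q with
        | nil =>
          obtain ⟨z, hz, hz1, hz2⟩ := hS a ha b (hSV hb)
          refine ⟨Walk.cons (show (G.induce S).Adj ⟨a, ha⟩ ⟨z, hz⟩ from hz1)
            (Walk.cons (show (G.induce S).Adj ⟨z, hz⟩ ⟨b, hb⟩ from hz2) Walk.nil), ?_⟩
          exact Relation.ReflTransGen.single
            (Move.sub (Walk.nil : G.Walk a a) hz1 hz2 h1 h2 Walk.nil)
        | @cons _ d _ h3 q =>
          obtain ⟨c', hc', hc1, hc2⟩ := hV y d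
          obtain ⟨z, hz, hz1, hz2⟩ := hS a ha c' hc'
          obtain ⟨w', hw'⟩ := ih (q.length + 2) (by
            rw [← hw]; simp only [Walk.length_cons]; omega) z b hz hb
            (Walk.cons hz2 (Walk.cons hc2 q)) (by simp only [Walk.length_cons])
          refine ⟨Walk.cons (show (G.induce S).Adj ⟨a, ha⟩ ⟨z, hz⟩ from hz1) w', ?_⟩
          have e1 : Homotopic (Walk.cons h1 (Walk.cons hc1 (Walk.cons hc2 q)))
              (Walk.cons h1 (Walk.cons h2 (Walk.cons h3 q))) :=
            Relation.ReflTransGen.single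
              (Move.sub (Walk.cons h1 Walk.nil : G.Walk a y) hc1 hc2 h2 h3 q)
          have e2 : Homotopic (Walk.cons hz1 (Walk.cons hz2 (Walk.cons hc2 q)))
              (Walk.cons h1 (Walk.cons hc1 (Walk.cons hc2 q))) :=
            Relation.ReflTransGen.single
              (Move.sub (Walk.nil : G.Walk a a) hz1 hz2 h1 hc1 (Walk.cons hc2 q))
          have e3 : Homotopic ((Walk.cons hz1 Walk.nil : G.Walk a z).append
              (w'.map (Embedding.induce (G := G) S).toHom)) ((Walk.cons hz1 Walk.nil).append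
              (Walk.cons hz2 (Walk.cons hc2 q))) := Homotopic.append (Homotopic.refl _) hw'
          exact (e3.trans e2).trans e1

theorem isCyclic_of_push2 (hSV : S ⊆ V') (hV : ∀ u v, ∃ z ∈ V', G.Adj u z ∧ G.Adj z v)
    (hS : ∀ a ∈ S, ∀ b ∈ V', ∃ z ∈ S, G.Adj a z ∧ G.Adj z b) (a : V) (ha : a ∈ S)
    (h : IsCyclic (DFG (G.induce S) ⟨a, ha⟩)) (x : V) : IsCyclic (DFG G x) := by
  have h1 : IsCyclic (DFG G a) := by
    refine isCyclic_of_lift (Embedding.induce (G := G) S).toHom ⟨a, ha⟩ h ?_
    intro w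
    exact push_walk2 S V' hSV hV hS _ a a ha ha w rfl
  obtain ⟨z, _, hz1, hz2⟩ := hV x a
  exact isCyclic_of_adj hz1 (isCyclic_of_adj hz2 h1)

end push

open Classical in
theorem all_upper {W : Type} [Fintype W] (H : SimpleGraph W) (s : ℕ) (hs : 2 ≤ s)
    (hH : H.Colorable (s + 2)) (α : ℝ) (hα : 2 * (s : ℝ) / (3 * (s : ℝ) + 1) < α) :
    CycAboveLarge H α := by
  set a0 : ℝ := 2 * (s : ℝ) / (3 * (s : ℝ) + 1) with ha0
  have hs' : (2 : ℝ) ≤ s := by exact_mod_cast hs
  have hden : (0 : ℝ) < 3 * (s : ℝ) + 1 := by positivity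
  have ha47 : 4 / 7 ≤ a0 := by
    rw [ha0, le_div_iff₀ hden]; linarith
  set e : ℝ := α - a0 with he
  have he0 : 0 < e := by linarith
  set β : ℝ := min (1 / 8) (e / 4) with hβ
  have hβ0 : 0 < β := by rw [hβ]; positivity
  have hβ1 : β ≤ 1 / 8 := min_le_left _ _
  have hβ2 : β ≤ e / 4 := min_le_right _ _
  obtain ⟨n0, hn0⟩ := exists_sample (s + 2) (Fintype.card W + 1) (by omega) α (e / 4) β
    (by positivity) hβ0
  refine ⟨n0, fun V _ G hV hfree hlt x => ?_⟩
  set n : ℝ := (Fintype.card V : ℝ) with hndef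
  have hnpos : 0 < Fintype.card V := Fintype.card_pos_iff.mpr ⟨x⟩
  have hnr : 0 < n := by rw [hndef]; exact_mod_cast hnpos
  have hdeg : ∀ v, α * n ≤ (G.degree v : ℝ) := fun v =>
    hlt.le.trans (by exact_mod_cast G.minDegree_le_degree v)
  -- no large complete multipartite subgraph
  have hbox : ¬ ∃ F : Fin (s + 2) → Fin (Fintype.card W + 1) → V, (∀ a, Injective (F a)) ∧
      ∀ a b x y, a ≠ b → G.Adj (F a x) (F b y) := by
    rintro ⟨F, hF, hadj⟩
    obtain ⟨c⟩ := hH
    let ew : W ↪ Fin (Fintype.card W + 1) :=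
      (Fintype.equivFin W).toEmbedding.trans Fin.castSuccEmb
    apply hfree
    refine ⟨⟨⟨fun w => F (c w) (ew w), ?_⟩, ?_⟩⟩
    · intro u v huv
      exact hadj _ _ _ _ (c.valid huv)
    · intro u v huv
      change F (c u) (ew u) = F (c v) (ew v) at huv
      by_cases hc : c u = c v
      · rw [hc] at huv
        exact ew.injective (hF _ huv)
      · exact absurd huv (hadj _ _ _ _ hc).ne
  obtain ⟨m, hm, f, hinj, hcl, hbad, hidx⟩ := hn0 V hV G hdeg hbox
  have hmr : (0 : ℝ) < m := by exact_mod_cast hm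
  set t : ℝ := (α - e / 4) * m with ht
  let B : Finset V := univ.filter fun v => ((univ.filter fun j => G.Adj v (f j)).card : ℝ) < t
  let I : Finset (Fin m) := univ.filter fun i =>
    ¬ ((univ.filter fun j => G.Adj (f i) (f j)).card : ℝ) < t
  have hI : (1 - β) * m ≤ (I.card : ℝ) := by
    have h1 := card_filter_add_card_filter_not (s := (univ : Finset (Fin m)))
      (fun i => ((univ.filter fun j => G.Adj (f i) (f j)).card : ℝ) < t)
    rw [card_univ, Fintype.card_fin] at h1
    have h2 : ((univ.filter fun i => ((univ.filter fun j => G.Adj (f i) (f j)).card : ℝ) <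
      t).card : ℝ) + (I.card : ℝ) = m := by exact_mod_cast h1
    linarith
  have hIm : (I.card : ℝ) ≤ m := by
    have := card_le_univ I
    rw [Fintype.card_fin] at this
    exact_mod_cast this
  have hI0 : (0 : ℝ) < (I.card : ℝ) := by
    refine lt_of_lt_of_le ?_ hI
    apply mul_pos _ hmr
    linarith
  let S : Finset V := I.image f
  have hScard : S.card = I.card := card_image_of_injective _ hinj
  -- good vertices have many neighbours in `S`
  have hgood : ∀ v, v ∉ B → (α - e / 2) * (S.card : ℝ) ≤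
      ((S.filter fun z => G.Adj v z).card : ℝ) := by
    intro v hv
    have h1 : t ≤ ((univ.filter fun j => G.Adj v (f j)).card : ℝ) := by
      by_contra hcon
      push Not at hcon
      exact hv (mem_filter.mpr ⟨mem_univ _, hcon⟩)
    have h2 : (univ.filter fun j => G.Adj v (f j)).card ≤
        (I.filter fun j => G.Adj v (f j)).card + (univ \ I).card := by
      have hsub : (univ.filter fun j => G.Adj v (f j)) ⊆
          (I.filter fun j => G.Adj v (f j)) ∪ (univ \ I) := by
        intro j hj
        by_cases hjI : j ∈ I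
        · exact mem_union_left _ (mem_filter.mpr ⟨hjI, (mem_filter.mp hj).2⟩)
        · exact mem_union_right _ (mem_sdiff.mpr ⟨mem_univ _, hjI⟩)
      exact (card_le_card hsub).trans (card_union_le _ _)
    have h3 : ((univ \ I).card : ℝ) ≤ β * m := by
      have h4 := card_sdiff_add_card_eq_card (subset_univ I)
      rw [card_univ, Fintype.card_fin] at h4
      have h5 : ((univ \ I).card : ℝ) + (I.card : ℝ) = m := by exact_mod_cast h4
      linarith
    have h4 : (I.filter fun j => G.Adj v (f j)).card ≤ (S.filter fun z => G.Adj v z).card := by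
      rw [← card_image_of_injective _ hinj]
      apply card_le_card
      intro z hz
      obtain ⟨j, hj, rfl⟩ := mem_image.mp hz
      obtain ⟨hj1, hj2⟩ := mem_filter.mp hj
      exact mem_filter.mpr ⟨mem_image_of_mem _ hj1, hj2⟩
    have h5 : ((univ.filter fun j => G.Adj v (f j)).card : ℝ) ≤
        ((S.filter fun z => G.Adj v z).card : ℝ) + ((univ \ I).card : ℝ) := by
      exact_mod_cast h2.trans (Nat.add_le_add_right h4 _)
    have h6 : (α - e / 2) * (S.card : ℝ) ≤ (α - e / 2) * m := by
      rw [hScard]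
      apply mul_le_mul_of_nonneg_left hIm
      linarith
    have h7 : β * m ≤ e / 4 * m := mul_le_mul_of_nonneg_right hβ2 hmr.le
    rw [ht] at h1
    linarith
  have hSB : ∀ v ∈ S, v ∉ B := by
    intro v hv
    obtain ⟨i, hi, rfl⟩ := mem_image.mp hv
    intro hB
    exact (mem_filter.mp hi).2 (mem_filter.mp hB).2
  have hS0 : (0 : ℝ) < (S.card : ℝ) := by rw [hScard]; exact hI0
  have hSne : S.Nonempty := card_pos.mp (by exact_mod_cast hS0)
  -- the hypotheses of the pushing lemma
  have hV' : ∀ u v, ∃ z ∈ ({z | z ∉ B} : Set V), G.Adj u z ∧ G.Adj z v := by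
    intro u v
    have h1 := card_union_add_card_inter (G.neighborFinset u) (G.neighborFinset v)
    have h2 : (G.neighborFinset u ∪ G.neighborFinset v).card ≤ Fintype.card V := card_le_univ _
    rw [card_neighborFinset_eq_degree, card_neighborFinset_eq_degree] at h1
    have h3 : (G.degree u : ℝ) + (G.degree v : ℝ) ≤
        n + ((G.neighborFinset u ∩ G.neighborFinset v).card : ℝ) := by
      rw [hndef]; exact_mod_cast (by omega : G.degree u + G.degree v ≤ Fintype.card V +
        (G.neighborFinset u ∩ G.neighborFinset v).card)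
    have h4 := hdeg u
    have h5 := hdeg v
    have h6 : (B.card : ℝ) < ((G.neighborFinset u ∩ G.neighborFinset v).card : ℝ) := by
      have h7 : (B.card : ℝ) ≤ 1 / 8 * n := hbad.trans (mul_le_mul_of_nonneg_right hβ1 hnr.le)
      have h8 : 4 / 7 * n < α * n := mul_lt_mul_of_pos_right (by linarith) hnr
      linarith
    have h7 : 0 < ((G.neighborFinset u ∩ G.neighborFinset v) \ B).card := by
      have h8 := le_card_sdiff B (G.neighborFinset u ∩ G.neighborFinset v)
      have h9 : B.card < (G.neighborFinset u ∩ G.neighborFinset v).card := by exact_mod_cast h6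
      omega
    obtain ⟨z, hz⟩ := card_pos.mp h7
    rw [mem_sdiff, mem_inter, mem_neighborFinset, mem_neighborFinset] at hz
    exact ⟨z, hz.2, hz.1.1, hz.1.2.symm⟩
  have hS' : ∀ a ∈ (S : Set V), ∀ b ∈ ({z | z ∉ B} : Set V),
      ∃ z ∈ (S : Set V), G.Adj a z ∧ G.Adj z b := by
    intro a ha b hb
    have g1 := hgood a (hSB a (mem_coe.mp ha))
    have g2 := hgood b hb
    have h1 := card_union_add_card_inter (S.filter fun z => G.Adj a z) (S.filter fun z => G.Adj b z)
    have h2 : ((S.filter fun z => G.Adj a z) ∪ (S.filter fun z => G.Adj b z)).card ≤ S.card :=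
      card_le_card (union_subset (filter_subset _ _) (filter_subset _ _))
    have h3 : ((S.filter fun z => G.Adj a z).card : ℝ) + ((S.filter fun z => G.Adj b z).card : ℝ) ≤
        (S.card : ℝ) +
          (((S.filter fun z => G.Adj a z) ∩ (S.filter fun z => G.Adj b z)).card : ℝ) := by
      exact_mod_cast (by omega : (S.filter fun z => G.Adj a z).card +
        (S.filter fun z => G.Adj b z).card ≤ S.card +
          ((S.filter fun z => G.Adj a z) ∩ (S.filter fun z => G.Adj b z)).card)
    have h4 : 4 / 7 * (S.card : ℝ) < (α - e / 2) * (S.card : ℝ) :=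
      mul_lt_mul_of_pos_right (by linarith) hS0
    have h5 : (0 : ℝ) <
        (((S.filter fun z => G.Adj a z) ∩ (S.filter fun z => G.Adj b z)).card : ℝ) := by
      linarith
    obtain ⟨z, hz⟩ := card_pos.mp (by exact_mod_cast h5 : 0 <
      ((S.filter fun z => G.Adj a z) ∩ (S.filter fun z => G.Adj b z)).card)
    rw [mem_inter, mem_filter, mem_filter] at hz
    exact ⟨z, mem_coe.mpr hz.1.1, hz.1.2, hz.2.2.symm⟩
  obtain ⟨a, haS⟩ := hSne
  refine isCyclic_of_push2 (S : Set V) {z | z ∉ B} (fun v hv => hSB v (mem_coe.mp hv)) hV' hS' a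
    (mem_coe.mpr haS) ?_ x
  -- the sampled graph
  have hfree' : (G.induce (S : Set V)).CliqueFree (s + 2) := by
    by_contra hcon
    rw [not_cliqueFree_iff_top_isContained] at hcon
    obtain ⟨φ⟩ := hcon
    have h1 : ∀ c : Fin (s + 2), ∃ i : Fin m, f i = (φ c : V) := by
      intro c
      obtain ⟨i, _, hi⟩ := mem_image.mp (mem_coe.mp (φ c).2)
      exact ⟨i, hi⟩
    choose ι hι using h1
    refine hcl ι ?_
    intro c d hcd
    rw [hι, hι]
    exact φ.toHom.map_adj ((top_adj c d).mpr hcd)
  have hcardS : Fintype.card (S : Set V) = S.card := by simp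
  have hdegS : ∀ v : (S : Set V), 2 * s * S.card < (3 * s + 1) *
      (G.induce (S : Set V)).degree v := by
    rintro ⟨v, hv⟩
    have h1 : (S.filter fun z => G.Adj v z).card ≤ (G.induce (S : Set V)).degree ⟨v, hv⟩ := by
      rw [← card_neighborFinset_eq_degree,
        ← card_map (Embedding.subtype fun z => z ∈ (S : Set V))]
      apply card_le_card
      intro z hz
      obtain ⟨hz1, hz2⟩ := mem_filter.mp hz
      refine mem_map.mpr ⟨⟨z, mem_coe.mpr hz1⟩, ?_, rfl⟩
      rw [mem_neighborFinset]
      exact hz2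
    have g1 := hgood v (hSB v (mem_coe.mp hv))
    have h2 : a0 * (S.card : ℝ) < (α - e / 2) * (S.card : ℝ) :=
      mul_lt_mul_of_pos_right (by linarith) hS0
    have h3 : a0 * (S.card : ℝ) < ((G.induce (S : Set V)).degree ⟨v, hv⟩ : ℝ) :=
      lt_of_lt_of_le h2 (g1.trans (by exact_mod_cast h1))
    rw [ha0, div_mul_eq_mul_div, div_lt_iff₀ hden] at h3
    have h4 : ((2 * s * S.card : ℕ) : ℝ) <
        (((3 * s + 1) * (G.induce (S : Set V)).degree ⟨v, hv⟩ : ℕ) : ℝ) := by
      push_cast
      linarith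
    exact_mod_cast h4
  have : Nonempty (S : Set V) := ⟨⟨a, mem_coe.mpr haS⟩⟩
  obtain ⟨v0, hv0⟩ := (G.induce (S : Set V)).exists_minimal_degree_vertex
  refine clique_upper (G.induce (S : Set V)) hs hfree'
    (fun v => (G.induce (S : Set V)).minDegree_le_degree v) ?_ _
  rw [hcardS, hv0]
  exact hdegS v0

end Pool.Agent.LibDFG
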