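import Mathlib
import Pool.Agent.LibDFG.AllUpper
import Pool.Agent.LibDFG.AllLower

/-!
The threshold, for graphs of large order, of every graph of chromatic number at least four and of
most graphs of chromatic number three.
-/

namespace Pool.Agent.LibDFG

open Finset Function SimpleGraph

open Classical in
/-- a three-colourable graph is contained in every large graph with minimum degree above `n / 2` -/
theorem three_upper {W : Type} [Fintype W] (H : SimpleGraph W) (hH : H.Colorable 3) (α : ℝ)
    (hα : 1 / 2 < α) : CycAboveLarge H α := by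
  set e : ℝ := α - 1 / 2 with he
  have he0 : 0 < e := by linarith
  obtain ⟨n0, hn0⟩ := exists_sample 3 (Fintype.card W + 1) (by omega) α (e / 2) (1 / 4)
    (by positivity) (by norm_num)
  refine ⟨n0, fun V _ G hV hfree hlt x => ?_⟩
  exfalso
  have hnpos : 0 < Fintype.card V := Fintype.card_pos_iff.mpr ⟨x⟩
  have hdeg : ∀ v, α * (Fintype.card V : ℝ) ≤ (G.degree v : ℝ) := fun v =>
    hlt.le.trans (by exact_mod_cast G.minDegree_le_degree v)
  have hbox : ¬ ∃ F : Fin 3 → Fin (Fintype.card W + 1) → V, (∀ a, Injective (F a)) ∧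
      ∀ a b x y, a ≠ b → G.Adj (F a x) (F b y) := by
    rintro ⟨F, hF, hadj⟩
    obtain ⟨c⟩ := hH
    let ew : W ↪ Fin (Fintype.card W + 1) :=
      (Fintype.equivFin W).toEmbedding.trans Fin.castSuccEmb
    apply hfree
    refine ⟨⟨⟨fun w => F (c w) (ew w), ?_⟩, ?_⟩⟩
    · intro u v huv
      exact hadj _ _ _ _ (c.valid huv)
    · intro u v huv
      change F (c u) (ew u) = F (c v) (ew v) at huv
      by_cases hc : c u = c v
      · rw [hc] at huv
        exact ew.injective (hF _ huv)
      · exact absurd huv (hadj _ _ _ _ hc).ne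
  obtain ⟨m, hm, f, hinj, hcl, _, hidx⟩ := hn0 V hV G hdeg hbox
  have hmr : (0 : ℝ) < m := by exact_mod_cast hm
  set t : ℝ := (α - e / 2) * m with ht
  have ht2 : 1 / 2 * m < t := mul_lt_mul_of_pos_right (by linarith) hmr
  let B : Finset (Fin m) := univ.filter fun i =>
    ((univ.filter fun j => G.Adj (f i) (f j)).card : ℝ) < t
  let A : Fin m → Finset (Fin m) := fun i => univ.filter fun j => G.Adj (f i) (f j)
  have hB : (B.card : ℝ) ≤ 1 / 4 * m := hidx
  have hgood : ∀ i, i ∉ B → t ≤ ((A i).card : ℝ) := by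
    intro i hi
    by_contra hcon
    push Not at hcon
    exact hi (mem_filter.mpr ⟨mem_univ _, hcon⟩)
  obtain ⟨i, hi⟩ : ∃ i, i ∉ B := by
    by_contra hcon
    push Not at hcon
    have h1 : B = univ := eq_univ_of_forall hcon
    rw [h1, card_univ, Fintype.card_fin] at hB
    linarith
  have gi := hgood i hi
  obtain ⟨j, hj⟩ : (A i \ B).Nonempty := by
    rw [← card_pos]
    have h1 := le_card_sdiff B (A i)
    have h2 : B.card < (A i).card := by
      have : (B.card : ℝ) < ((A i).card : ℝ) := by linarith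
      exact_mod_cast this
    omega
  obtain ⟨hj1, hj2⟩ := mem_sdiff.mp hj
  have gj := hgood j hj2
  obtain ⟨k, hk⟩ : (A i ∩ A j).Nonempty := by
    rw [← card_pos]
    have h1 := card_union_add_card_inter (A i) (A j)
    have h2 : (A i ∪ A j).card ≤ m := by
      have := card_le_univ (A i ∪ A j)
      rwa [Fintype.card_fin] at this
    have h3 : (m : ℝ) < ((A i).card : ℝ) + ((A j).card : ℝ) := by linarith
    have h4 : m < (A i).card + (A j).card := by exact_mod_cast h3
    omega
  obtain ⟨hk1, hk2⟩ := mem_inter.mp hk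
  have a1 : G.Adj (f i) (f j) := (mem_filter.mp hj1).2
  have a2 : G.Adj (f i) (f k) := (mem_filter.mp hk1).2
  have a3 : G.Adj (f j) (f k) := (mem_filter.mp hk2).2
  refine hcl ![i, j, k] ?_
  intro a b hab
  fin_cases a <;> fin_cases b
  · exact absurd rfl hab
  · exact a1
  · exact a2
  · exact a1.symm
  · exact absurd rfl hab
  · exact a3
  · exact a2.symm
  · exact a3.symm
  · exact absurd rfl hab

open Classical in
/-- For `χ(H) = r ≥ 4`, and for `χ(H) = 3` if `H` is contained in no complete bipartite graph with two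
disjoint edges added to one side, the threshold for graphs of large order is
`(2 r - 4) / (3 r - 5)`. -/
theorem all_graphs {W : Type} [Fintype W] (H : SimpleGraph W) (r : ℕ)
    (hr : H.chromaticNumber = r) (h : 4 ≤ r ∨ (r = 3 ∧ ∀ m, H.Free (twoEdges m))) :
    deltaCycLarge H = (2 * (r : ℝ) - 4) / (3 * (r : ℝ) - 5) := by
  have hr3 : 3 ≤ r := by
    rcases h with h | h
    · omega
    · omega
  have hcol : H.Colorable r := by
    rw [← chromaticNumber_le_iff_colorable, hr]
  have hupper : ∀ α, (2 * (r : ℝ) - 4) / (3 * (r : ℝ) - 5) < α → CycAboveLarge H α := by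
    intro α hα
    rcases Nat.lt_or_ge r 4 with h4 | h4
    · have : r = 3 := by omega
      subst this
      apply three_upper H hcol
      norm_num at hα
      exact hα
    · obtain ⟨s, rfl⟩ : ∃ s, r = s + 2 := ⟨r - 2, by omega⟩
      apply all_upper H s (by omega) hcol
      have e : (2 * ((s + 2 : ℕ) : ℝ) - 4) / (3 * ((s + 2 : ℕ) : ℝ) - 5)
          = (2 * (s : ℝ)) / (3 * (s : ℝ) + 1) := by
        push_cast; congr 1 <;> ring
      rwa [e] at hα
  have hr3' : (3 : ℝ) ≤ r := by exact_mod_cast hr3
  have hval0 : 0 ≤ (2 * (r : ℝ) - 4) / (3 * (r : ℝ) - 5) :=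
    div_nonneg (by linarith) (by linarith)
  have hlow : ∀ α ∈ {α : ℝ | 0 ≤ α ∧ CycAboveLarge H α},
      (2 * (r : ℝ) - 4) / (3 * (r : ℝ) - 5) ≤ α := by
    rintro α ⟨hα0, n0, hα⟩
    by_contra hlt
    push Not at hlt
    rcases Nat.lt_or_ge r 4 with h4 | h4
    · have hr' : r = 3 := by omega
      have hfree : ∀ m, H.Free (twoEdges m) := by
        rcases h with h | h
        · omega
        · exact h.2
      subst hr'
      refine twoEdges_not_cyclic n0 (hα _ (twoEdges n0) ?_ (hfree n0) ?_ _)
      · simp; omega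
      · have h1 : n0 + 4 ≤ (twoEdges n0).minDegree :=
          le_minDegree_of_forall_le_degree _ _ (fun v => twoEdges_degree n0 v)
        have h2 : Fintype.card (Bool × Fin (n0 + 4)) = 2 * (n0 + 4) := by simp
        have h3 : ((n0 : ℝ) + 4) ≤ ((twoEdges n0).minDegree : ℝ) := by exact_mod_cast h1
        rw [h2]
        norm_num at hlt
        push_cast
        refine lt_of_lt_of_le ?_ h3
        have : (0 : ℝ) < (n0 : ℝ) + 4 := by positivity
        nlinarith
    · obtain ⟨s, rfl⟩ : ∃ s, r = s + 2 := ⟨r - 2, by omega⟩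
      have hs : 2 ≤ s := by omega
      have hpos : (0 : ℝ) < 3 * (s : ℝ) + 1 := by positivity
      have e : (2 * ((s + 2 : ℕ) : ℝ) - 4) / (3 * ((s + 2 : ℕ) : ℝ) - 5)
          = (2 * (s : ℝ)) / (3 * (s : ℝ) + 1) := by
        push_cast; congr 1 <;> ring
      rw [e] at hlt
      have hN : 0 < n0 + 1 := by omega
      have hcard : Fintype.card ((Fin (s + 1) ⊕ (Bool × Fin s)) × Fin (n0 + 1))
          = (3 * s + 1) * (n0 + 1) := by
        simp only [Fintype.card_prod, Fintype.card_sum, Fintype.card_fin, Fintype.card_bool]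
        ring
      refine blow_not_cyclic (exG s) (n0 + 1) hN (.inl 0) (exG_not_cyclic s hs)
        (hα _ (blow (exG s) (n0 + 1)) ?_ ?_ ?_ _)
      · rw [hcard]; nlinarith
      · rintro ⟨φ⟩
        have h1 : H.Colorable (s + 1) :=
          (blow_colorable (exG s) (n0 + 1) (exG_colorable s)).of_hom φ.toHom
        have h2 := h1.chromaticNumber_le
        rw [hr] at h2
        have h3 : s + 2 ≤ s + 1 := by exact_mod_cast h2
        omega
      · have h1 : (n0 + 1) * (2 * s) ≤ (blow (exG s) (n0 + 1)).minDegree :=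
          le_minDegree_of_forall_le_degree _ _ (fun v => blow_degree (exG s) (n0 + 1)
            (fun w => by convert exG_degree s (by omega) w) v)
        rw [hcard]
        have h3 : (((n0 : ℝ) + 1) * (2 * (s : ℝ))) ≤
            ((blow (exG s) (n0 + 1)).minDegree : ℝ) := by exact_mod_cast h1
        rw [lt_div_iff₀ hpos] at hlt
        push_cast
        refine lt_of_lt_of_le ?_ h3
        have : (0 : ℝ) < (n0 : ℝ) + 1 := by positivity
        nlinarith
  apply le_antisymm
  · apply le_of_forall_gt_imp_ge_of_dense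
    intro α hα
    exact csInf_le ⟨0, fun α hα => hα.1⟩ ⟨hval0.trans hα.le, hupper α hα⟩
  · refine le_csInf ⟨(2 * (r : ℝ) - 4) / (3 * (r : ℝ) - 5) + 1, ?_, hupper _ ?_⟩ hlow
    · linarith
    · linarith

end Pool.Agent.LibDFG
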