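import Mathlib
import Pool.Agent.LibDFG.TriangleLower

/-!
A bipartite graph of order `10 N` with minimum degree `3 N` whose discrete fundamental group is
not cyclic.
-/

namespace Pool.Agent.LibDFG

open SimpleGraph Finset

/-- adjacency of the classes `0, 1` (one large class) and `2, 3, 4` -/
def bRel (c d : Fin 5) : Prop := (c < 2 ∧ 2 ≤ d) ∨ (2 ≤ c ∧ d < 2) ∨ (2 ≤ c ∧ c = d)

instance (c d : Fin 5) : Decidable (bRel c d) := by unfold bRel; infer_instance

theorem bRel_symm : ∀ c d : Fin 5, bRel c d → bRel d c := by decide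

/-- vertices: side, class, index -/
abbrev BV (N : ℕ) := Bool × Fin 5 × Fin N

/-- the bipartite graph -/
def bG (N : ℕ) : SimpleGraph (BV N) where
  Adj u v := u.1 ≠ v.1 ∧ bRel u.2.1 v.2.1
  symm := ⟨fun u v h => ⟨h.1.symm, bRel_symm _ _ h.2⟩⟩
  loopless := ⟨fun u h => h.1 rfl⟩

theorem bG_adj (N : ℕ) (u v : BV N) : (bG N).Adj u v ↔ u.1 ≠ v.1 ∧ bRel u.2.1 v.2.1 := Iff.rfl

theorem bV_card (N : ℕ) : Fintype.card (BV N) = 10 * N := by
  simp; ring

theorem bRel_card : ∀ c : Fin 5, (univ.filter fun d => bRel c d).card = 3 := by decide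

open Classical in
theorem bG_degree (N : ℕ) (v : BV N) : 3 * N ≤ (bG N).degree v := by
  have hsub : ({!v.1} : Finset Bool) ×ˢ ((univ.filter fun d => bRel v.2.1 d) ×ˢ
      (univ : Finset (Fin N))) ⊆ (bG N).neighborFinset v := by
    intro w hw
    simp only [mem_product, mem_singleton, mem_filter, mem_univ, true_and, and_true] at hw
    rw [mem_neighborFinset, bG_adj]
    refine ⟨?_, hw.2⟩
    rw [hw.1]
    cases v.1 <;> simp
  have h1 := card_le_card hsub
  rw [card_product, card_product, bRel_card, card_singleton, card_univ, Fintype.card_fin,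
    card_neighborFinset_eq_degree] at h1
  omega

/-- the reference weights of the classes -/
def bg (c : Fin 5) : Multiplicative (ZMod 2 × ZMod 2) :=
  if c = 2 then gw true else if c = 3 then gw false else 1

/-- weight of an edge between classes -/
def bw (c d : Fin 5) : Multiplicative (ZMod 2 × ZMod 2) := if c = d then bg c else 1

/-- weight of two-step walks between classes -/
def bf (c d : Fin 5) : Multiplicative (ZMod 2 × ZMod 2) :=
  if c < 2 then (if d < 2 then 1 else bg d) else (if d < 2 then bg c else 1)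

theorem bw_two : ∀ a b c : Fin 5, bRel a b → bRel b c → bw a b * bw b c = bf a c := by decide

theorem bw_back : ∀ a b : Fin 5, bRel a b → bw a b * bw b a = 1 := by decide

theorem bW_voltage (N : ℕ) : IsVoltage (bG N) (fun u v => bw u.2.1 v.2.1) where
  back := fun u v h => bw_back _ _ h.2
  sub := fun a b b' c h1 h2 h3 h4 =>
    (bw_two _ _ _ h1.2 h2.2).trans (bw_two _ _ _ h3.2 h4.2).symm

theorem bG_not_cyclic (N : ℕ) (hN : 1 ≤ N) :
    ¬ IsCyclic (DFG (bG N) ((false, 0, ⟨0, hN⟩) : BV N)) := by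
  have i0 : Fin N := ⟨0, hN⟩
  let e : ∀ (s : Bool) (c : Fin 5), BV N := fun s c => (s, c, ⟨0, hN⟩)
  have adj : ∀ (s : Bool) (c d : Fin 5), bRel c d → (bG N).Adj (e s c) (e (!s) d) := by
    intro s c d h
    exact ⟨by cases s <;> simp [e], h⟩
  have r1 : ∀ k : Fin 5, 2 ≤ k → bRel 0 k := by decide
  have r2 : ∀ k : Fin 5, 2 ≤ k → bRel k k := by decide
  have r3 : ∀ k : Fin 5, 2 ≤ k → bRel k 0 := by decide
  let loop : ∀ k : Fin 5, 2 ≤ k → (bG N).Walk (e false 0) (e false 0) := fun k hk =>
    Walk.cons (adj false 0 k (r1 k hk)) (Walk.cons (adj true k k (r2 k hk))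
      (Walk.cons (adj false k 0 (r3 k hk)) (Walk.cons (adj true 0 4 (r1 4 (by decide)))
        (Walk.cons (adj false 4 4 (r2 4 (by decide))) (Walk.cons (adj true 4 0 (r3 4 (by decide)))
          Walk.nil)))))
  have hw : ∀ (k : Fin 5) (hk : 2 ≤ k),
      wt (fun u v : BV N => bw u.2.1 v.2.1) (loop k hk) = bg k := by
    intro k hk
    change bw 0 k * (bw k k * (bw k 0 * (bw 0 4 * (bw 4 4 * (bw 4 0 * 1))))) = bg k
    revert k; decide
  refine not_cyclic_of_gw (bW_voltage N) (e false 0) (fun b => match b with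
    | true => loop 2 (by decide)
    | false => loop 3 (by decide)) ?_
  intro b
  cases b
  · exact (hw 3 (by decide)).trans rfl
  · exact (hw 2 (by decide)).trans rfl

end Pool.Agent.LibDFG
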