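import Mathlib
import Pool.Agent.LibDFG.Tools
import Pool.Agent.LibDFG.Base

/-!
Bipartite graphs with minimum degree larger than `3 n / 10` have cyclic discrete fundamental
group.
-/

namespace Pool.Agent.LibDFG

open SimpleGraph Finset

variable {V : Type} [DecidableEq V]

/-- two subsets of `X` of size at least `δ` with `2 δ > |X|` meet -/
theorem inter_nonempty_of_card {X A B : Finset V} {δ : ℕ} (hA : A ⊆ X) (hB : B ⊆ X)
    (h1 : δ ≤ A.card) (h2 : δ ≤ B.card) (h : X.card < 2 * δ) : (A ∩ B).Nonempty := by
  rw [← Finset.card_pos]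
  have h3 := Finset.card_union_add_card_inter A B
  have h4 := Finset.card_le_card (Finset.union_subset hA hB)
  omega

/-- counting (b): a large set cannot miss two pairwise intersections -/
theorem miss_two {X A0 A1 A2 B : Finset V} {δ : ℕ} (h0 : A0 ⊆ X) (h1 : A1 ⊆ X)
    (h2 : A2 ⊆ X) (hB : B ⊆ X) (d0 : δ ≤ A0.card) (d1 : δ ≤ A1.card) (d2 : δ ≤ A2.card)
    (dB : δ ≤ B.card) (hX : 3 * X.card < 5 * δ) (ht : A0 ∩ A1 ∩ A2 = ∅)
    (hm1 : B ∩ (A0 ∩ A1) = ∅) (hm2 : B ∩ (A0 ∩ A2) = ∅) : False := by
  have e1 := Finset.card_union_add_card_inter A0 A1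
  have e2 := Finset.card_union_add_card_inter A0 A2
  have u1 := Finset.card_le_card (Finset.union_subset h0 h1)
  have u2 := Finset.card_le_card (Finset.union_subset h0 h2)
  have dis : Disjoint (A0 ∩ A1) (A0 ∩ A2) := by
    rw [Finset.disjoint_left]
    intro x hx hx'
    have : x ∈ A0 ∩ A1 ∩ A2 := by
      simp only [mem_inter] at hx hx' ⊢
      exact ⟨hx, hx'.2⟩
    rw [ht] at this
    exact absurd this (Finset.notMem_empty x)
  have dis2 : Disjoint B ((A0 ∩ A1) ∪ (A0 ∩ A2)) := by
    rw [Finset.disjoint_iff_inter_eq_empty, Finset.inter_union_distrib_left, hm1, hm2,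
      Finset.union_empty]
  have hle : (B ∪ ((A0 ∩ A1) ∪ (A0 ∩ A2))).card ≤ X.card := by
    apply Finset.card_le_card
    refine Finset.union_subset hB (Finset.union_subset ?_ ?_)
    · exact (Finset.inter_subset_left).trans h0
    · exact (Finset.inter_subset_left).trans h0
  rw [Finset.card_union_of_disjoint dis2, Finset.card_union_of_disjoint dis] at hle
  omega

/-- counting (c): the intersection of two large sets meets one of the three sets -/
theorem meet_one {X A0 A1 A2 B C : Finset V} {δ : ℕ} (h0 : A0 ⊆ X) (h1 : A1 ⊆ X)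
    (h2 : A2 ⊆ X) (hB : B ⊆ X) (hC : C ⊆ X) (d0 : δ ≤ A0.card) (d1 : δ ≤ A1.card)
    (d2 : δ ≤ A2.card) (dB : δ ≤ B.card) (dC : δ ≤ C.card) (hX : 4 * X.card < 7 * δ)
    (ht : A0 ∩ A1 ∩ A2 = ∅) :
    (B ∩ C ∩ A0).Nonempty ∨ (B ∩ C ∩ A1).Nonempty ∨ (B ∩ C ∩ A2).Nonempty := by
  by_contra hcon
  push Not at hcon
  obtain ⟨n0, n1, n2⟩ := hcon
  have e1 := Finset.card_union_add_card_inter A0 A1
  have e2 := Finset.card_union_add_card_inter (A0 ∪ A1) A2
  have e3 := Finset.card_union_add_card_inter B C
  have u3 := Finset.card_le_card (Finset.union_subset hB hC)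
  -- the double intersections inject into the union
  have e4 : (A0 ∩ A1).card + ((A0 ∪ A1) ∩ A2).card ≤ ((A0 ∪ A1) ∪ A2).card := by
    rw [← Finset.card_union_of_disjoint]
    · apply Finset.card_le_card
      intro x hx
      simp only [mem_union, mem_inter] at hx ⊢
      tauto
    · rw [Finset.disjoint_left]
      intro x hx hx'
      have : x ∈ A0 ∩ A1 ∩ A2 := by
        simp only [mem_inter, mem_union] at hx hx' ⊢
        exact ⟨hx, hx'.2⟩
      rw [ht] at this
      exact absurd this (Finset.notMem_empty x)
  have dis : Disjoint (B ∩ C) ((A0 ∪ A1) ∪ A2) := by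
    rw [Finset.disjoint_iff_inter_eq_empty, Finset.inter_union_distrib_left,
      Finset.inter_union_distrib_left, n0, n1, n2]
    simp
  have hle : ((B ∩ C) ∪ ((A0 ∪ A1) ∪ A2)).card ≤ X.card := by
    apply Finset.card_le_card
    refine Finset.union_subset ((Finset.inter_subset_left).trans hB)
      (Finset.union_subset (Finset.union_subset h0 h1) h2)
  rw [Finset.card_union_of_disjoint dis] at hle
  omega

variable [Fintype V] (G : SimpleGraph V) [DecidableRel G.Adj]

/-- Group theoretic core in the bipartite case. -/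
theorem bip_group_core {Γ : Type} [Group Γ] (t : V → V → Γ) (x : V)
    (hback : ∀ u v, G.Adj u v → t u v * t v u = 1)
    (hsub : ∀ a b b' c, G.Adj a b → G.Adj b c → G.Adj a b' → G.Adj b' c →
      t a b * t b c = t a b' * t b' c)
    (hx : ∀ a u, G.Adj x a → G.Adj a u → t x a * t a u = 1)
    (f : V → Bool) (hf : ∀ u v, G.Adj u v → f u ≠ f v) (hfx : f x = true)
    (hc : ∀ v, f v = false → ∃ w, G.Adj v w ∧ t v w = 1)
    {δ : ℕ} (hd : ∀ v, δ ≤ G.degree v)
    (hX : 2 * (univ.filter fun v => f v = false).card ≤ Fintype.card V)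
    (h : 3 * Fintype.card V < 10 * δ) :
    ∃ τ : Γ, ∀ u v, G.Adj u v → t u v ∈ Subgroup.zpowers τ := by
  classical
  set X := univ.filter fun v => f v = false with hXdef
  have hN : ∀ y, f y = true → G.neighborFinset y ⊆ X := by
    intro y hy w hw
    rw [mem_neighborFinset] at hw
    have := hf y w hw
    rw [hy] at this
    simp only [hXdef, mem_filter, mem_univ, true_and]
    cases hh : f w
    · rfl
    · exact absurd hh.symm this
  have hdN : ∀ y, δ ≤ (G.neighborFinset y).card := by
    intro y; rw [card_neighborFinset_eq_degree]; exact hd y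
  have hinv : ∀ u v, G.Adj u v → t v u = (t u v)⁻¹ := fun u v huv =>
    eq_inv_of_mul_eq_one_right (hback u v huv)
  -- common neighbours
  have hcn : ∀ y y', f y = true → f y' = true → ∃ w, G.Adj y w ∧ G.Adj w y' := by
    intro y y' hy hy'
    obtain ⟨w, hw⟩ := inter_nonempty_of_card (hN y hy) (hN y' hy') (hdN y) (hdN y') (by omega)
    simp only [mem_inter, mem_neighborFinset] at hw
    exact ⟨w, hw.1, hw.2.symm⟩
  let L : V → V → Γ := fun y y' => if h : ∃ w, G.Adj y w ∧ G.Adj w y' then
    t y h.choose * t h.choose y' else 1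
  have hL : ∀ y w y', G.Adj y w → G.Adj w y' → t y w * t w y' = L y y' := by
    intro y w y' h1 h2
    have hex : ∃ w, G.Adj y w ∧ G.Adj w y' := ⟨w, h1, h2⟩
    change _ = if h : ∃ w, G.Adj y w ∧ G.Adj w y' then t y h.choose * t h.choose y' else 1
    rw [dif_pos hex]
    exact hsub _ _ _ _ h1 h2 hex.choose_spec.1 hex.choose_spec.2
  have hLmul : ∀ y y' y'' w, G.Adj y w → G.Adj y' w → G.Adj y'' w →
      L y y' * L y' y'' = L y y'' := by
    intro y y' y'' w h1 h2 h3
    rw [← hL y w y' h1 h2.symm, ← hL y' w y'' h2 h3.symm, ← hL y w y'' h1 h3.symm,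
      hinv _ _ h2]
    group
  have hLx : ∀ y, f y = true → L x y = 1 := by
    intro y hy
    obtain ⟨w, h1, h2⟩ := hcn x y hfx hy
    rw [← hL x w y h1 h2]
    exact hx w y h1 h2
  have hLinv : ∀ y y', f y = true → f y' = true → L y' y = (L y y')⁻¹ := by
    intro y y' hy hy'
    obtain ⟨w, h1, h2⟩ := hcn y y' hy hy'
    rw [← hL y w y' h1 h2, ← hL y' w y h2.symm h1.symm, hinv _ _ h1, hinv _ _ h2, mul_inv_rev]
  have hLx' : ∀ y, f y = true → L y x = 1 := by
    intro y hy
    rw [hLinv x y hfx hy, hLx y hy, inv_one]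
  -- reduction to L
  suffices hmain : ∃ τ : Γ, ∀ y y', f y = true → f y' = true → L y y' ∈ Subgroup.zpowers τ by
    obtain ⟨τ, hτ⟩ := hmain
    have key : ∀ u v, G.Adj u v → f u = true → t u v ∈ Subgroup.zpowers τ := by
      intro u v huv hu
      have hv : f v = false := by
        have := hf u v huv
        rw [hu] at this
        cases hh : f v
        · rfl
        · exact absurd hh.symm this
      obtain ⟨w, hvw, hw1⟩ := hc v hv
      have hw : f w = true := by
        have := hf v w hvw
        rw [hv] at this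
        cases hh : f w
        · exact absurd hh.symm this
        · rfl
      have : t u v = L u w := by rw [← hL u v w huv hvw, hw1, mul_one]
      rw [this]
      exact hτ u w hu hw
    refine ⟨τ, fun u v huv => ?_⟩
    cases hu : f u
    · have hv : f v = true := by
        have := hf u v huv
        rw [hu] at this
        cases hh : f v
        · exact absurd hh.symm this
        · rfl
      have h1 := key v u huv.symm hv
      rw [hinv v u huv.symm]
      exact (Subgroup.zpowers τ).inv_mem h1
    · exact key u v huv hu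
  by_cases hcase : ∃ y z, f y = true ∧ f z = true ∧
      G.neighborFinset x ∩ G.neighborFinset y ∩ G.neighborFinset z = ∅ ∧ L y z ≠ 1
  · obtain ⟨y2, y3, f2, f3, hemp, hne⟩ := hcase
    -- meeting the three pairwise intersections
    have m1 : ∀ y, (G.neighborFinset y ∩ (G.neighborFinset y2 ∩ G.neighborFinset y3)).Nonempty →
        L y2 y * L y y3 = L y2 y3 := by
      rintro y ⟨w, hw⟩
      simp only [mem_inter, mem_neighborFinset] at hw
      exact hLmul _ _ _ w hw.2.1 hw.1 hw.2.2
    have m2 : ∀ y, f y = true →
        (G.neighborFinset y ∩ (G.neighborFinset x ∩ G.neighborFinset y3)).Nonempty →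
        L y y3 = 1 := by
      rintro y hy ⟨w, hw⟩
      simp only [mem_inter, mem_neighborFinset] at hw
      have := hLmul y x y3 w hw.1 hw.2.1 hw.2.2
      rw [hLx' y hy, hLx y3 f3, one_mul] at this
      exact this.symm
    have m3 : ∀ y, f y = true →
        (G.neighborFinset y ∩ (G.neighborFinset x ∩ G.neighborFinset y2)).Nonempty →
        L y2 y = 1 := by
      rintro y hy ⟨w, hw⟩
      simp only [mem_inter, mem_neighborFinset] at hw
      have := hLmul y2 x y w hw.2.2 hw.2.1 hw.1
      rw [hLx' y2 f2, hLx y hy, one_mul] at this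
      exact this.symm
    have hperm1 : G.neighborFinset y2 ∩ G.neighborFinset x ∩ G.neighborFinset y3 = ∅ := by
      rw [Finset.inter_comm (G.neighborFinset y2)]; exact hemp
    have hperm2 : G.neighborFinset y3 ∩ G.neighborFinset x ∩ G.neighborFinset y2 = ∅ := by
      rw [Finset.inter_assoc, Finset.inter_comm]; exact hemp
    have hmem : ∀ y, f y = true → L y2 y ∈ Subgroup.zpowers (L y2 y3) ∧
        L y y3 ∈ Subgroup.zpowers (L y2 y3) := by
      intro y hy
      by_cases c1 : (G.neighborFinset y ∩ (G.neighborFinset y2 ∩ G.neighborFinset y3)).Nonempty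
      · have e1 := m1 y c1
        by_cases c2 : (G.neighborFinset y ∩ (G.neighborFinset x ∩ G.neighborFinset y3)).Nonempty
        · have e2 := m2 y hy c2
          rw [e2, mul_one] at e1
          rw [e2, e1]
          exact ⟨Subgroup.mem_zpowers _, Subgroup.one_mem _⟩
        · by_cases c3 :
            (G.neighborFinset y ∩ (G.neighborFinset x ∩ G.neighborFinset y2)).Nonempty
          · have e3 := m3 y hy c3
            rw [e3, one_mul] at e1
            rw [e3, e1]
            exact ⟨Subgroup.one_mem _, Subgroup.mem_zpowers _⟩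
          · exfalso
            rw [Finset.not_nonempty_iff_eq_empty] at c2 c3
            exact miss_two (hN x hfx) (hN y2 f2) (hN y3 f3) (hN y hy) (hdN x) (hdN y2) (hdN y3)
              (hdN y) (by omega) hemp c3 c2
      · rw [Finset.not_nonempty_iff_eq_empty] at c1
        by_cases c2 : (G.neighborFinset y ∩ (G.neighborFinset x ∩ G.neighborFinset y3)).Nonempty
        · by_cases c3 :
            (G.neighborFinset y ∩ (G.neighborFinset x ∩ G.neighborFinset y2)).Nonempty
          · rw [m2 y hy c2, m3 y hy c3]
            exact ⟨Subgroup.one_mem _, Subgroup.one_mem _⟩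
          · exfalso
            rw [Finset.not_nonempty_iff_eq_empty] at c3
            refine miss_two (hN y2 f2) (hN x hfx) (hN y3 f3) (hN y hy) (hdN y2) (hdN x) (hdN y3)
              (hdN y) (by omega) hperm1 ?_ c1
            rw [Finset.inter_comm (G.neighborFinset y2)]; exact c3
        · exfalso
          rw [Finset.not_nonempty_iff_eq_empty] at c2
          refine miss_two (hN y3 f3) (hN x hfx) (hN y2 f2) (hN y hy) (hdN y3) (hdN x) (hdN y2)
            (hdN y) (by omega) hperm2 ?_ ?_
          · rw [Finset.inter_comm (G.neighborFinset y3)]; exact c2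
          · rw [Finset.inter_comm (G.neighborFinset y3)]; exact c1
    refine ⟨L y2 y3, fun y y' hy hy' => ?_⟩
    have hb := hmem y hy
    have hb' := hmem y' hy'
    rcases meet_one (hN x hfx) (hN y2 f2) (hN y3 f3) (hN y hy) (hN y' hy') (hdN x) (hdN y2)
      (hdN y3) (hdN y) (hdN y') (by omega) hemp with ⟨w, hw⟩ | ⟨w, hw⟩ | ⟨w, hw⟩
    · simp only [mem_inter, mem_neighborFinset] at hw
      have := hLmul y x y' w hw.1.1 hw.2 hw.1.2
      rw [hLx' y hy, hLx y' hy', one_mul] at this
      rw [← this]; exact Subgroup.one_mem _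
    · simp only [mem_inter, mem_neighborFinset] at hw
      rw [← hLmul y y2 y' w hw.1.1 hw.2 hw.1.2, hLinv y2 y f2 hy]
      exact Subgroup.mul_mem _ (Subgroup.inv_mem _ hb.1) hb'.1
    · simp only [mem_inter, mem_neighborFinset] at hw
      rw [← hLmul y y3 y' w hw.1.1 hw.2 hw.1.2, hLinv y' y3 hy' f3]
      exact Subgroup.mul_mem _ hb.2 (Subgroup.inv_mem _ hb'.2)
  · push Not at hcase
    refine ⟨1, fun y y' hy hy' => ?_⟩
    by_cases hem : G.neighborFinset x ∩ G.neighborFinset y ∩ G.neighborFinset y' = ∅
    · rw [hcase y y' hy hy' hem]; exact Subgroup.one_mem _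
    · rw [← Ne, ← Finset.nonempty_iff_ne_empty] at hem
      obtain ⟨w, hw⟩ := hem
      simp only [mem_inter, mem_neighborFinset] at hw
      have := hLmul y x y' w hw.1.2 hw.1.1 hw.2
      rw [hLx' y hy, hLx y' hy', one_mul] at this
      rw [← this]; exact Subgroup.one_mem _

/-- base point on the larger side -/
theorem bip_upper_side (f : V → Bool) (hf : ∀ u v, G.Adj u v → f u ≠ f v)
    {δ : ℕ} (hd : ∀ v, δ ≤ G.degree v)
    (hX : 2 * (univ.filter fun v => f v = false).card ≤ Fintype.card V)
    (h : 3 * Fintype.card V < 10 * δ) (x : V) (hfx : f x = true) : IsCyclic (DFG G x) := by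
  classical
  have hne : ∀ {u v : V}, G.Adj u v → f u = true → f v = false := by
    intro u v huv hu
    have := hf u v huv
    rw [hu] at this
    cases hh : f v
    · rfl
    · exact absurd hh.symm this
  have hne' : ∀ {u v : V}, G.Adj u v → f u = false → f v = true := by
    intro u v huv hu
    have := hf u v huv
    rw [hu] at this
    cases hh : f v
    · exact absurd hh.symm this
    · rfl
  have hcn : ∀ y, f y = true → ∃ w, G.Adj x w ∧ G.Adj w y := by
    intro y hy
    have hsub : ∀ z, f z = true → G.neighborFinset z ⊆ univ.filter fun v => f v = false := by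
      intro z hz w hw
      rw [mem_neighborFinset] at hw
      simp only [mem_filter, mem_univ, true_and]
      exact hne hw hz
    have hdN : ∀ y, δ ≤ (G.neighborFinset y).card := by
      intro y; rw [card_neighborFinset_eq_degree]; exact hd y
    obtain ⟨w, hw⟩ := inter_nonempty_of_card (hsub x hfx) (hsub y hy) (hdN x) (hdN y) (by omega)
    simp only [mem_inter, mem_neighborFinset] at hw
    exact ⟨w, hw.1, hw.2.symm⟩
  have hδ : 0 < δ := by omega
  have hnb : ∀ v, ∃ w, G.Adj v w := by
    intro v
    have h1 : 0 < G.degree v := lt_of_lt_of_le hδ (hd v)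
    rw [G.degree_pos_iff_exists_adj] at h1
    exact h1
  -- two step classes and the potential
  let pY : ∀ u, f u = true → Cls G x u := fun u hu =>
    (edge (hcn u hu).choose_spec.1).comp (edge (hcn u hu).choose_spec.2)
  have hpY : ∀ u (hu : f u = true) a (h1 : G.Adj x a) (h2 : G.Adj a u),
      pY u hu = (edge h1).comp (edge h2) := fun u hu a h1 h2 => edge_sub _ _ _ _
  let p : ∀ u, Cls G x u := fun u =>
    if hu : f u = true then pY u hu else
      (pY (hnb u).choose (hne' (hnb u).choose_spec (by simpa using hu))).comp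
        (edge (hnb u).choose_spec.symm)
  have hp1 : ∀ u (hu : f u = true), p u = pY u hu := by
    intro u hu
    change (if hu : f u = true then pY u hu else _) = _
    rw [dif_pos hu]
  have hp2 : ∀ u (hu : f u = false), p u = (p (hnb u).choose).comp
      (edge (hnb u).choose_spec.symm) := by
    intro u hu
    have hnot : ¬ f u = true := by rw [hu]; simp
    rw [hp1 _ (hne' (hnb u).choose_spec hu)]
    change (if hu : f u = true then pY u hu else _) = _
    rw [dif_neg hnot]
  have hpx : p x = cls Walk.nil := by
    obtain ⟨w, h1, h2⟩ := hcn x hfx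
    rw [hp1 x hfx, hpY x hfx w h1 h2]
    exact edge_back h1 h2
  obtain ⟨τ, hτ⟩ := bip_group_core G (tt p) x (fun u v huv => tt_back p huv)
    (fun a b b' c h1 h2 h3 h4 => tt_sub p h1 h2 h3 h4)
    (by
      intro a u h1 h2
      rw [tt_mul p h1 h2, hpx, nil_comp, hp1 u (hne' h2 (hne h1 hfx)),
        hpY u (hne' h2 (hne h1 hfx)) a h1 h2, comp_inv, one_def'])
    f hf hfx
    (by
      intro v hv
      refine ⟨(hnb v).choose, (hnb v).choose_spec, ?_⟩
      rw [tt_adj p (hnb v).choose_spec, hp2 v hv, comp_assoc, ← comp_assoc (edge _) (edge _),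
        edge_back, nil_comp, comp_inv, one_def'])
    hd hX h
  exact isCyclic_of_tt p hpx τ hτ

/-- Bipartite graphs with `10 δ > 3 n` have cyclic discrete fundamental group. -/
theorem bip_upper (f : V → Bool) (hf : ∀ u v, G.Adj u v → f u ≠ f v)
    {δ : ℕ} (hd : ∀ v, δ ≤ G.degree v) (h : 3 * Fintype.card V < 10 * δ) (x : V) :
    IsCyclic (DFG G x) := by
  classical
  -- choose the colouring with a small `false` side
  obtain ⟨g, hg, hX⟩ : ∃ g : V → Bool, (∀ u v, G.Adj u v → g u ≠ g v) ∧
      2 * (univ.filter fun v => g v = false).card ≤ Fintype.card V := by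
    have hsum : (univ.filter fun v => f v = false).card + (univ.filter fun v => f v = true).card
        = Fintype.card V := by
      rw [← Finset.card_univ, ← Finset.card_union_of_disjoint]
      · congr 1
        ext v
        simp
      · rw [Finset.disjoint_left]
        intro v hv hv'
        simp only [mem_filter, mem_univ, true_and] at hv hv'
        rw [hv] at hv'
        exact absurd hv' (by simp)
    by_cases hle : 2 * (univ.filter fun v => f v = false).card ≤ Fintype.card V
    · exact ⟨f, hf, hle⟩
    · refine ⟨fun v => !(f v), ?_, ?_⟩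
      · intro u v huv hh
        exact hf u v huv (by simpa using hh)
      · have : (univ.filter fun v => (!(f v)) = false) = univ.filter fun v => f v = true := by
          ext v; simp
        rw [this]
        omega
  cases hx : g x
  · have hδ : 0 < G.degree x := lt_of_lt_of_le (by omega) (hd x)
    rw [G.degree_pos_iff_exists_adj] at hδ
    obtain ⟨y, hy⟩ := hδ
    have hgy : g y = true := by
      have := hg x y hy
      rw [hx] at this
      cases hh : g y
      · exact absurd hh.symm this
      · rfl
    exact isCyclic_of_adj hy (bip_upper_side G g hg hd hX h y hgy)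
  · exact bip_upper_side G g hg hd hX h x hx

end Pool.Agent.LibDFG
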