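import Mathlib

/-!
Closed sequences in a graph; a graph without closed sequences of odd length at most `5` and with
large minimum degree is bipartite; cycles from alternating sequences.
-/

namespace Pool.Agent.LibDFG

open SimpleGraph Finset

variable {V : Type} (G : SimpleGraph V)

/-- there is a closed walk of length `m`, given as a sequence -/
def HasClosed (m : ℕ) : Prop := ∃ c : ℕ → V, c m = c 0 ∧ ∀ i < m, G.Adj (c i) (c (i + 1))

theorem hasClosed_of_walk {u : V} (w : G.Walk u u) : HasClosed G w.length :=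
  ⟨w.getVert, by simp, fun i hi => w.adj_getVert_succ hi⟩

/-- the periodic extension of a closed sequence -/
theorem periodic_of_closed {m : ℕ} (hm : 0 < m) (h : HasClosed G m) :
    ∃ c : ℕ → V, (∀ i, c (i + m) = c i) ∧ ∀ i, G.Adj (c i) (c (i + 1)) := by
  obtain ⟨c, hc, hadj⟩ := h
  refine ⟨fun i => c (i % m), fun i => by simp, fun i => ?_⟩
  have hlt : i % m < m := Nat.mod_lt _ hm
  have h1 := hadj (i % m) hlt
  by_cases hlast : i % m + 1 = m
  · have h2 : (i + 1) % m = 0 := by
      by_cases hm1 : m = 1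
      · subst hm1; exact Nat.mod_one _
      · rw [Nat.add_mod, Nat.mod_eq_of_lt (show 1 < m by omega), hlast, Nat.mod_self]
    change G.Adj (c (i % m)) (c ((i + 1) % m))
    rw [h2, ← hc]
    rw [hlast] at h1
    exact h1
  · have h2 : (i + 1) % m = i % m + 1 := by
      rw [Nat.add_mod]
      have : 1 < m := by omega
      rw [Nat.mod_eq_of_lt this, Nat.mod_eq_of_lt (show i % m + 1 < m by omega)]
    change G.Adj (c (i % m)) (c ((i + 1) % m))
    rw [h2]
    exact h1

/-- shortcut through a vertex adjacent to two vertices of the sequence -/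
theorem closed_shortcut (c : ℕ → V) (hadj : ∀ i, G.Adj (c i) (c (i + 1))) {a b : ℕ} (hab : a ≤ b)
    {v : V} (ha : G.Adj v (c a)) (hb : G.Adj (c b) v) : HasClosed G (b - a + 2) := by
  refine ⟨fun t => if t = 0 ∨ t = b - a + 2 then v else c (a + (t - 1)), by simp, ?_⟩
  intro i hi
  by_cases h0 : i = 0
  · subst h0
    have h1 : ¬ (0 + 1 = 0 ∨ 0 + 1 = b - a + 2) := by omega
    simp only [true_or, if_true, if_neg h1]
    simpa using ha
  · have h1 : ¬ (i = 0 ∨ i = b - a + 2) := by omega
    simp only [if_neg h1]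
    by_cases h2 : i + 1 = b - a + 2
    · have h3 : (i + 1 = 0 ∨ i + 1 = b - a + 2) := Or.inr h2
      simp only [if_pos h3]
      have h4 : a + (i - 1) = b := by omega
      rw [h4]
      exact hb
    · have h3 : ¬ (i + 1 = 0 ∨ i + 1 = b - a + 2) := by omega
      simp only [if_neg h3]
      have h4 : a + (i + 1 - 1) = a + (i - 1) + 1 := by omega
      rw [h4]
      exact hadj _

/-- on a shortest odd closed sequence of length at least `7` no vertex has three neighbours -/
theorem three_indices {m : ℕ} (hm : 7 ≤ m) (hodd : Odd m)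
    (hmin : ∀ l, Odd l → l < m → ¬ HasClosed G l) (c : ℕ → V) (hper : ∀ i, c (i + m) = c i)
    (hadj : ∀ i, G.Adj (c i) (c (i + 1))) (v : V) {i j k : ℕ} (hij : i < j) (hjk : j < k)
    (hk : k < m) (hi : G.Adj v (c i)) (hj : G.Adj v (c j)) (hkv : G.Adj v (c k)) : False := by
  have key : ∀ a b, a < b → b < m → G.Adj v (c a) → G.Adj v (c b) →
      (b - a = 2 ∨ m - 2 ≤ b - a) := by
    intro a b hab hb ha' hb'
    rcases Nat.even_or_odd (b - a) with he | ho
    · -- the complement is odd
      left
      have h1 : HasClosed G (a + m - b + 2) := by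
        apply closed_shortcut G c hadj (by omega) hb'
        rw [hper]; exact ha'.symm
      have hodd1 : Odd (a + m - b + 2) := by
        have h2 : a + m - b + 2 + (b - a) = m + 2 := by omega
        have h3 : Odd (m + 2) := by
          obtain ⟨t, ht⟩ := hodd; exact ⟨t + 1, by omega⟩
        rw [← h2] at h3
        rcases Nat.even_or_odd (a + m - b + 2) with h4 | h4
        · exact absurd (h4.add he) (Nat.not_even_iff_odd.mpr h3)
        · exact h4
      have h5 := hmin _ hodd1
      have h6 : ¬ (a + m - b + 2 < m) := fun hlt => h5 hlt h1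
      obtain ⟨t, ht⟩ := he
      omega
    · right
      have h1 : HasClosed G (b - a + 2) := closed_shortcut G c hadj (by omega) ha' hb'.symm
      have hodd1 : Odd (b - a + 2) := by
        obtain ⟨t, ht⟩ := ho; exact ⟨t + 1, by omega⟩
      have h5 := hmin _ hodd1
      have h6 : ¬ (b - a + 2 < m) := fun hlt => h5 hlt h1
      omega
  have k1 := key i j hij (by omega) hi hj
  have k2 := key j k hjk hk hj hkv
  have k3 := key i k (by omega) hk hi hkv
  omega

open Classical in
theorem colorable_of_no_short {n δ : ℕ} [Fintype V] (hn : Fintype.card V = n)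
    (hd : ∀ v, δ ≤ G.degree v) (h : 2 * n < 7 * δ) (h3 : ¬ HasClosed G 3) (h5 : ¬ HasClosed G 5) :
    G.Colorable 2 := by
  rw [two_colorable_iff_forall_loop_even]
  intro u w
  by_contra hw
  rw [Nat.not_even_iff_odd] at hw
  have hex : ∃ m, Odd m ∧ HasClosed G m := ⟨w.length, hw, hasClosed_of_walk G w⟩
  set m := Nat.find hex with hmdef
  obtain ⟨hodd, hcl⟩ := Nat.find_spec hex
  rw [← hmdef] at hodd hcl
  have hmin : ∀ l, Odd l → l < m → ¬ HasClosed G l := by
    intro l hl hlt hc
    exact Nat.find_min hex hlt ⟨hl, hc⟩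
  have h1 : ¬ HasClosed G 1 := by
    rintro ⟨c, hc, hadj⟩
    have := hadj 0 (by omega)
    rw [zero_add, hc] at this
    exact G.irrefl this
  have hm : 7 ≤ m := by
    obtain ⟨t, ht⟩ := hodd
    by_contra hlt
    have : t = 0 ∨ t = 1 ∨ t = 2 := by omega
    rcases this with rfl | rfl | rfl
    · rw [ht] at hcl; exact h1 hcl
    · rw [ht] at hcl; exact h3 hcl
    · rw [ht] at hcl; exact h5 hcl
  obtain ⟨c, hper, hadj⟩ := periodic_of_closed G (by omega) hcl
  have hcount : ∑ i ∈ range m, G.degree (c i) ≤ 2 * n := by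
    have h6 : ∑ i ∈ range m, G.degree (c i)
        = ∑ v : V, ((range m).filter fun i => G.Adj v (c i)).card := by
      simp_rw [card_filter]
      rw [sum_comm]
      apply sum_congr rfl
      intro i _
      rw [← card_neighborFinset_eq_degree, ← card_filter]
      congr 1
      ext v
      simp [adj_comm]
    rw [h6]
    calc ∑ v : V, ((range m).filter fun i => G.Adj v (c i)).card
        ≤ ∑ v : V, 2 := by
          apply sum_le_sum
          intro v _
          by_contra hgt
          push Not at hgt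
          obtain ⟨T, hT, hT3⟩ := exists_subset_card_eq (show 3 ≤ _ from hgt)
          obtain ⟨f, hf⟩ : ∃ f : Fin 3 → ℕ, StrictMono f ∧ ∀ i, f i ∈ T :=
            ⟨T.orderEmbOfFin hT3, (T.orderEmbOfFin hT3).strictMono,
              fun i => T.orderEmbOfFin_mem hT3 i⟩
          have g0 := mem_filter.mp (hT (hf.2 0))
          have g1 := mem_filter.mp (hT (hf.2 1))
          have g2 := mem_filter.mp (hT (hf.2 2))
          exact three_indices G hm hodd hmin c hper hadj v (hf.1 (show (0 : Fin 3) < 1 by decide))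
            (hf.1 (show (1 : Fin 3) < 2 by decide)) (mem_range.mp g2.1) g0.2 g1.2 g2.2
      _ = 2 * n := by rw [sum_const, card_univ, hn, smul_eq_mul, mul_comm]
  have hlow : m * δ ≤ ∑ i ∈ range m, G.degree (c i) := by
    calc m * δ = ∑ i ∈ range m, δ := by rw [sum_const, card_range, smul_eq_mul]
      _ ≤ _ := sum_le_sum fun i _ => hd _
  have : 7 * δ ≤ m * δ := Nat.mul_le_mul_right _ hm
  omega

/-- a closed injective sequence of length `n` gives a cycle -/
theorem cycle_of_seq {n : ℕ} (hn : 3 ≤ n) (s : ℕ → V)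
    (hinj : ∀ i < n, ∀ j < n, s i = s j → i = j)
    (hadj : ∀ i, i + 1 < n → G.Adj (s i) (s (i + 1))) (hlast : G.Adj (s (n - 1)) (s 0)) :
    cycleGraph n ⊑ G := by
  have key : ∀ a b : Fin n, (a - b).val = 1 → G.Adj (s a) (s b) := by
    intro a b hab
    rcases Nat.lt_or_ge b.val a.val with hlt | hge
    · have h1 : a.val = b.val + 1 := by
        rw [Fin.sub_val_of_le (by exact hlt.le)] at hab
        omega
      rw [h1]
      exact (hadj b.val (by have := a.isLt; omega)).symm
    · have h2 : a.val < b.val := by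
        rcases Nat.lt_or_ge a.val b.val with h | h
        · exact h
        · have : a = b := Fin.ext (by omega)
          rw [this, Fin.sub_val_of_le le_rfl] at hab
          omega
      rw [Fin.coe_sub_iff_lt.mpr (by exact h2)] at hab
      have hb := b.isLt
      have h3 : a.val = 0 := by omega
      have h4 : b.val = n - 1 := by omega
      rw [h3, h4]
      exact hlast.symm
  refine ⟨⟨⟨fun i => s i.val, ?_⟩, ?_⟩⟩
  · intro a b hab
    rcases cycleGraph_adj'.mp hab with h | h
    · exact key a b h
    · exact (key b a h).symm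
  · intro a b hab
    exact Fin.ext (hinj _ a.isLt _ b.isLt hab)

/-- an odd cycle from two alternating sequences -/
theorem alt_cycle {k : ℕ} (hk : 1 ≤ k) (x : V) (F H : ℕ → V)
    (hF : ∀ i < k, ∀ j < k, F i = F j → i = j) (hH : ∀ i < k, ∀ j < k, H i = H j → i = j)
    (hFH : ∀ i < k, ∀ j < k, F i ≠ H j) (hxF : ∀ i < k, F i ≠ x) (hxH : ∀ i < k, H i ≠ x)
    (a0 : G.Adj x (F 0)) (a1 : ∀ i < k, G.Adj (F i) (H i))
    (a2 : ∀ i, i + 1 < k → G.Adj (H i) (F (i + 1))) (a3 : G.Adj (H (k - 1)) x) :
    cycleGraph (2 * k + 1) ⊑ G := by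
  let s : ℕ → V := fun m => if m = 0 then x else if m % 2 = 1 then F (m / 2) else H (m / 2 - 1)
  have s0 : s 0 = x := rfl
  have sodd : ∀ i, s (2 * i + 1) = F i := by
    intro i
    have h1 : (2 * i + 1) % 2 = 1 := by omega
    have h2 : (2 * i + 1) / 2 = i := by omega
    change (if 2 * i + 1 = 0 then x else if (2 * i + 1) % 2 = 1 then F ((2 * i + 1) / 2) else
      H ((2 * i + 1) / 2 - 1)) = _
    rw [if_neg (by omega), if_pos h1, h2]
  have seven : ∀ i, s (2 * i + 2) = H i := by
    intro i
    have h1 : ¬ (2 * i + 2) % 2 = 1 := by omega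
    have h2 : (2 * i + 2) / 2 - 1 = i := by omega
    change (if 2 * i + 2 = 0 then x else if (2 * i + 2) % 2 = 1 then F ((2 * i + 2) / 2) else
      H ((2 * i + 2) / 2 - 1)) = _
    rw [if_neg (by omega), if_neg h1, h2]
  have cases3 : ∀ m, m < 2 * k + 1 → m = 0 ∨ (∃ i < k, m = 2 * i + 1) ∨ (∃ i < k, m = 2 * i + 2) := by
    intro m hm
    rcases Nat.even_or_odd m with ⟨t, ht⟩ | ⟨t, ht⟩
    · by_cases h0 : m = 0
      · left; exact h0
      · right; right; exact ⟨t - 1, by omega, by omega⟩
    · right; left; exact ⟨t, by omega, by omega⟩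
  apply cycle_of_seq G (by omega) s
  · intro i hi j hj hij
    rcases cases3 i hi with rfl | ⟨a, ha, rfl⟩ | ⟨a, ha, rfl⟩ <;>
      rcases cases3 j hj with rfl | ⟨b, hb, rfl⟩ | ⟨b, hb, rfl⟩
    · rfl
    · rw [s0, sodd] at hij; exact absurd hij.symm (hxF b hb)
    · rw [s0, seven] at hij; exact absurd hij.symm (hxH b hb)
    · rw [s0, sodd] at hij; exact absurd hij (hxF a ha)
    · rw [sodd, sodd] at hij; rw [hF a ha b hb hij]
    · rw [sodd, seven] at hij; exact absurd hij (hFH a ha b hb)
    · rw [s0, seven] at hij; exact absurd hij (hxH a ha)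
    · rw [sodd, seven] at hij; exact absurd hij.symm (hFH b hb a ha)
    · rw [seven, seven] at hij; rw [hH a ha b hb hij]
  · intro i hi
    rcases cases3 i (by omega) with rfl | ⟨a, ha, rfl⟩ | ⟨a, ha, rfl⟩
    · have := sodd 0
      simp only [mul_zero, zero_add] at this
      rw [s0, this]; exact a0
    · rw [sodd, show 2 * a + 1 + 1 = 2 * a + 2 by ring, seven]; exact a1 a ha
    · rw [seven, show 2 * a + 2 + 1 = 2 * (a + 1) + 1 by ring, sodd]
      exact a2 a (by omega)
  · have h1 : 2 * k + 1 - 1 = 2 * (k - 1) + 2 := by omega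
    rw [h1, seven, s0]
    exact a3

end Pool.Agent.LibDFG
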