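import Mathlib
import Pool.Agent.LibDFG.Basic
import Pool.Agent.LibDFG.Tools
import Pool.Agent.LibDFG.CliqueGroup
import Pool.Agent.LibDFG.CliqueLower

namespace Pool.Agent.LibDFG

open SimpleGraph

/-- For every `r ≥ 4` the threshold of the complete graph `K_r` equals `(2 r - 4) / (3 r - 5)`. -/
theorem complete_value (r : ℕ) (hr : 4 ≤ r) :
    deltaCyc (completeGraph (Fin r)) = (2 * (r : ℝ) - 4) / (3 * (r : ℝ) - 5) := by
  classical
  obtain ⟨s, rfl⟩ : ∃ s, r = s + 2 := ⟨r - 2, by omega⟩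
  have hs : 2 ≤ s := by omega
  have hval : (2 * ((s + 2 : ℕ) : ℝ) - 4) / (3 * ((s + 2 : ℕ) : ℝ) - 5)
      = (2 * (s : ℝ)) / (3 * (s : ℝ) + 1) := by
    push_cast; congr 1 <;> ring
  rw [hval]
  have hpos : (0 : ℝ) < 3 * (s : ℝ) + 1 := by positivity
  have hmem : (2 * (s : ℝ)) / (3 * (s : ℝ) + 1) ∈
      {α : ℝ | 0 ≤ α ∧ CycAbove (completeGraph (Fin (s + 2))) α} := by
    refine ⟨by positivity, ?_⟩
    intro V _ G hfree hlt x
    have hcf : G.CliqueFree (s + 2) := by
      by_contra hcon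
      exact hfree ((not_cliqueFree_iff_top_isContained _).mp hcon)
    refine clique_upper G hs hcf (δ := G.minDegree) (fun v => ?_) ?_ x
    · convert G.minDegree_le_degree v
    · rw [div_mul_eq_mul_div, div_lt_iff₀ hpos] at hlt
      have h2 : ((2 * s * Fintype.card V : ℕ) : ℝ) < (((3 * s + 1) * G.minDegree : ℕ) : ℝ) := by
        push_cast
        calc 2 * (s : ℝ) * (Fintype.card V : ℝ) < (G.minDegree : ℝ) * (3 * (s : ℝ) + 1) := by
              convert hlt
          _ = _ := by ring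
      exact_mod_cast h2
  have hlow : ∀ α ∈ {α : ℝ | 0 ≤ α ∧ CycAbove (completeGraph (Fin (s + 2))) α},
      (2 * (s : ℝ)) / (3 * (s : ℝ) + 1) ≤ α := by
    rintro α ⟨_, hα⟩
    by_contra hlt
    push Not at hlt
    refine exG_not_cyclic s hs (hα _ (exG s) ?_ ?_ (.inl 0))
    · intro hcon
      exact (not_cliqueFree_iff_top_isContained _).mpr hcon
        ((exG_colorable s).cliqueFree (by omega))
    · have h1 : 2 * s ≤ (exG s).minDegree :=
        le_minDegree_of_forall_le_degree _ _ (fun v => exG_degree s (by omega) v)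
      have h2 : Fintype.card (Fin (s + 1) ⊕ (Bool × Fin s)) = 3 * s + 1 := by
        simp; ring
      rw [h2]
      have h3 : (2 * (s : ℝ)) ≤ ((exG s).minDegree : ℝ) := by exact_mod_cast h1
      rw [lt_div_iff₀ hpos] at hlt
      push_cast
      exact lt_of_lt_of_le hlt h3
  apply le_antisymm
  · exact csInf_le ⟨0, fun α hα => hα.1⟩ hmem
  · exact le_csInf ⟨_, hmem⟩ hlow

end Pool.Agent.LibDFG
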