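import Mathlib
import Pool.Agent.LibDFG.Base
import Pool.Agent.LibDFG.BipUpper
import Pool.Agent.LibDFG.CliqueGroup

/-!
Graphs with `3 δ + 1 ≥ 2 n` have cyclic discrete fundamental groups.
-/

namespace Pool.Agent.LibDFG

open SimpleGraph Finset Function

section push
variable {V : Type} {G : SimpleGraph V} (S : Set V)

/-- pushing a walk with end points in `S` into `S` -/
theorem push_walk (hS : ∀ a ∈ S, ∀ y b, G.Adj a y → G.Adj y b → ∃ z ∈ S, G.Adj a z ∧ G.Adj z b)
    (n : ℕ) : ∀ (a b : V) (ha : a ∈ S) (hb : b ∈ S) (w : G.Walk a b), w.length = n →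
      ∃ w' : (G.induce S).Walk ⟨a, ha⟩ ⟨b, hb⟩,
        Homotopic (w'.map (Embedding.induce (G := G) S).toHom) w := by
  induction n using Nat.strong_induction_on with
  | _ n ih =>
    intro a b ha hb w hw
    cases w with
    | nil => exact ⟨Walk.nil, Homotopic.refl _⟩
    | @cons _ y _ h1 p =>
      cases p with
      | nil =>
        refine ⟨Walk.cons (show (G.induce S).Adj ⟨a, ha⟩ ⟨b, hb⟩ from h1) Walk.nil, ?_⟩
        exact Homotopic.refl _
      | @cons _ c _ h2 q =>
        obtain ⟨z, hz, hz1, hz2⟩ := hS a ha y c h1 h2
        obtain ⟨w', hw'⟩ := ih (q.length + 1) (by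
          rw [← hw, Walk.length_cons, Walk.length_cons]; omega) z b hz hb (Walk.cons hz2 q)
          (by rw [Walk.length_cons])
        refine ⟨Walk.cons (show (G.induce S).Adj ⟨a, ha⟩ ⟨z, hz⟩ from hz1) w', ?_⟩
        have e1 : Homotopic (Walk.cons hz1 (Walk.cons hz2 q)) (Walk.cons h1 (Walk.cons h2 q)) :=
          Relation.ReflTransGen.single (Move.sub (Walk.nil : G.Walk a a) hz1 hz2 h1 h2 q)
        have e2 : Homotopic ((Walk.cons hz1 Walk.nil : G.Walk a z).append
            (w'.map (Embedding.induce (G := G) S).toHom)) ((Walk.cons hz1 Walk.nil).append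
            (Walk.cons hz2 q)) := Homotopic.append (Homotopic.refl _) hw'
        exact e2.trans e1

theorem isCyclic_of_push
    (hS : ∀ a ∈ S, ∀ y b, G.Adj a y → G.Adj y b → ∃ z ∈ S, G.Adj a z ∧ G.Adj z b)
    (x : V) (hx : x ∈ S) (h : IsCyclic (DFG (G.induce S) ⟨x, hx⟩)) : IsCyclic (DFG G x) := by
  refine isCyclic_of_lift (Embedding.induce (G := G) S).toHom ⟨x, hx⟩ h ?_
  intro w
  exact push_walk S hS _ x x hx hx w rfl

end push

variable {V : Type} [Fintype V] [DecidableEq V] (G : SimpleGraph V) [DecidableRel G.Adj]

theorem cyclic_dense_aux {δ : ℕ} (hd : ∀ v, δ ≤ G.degree v) (h : 2 * Fintype.card V ≤ 3 * δ)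
    (x : V) : IsCyclic (DFG G x) := by
  have hn : 0 < Fintype.card V := Fintype.card_pos_iff.mpr ⟨x⟩
  have h1 : δ < Fintype.card V := (hd x).trans_lt (G.degree_lt_card_verts x)
  refine clique_upper G (s := Fintype.card V) (by omega) ?_ hd ?_ x
  · exact cliqueFree_of_card_lt (by omega)
  · nlinarith

theorem cyclic_dense {δ : ℕ} (hd : ∀ v, δ ≤ G.degree v) (h : 2 * Fintype.card V ≤ 3 * δ + 1)
    (x : V) : IsCyclic (DFG G x) := by
  set n := Fintype.card V with hn
  have hn0 : 0 < n := Fintype.card_pos_iff.mpr ⟨x⟩
  have h1 : δ < n := (hd x).trans_lt (G.degree_lt_card_verts x)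
  rcases Nat.lt_or_ge (3 * δ) (2 * n) with hlt | hge
  swap
  · exact cyclic_dense_aux G hd hge x
  have heq : 2 * n = 3 * δ + 1 := by omega
  by_cases hδ : δ ≤ 2
  · -- two vertices
    have hn2 : n = 2 := by omega
    have hδ1 : δ = 1 := by omega
    refine bip_upper G (fun v => decide (v = x)) ?_ hd (by omega) x
    intro u v huv he
    have hc : (univ : Finset V).card = 2 := by rw [card_univ]; exact hn2
    by_cases hu : u = x
    · have hv : v = x := by simpa [hu] using he
      exact huv.ne (hu.trans hv.symm)
    · have hv : v ≠ x := by simpa [hu] using he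
      have h3 : ({x, u, v} : Finset V).card ≤ 2 := hc ▸ card_le_univ _
      rw [card_eq_three.mpr ⟨x, u, v, Ne.symm hu, Ne.symm hv, huv.ne, rfl⟩] at h3
      omega
  · push Not at hδ
    by_cases hfree : G.CliqueFree (δ - 1 + 2)
    · refine clique_upper G (s := δ - 1) (by omega) hfree hd ?_ x
      obtain ⟨d, rfl⟩ : ∃ d, δ = d + 1 := ⟨δ - 1, by omega⟩
      rw [← hn]
      simp only [Nat.add_sub_cancel]
      nlinarith
    · rw [CliqueFree] at hfree
      push Not at hfree
      obtain ⟨K, hK⟩ := hfree
      have hKc : K.card = δ + 1 := by rw [hK.card_eq]; omega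
      have hKadj : ∀ a ∈ K, ∀ b ∈ K, a ≠ b → G.Adj a b := fun a ha b hb hab =>
        hK.isClique (mem_coe.mpr ha) (mem_coe.mpr hb) hab
      have hnb : ∀ b, 2 < (G.neighborFinset b ∩ K).card ∨ b ∈ K := by
        intro b
        by_cases hb : b ∈ K
        · right; exact hb
        · left
          have e1 := card_union_add_card_inter (G.neighborFinset b) K
          have e2 : (G.neighborFinset b ∪ K).card ≤ n - 1 := by
            have : G.neighborFinset b ∪ K ⊆ univ.erase b := by
              intro z hz
              rw [mem_erase]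
              refine ⟨?_, mem_univ _⟩
              rintro rfl
              rcases mem_union.mp hz with h | h
              · rw [mem_neighborFinset] at h; exact G.irrefl h
              · exact hb h
            refine (card_le_card this).trans ?_
            rw [card_erase_of_mem (mem_univ _), card_univ]
          rw [card_neighborFinset_eq_degree] at e1
          have := hd b
          omega
      have hS : ∀ a ∈ (K : Set V), ∀ y b, G.Adj a y → G.Adj y b →
          ∃ z ∈ (K : Set V), G.Adj a z ∧ G.Adj z b := by
        intro a ha y b _ _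
        rw [mem_coe] at ha
        rcases hnb b with hb | hb
        · have : 0 < ((G.neighborFinset b ∩ K).erase a).card := by
            have := pred_card_le_card_erase (s := G.neighborFinset b ∩ K) (a := a)
            omega
          obtain ⟨z, hz⟩ := card_pos.mp this
          rw [mem_erase, mem_inter, mem_neighborFinset] at hz
          exact ⟨z, hz.2.2, hKadj a ha z hz.2.2 (Ne.symm hz.1), hz.2.1.symm⟩
        · have : 0 < ((K.erase a).erase b).card := by
            have e1 := pred_card_le_card_erase (s := K) (a := a)
            have e2 := pred_card_le_card_erase (s := K.erase a) (a := b)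
            omega
          obtain ⟨z, hz⟩ := card_pos.mp this
          rw [mem_erase, mem_erase] at hz
          exact ⟨z, hz.2.2, hKadj a ha z hz.2.2 (Ne.symm hz.2.1), hKadj z hz.2.2 b hb hz.1⟩
      have hcK : ∀ z (hz : z ∈ (K : Set V)), IsCyclic (DFG (G.induce (K : Set V)) ⟨z, hz⟩) := by
        classical
        intro z hz
        have hcard : Fintype.card (K : Set V) = δ + 1 := by
          rw [← hKc]; simp
        refine cyclic_dense_aux (G.induce (K : Set V)) (δ := δ) ?_ (by rw [hcard]; omega) _
        rintro ⟨v, hv⟩
        have e : (G.induce (K : Set V)).neighborFinset ⟨v, hv⟩ = univ.erase ⟨v, hv⟩ := by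
          ext ⟨u, hu⟩
          simp only [mem_neighborFinset, comap_adj, mem_erase, mem_univ, and_true, ne_eq,
            Subtype.mk.injEq]
          constructor
          · intro huv he
            subst he
            exact G.irrefl huv
          · intro hne
            exact hKadj v (mem_coe.mp hv) u (mem_coe.mp hu) (Ne.symm hne)
        rw [← card_neighborFinset_eq_degree, e, card_erase_of_mem (mem_univ _), card_univ, hcard]
        simp
      by_cases hx : x ∈ K
      · exact isCyclic_of_push (K : Set V) hS x (mem_coe.mpr hx) (hcK x (mem_coe.mpr hx))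
      · rcases hnb x with hb | hb
        · obtain ⟨u, hu⟩ := card_pos.mp (show 0 < (G.neighborFinset x ∩ K).card by omega)
          rw [mem_inter, mem_neighborFinset] at hu
          exact isCyclic_of_adj hu.1
            (isCyclic_of_push (K : Set V) hS u (mem_coe.mpr hu.2) (hcK u (mem_coe.mpr hu.2)))
        · exact absurd hb hx

end Pool.Agent.LibDFG
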