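import Mathlib
import Pool.Agent.LibDFG.Erdos
import Pool.Agent.LibDFG.Closed

/-!
Graphs without a fixed odd cycle: few edges between the neighbourhoods of the end points of a short
path.
-/

namespace Pool.Agent.LibDFG

open SimpleGraph Finset Function

/-- avoiding a small set -/
theorem exists_avoid {V : Type} [DecidableEq V] {t m s : ℕ} (ht : m + s ≤ t) (hm : 0 < m)
    (f : Fin t → V) (hf : Injective f) (S : Finset V) (hS : S.card ≤ s) :
    ∃ g : ℕ → V, (∀ i < m, ∀ j < m, g i = g j → i = j) ∧ (∀ i, g i ∉ S) ∧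
      ∀ i, ∃ j, g i = f j := by
  have h1 : m ≤ ((univ.image f) \ S).card := by
    have h2 := le_card_sdiff S (univ.image f)
    rw [card_image_of_injective _ hf, card_univ, Fintype.card_fin] at h2
    omega
  obtain ⟨T, hT, hTm⟩ := exists_subset_card_eq h1
  let e := T.equivFinOfCardEq hTm
  have hmem : ∀ i, ((e.symm i : T) : V) ∈ (univ.image f) \ S := fun i => hT (e.symm i).2
  refine ⟨fun i => (e.symm ⟨i % m, Nat.mod_lt _ hm⟩ : T), ?_, ?_, ?_⟩
  · intro i hi j hj hij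
    have h3 := e.symm.injective (Subtype.ext hij)
    have h4 : i % m = j % m := congrArg Fin.val h3
    rwa [Nat.mod_eq_of_lt hi, Nat.mod_eq_of_lt hj] at h4
  · intro i
    exact (mem_sdiff.mp (hmem _)).2
  · intro i
    obtain ⟨j, _, hj⟩ := mem_image.mp (mem_sdiff.mp (hmem ⟨i % m, Nat.mod_lt _ hm⟩)).1
    exact ⟨j, hj.symm⟩

open Classical in
/-- many edges between two sets give a complete bipartite graph avoiding a small set -/
theorem kst (m s : ℕ) (hm : 0 < m) (c : ℝ) (hc : 0 < c) : ∃ n0 : ℕ,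
    ∀ (V : Type) [Fintype V], n0 ≤ Fintype.card V → ∀ (G : SimpleGraph V) (A B S : Finset V),
      S.card ≤ s → c * (Fintype.card V : ℝ) ^ 2 ≤
        (((A ×ˢ B).filter fun p => G.Adj p.1 p.2).card : ℝ) →
      ∃ f h : ℕ → V, (∀ i < m, ∀ j < m, f i = f j → i = j) ∧
        (∀ i < m, ∀ j < m, h i = h j → i = j) ∧ (∀ i, f i ∈ A) ∧ (∀ i, h i ∈ B) ∧
        (∀ i, f i ∉ S) ∧ (∀ i, h i ∉ S) ∧ ∀ i j, G.Adj (f i) (h j) := by
  obtain ⟨n0, hn0⟩ := erdos_box (m + s) (by omega) 2 c hc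
  refine ⟨n0, fun V _ hV G A B S hS hAB => ?_⟩
  have hcard : ((univ.filter fun x : Fin 2 → V => x 0 ∈ A ∧ x 1 ∈ B ∧ G.Adj (x 0) (x 1)).card)
      = ((A ×ˢ B).filter fun p => G.Adj p.1 p.2).card := by
    apply card_bij (fun (x : Fin 2 → V) _ => ((x 0, x 1) : V × V))
    · intro x hx
      simp only [mem_filter, mem_univ, true_and, mem_product] at hx ⊢
      exact ⟨⟨hx.1, hx.2.1⟩, hx.2.2⟩
    · intro x _ y _ hxy
      funext i
      have h1 := congrArg Prod.fst hxy
      have h2 := congrArg Prod.snd hxy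
      fin_cases i
      · exact h1
      · exact h2
    · rintro ⟨a, b⟩ hab
      simp only [mem_filter, mem_product] at hab
      refine ⟨![a, b], ?_, rfl⟩
      simp only [mem_filter, mem_univ, true_and]
      exact ⟨hab.1.1, hab.1.2, hab.2⟩
  rw [← hcard] at hAB
  obtain ⟨f, hf, hbox⟩ := hn0 V hV (fun x => x 0 ∈ A ∧ x 1 ∈ B ∧ G.Adj (x 0) (x 1))
    (le_trans hAB (le_of_eq (congrArg (fun S : Finset (Fin 2 → V) => (S.card : ℝ))
        (Finset.ext fun x => by simp))))
  have hbox' : ∀ i j, f 0 i ∈ A ∧ f 1 j ∈ B ∧ G.Adj (f 0 i) (f 1 j) := by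
    intro i j
    exact hbox ![i, j]
  obtain ⟨g, hg1, hg2, hg3⟩ := exists_avoid le_rfl hm (f 0) (hf 0) S hS
  obtain ⟨h, hh1, hh2, hh3⟩ := exists_avoid le_rfl hm (f 1) (hf 1) S hS
  refine ⟨g, h, hg1, hh1, ?_, ?_, hg2, hh2, ?_⟩
  · intro i
    obtain ⟨j, hj⟩ := hg3 i
    obtain ⟨j', _⟩ := hh3 i
    rw [hj]; exact (hbox' j j').1
  · intro i
    obtain ⟨j, hj⟩ := hh3 i
    obtain ⟨j', _⟩ := hg3 i
    rw [hj]; exact (hbox' j' j).2.1
  · intro i j
    obtain ⟨a, ha⟩ := hg3 i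
    obtain ⟨b, hb⟩ := hh3 j
    rw [ha, hb]; exact (hbox' a b).2.2

/-- closing a path `q 0, ..., q j` with an alternating sequence -/
theorem path_cycle {V : Type} (G : SimpleGraph V) {j m : ℕ} (hm : 1 ≤ m) (q f h : ℕ → V)
    (hq : ∀ a ≤ j, ∀ b ≤ j, q a = q b → a = b) (hqa : ∀ a < j, G.Adj (q a) (q (a + 1)))
    (hf : ∀ a < m, ∀ b < m, f a = f b → a = b) (hh : ∀ a < m, ∀ b < m, h a = h b → a = b)
    (hfq : ∀ a < m, ∀ b ≤ j, f a ≠ q b) (hhq : ∀ a < m, ∀ b ≤ j, h a ≠ q b)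
    (hfh : ∀ a < m, ∀ b < m, G.Adj (f a) (h b)) (hfx : ∀ a < m, G.Adj (q j) (f a))
    (hhx : ∀ a < m, G.Adj (q 0) (h a)) : cycleGraph (j + 1 + 2 * m) ⊑ G := by
  let s : ℕ → V := fun i => if i ≤ j then q i else
    if (i - (j + 1)) % 2 = 0 then f ((i - (j + 1)) / 2) else h ((i - (j + 1)) / 2)
  have s1 : ∀ i ≤ j, s i = q i := fun i hi => if_pos hi
  have s2 : ∀ i, s (j + 1 + 2 * i) = f i := by
    intro i
    have e1 : j + 1 + 2 * i - (j + 1) = 2 * i := by omega
    change (if j + 1 + 2 * i ≤ j then q (j + 1 + 2 * i) else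
      if (j + 1 + 2 * i - (j + 1)) % 2 = 0 then f ((j + 1 + 2 * i - (j + 1)) / 2) else
        h ((j + 1 + 2 * i - (j + 1)) / 2)) = _
    rw [if_neg (by omega), e1, if_pos (by omega)]
    congr 1; omega
  have s3 : ∀ i, s (j + 1 + 2 * i + 1) = h i := by
    intro i
    have e1 : j + 1 + 2 * i + 1 - (j + 1) = 2 * i + 1 := by omega
    change (if j + 1 + 2 * i + 1 ≤ j then q (j + 1 + 2 * i + 1) else
      if (j + 1 + 2 * i + 1 - (j + 1)) % 2 = 0 then f ((j + 1 + 2 * i + 1 - (j + 1)) / 2) else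
        h ((j + 1 + 2 * i + 1 - (j + 1)) / 2)) = _
    rw [if_neg (by omega), e1, if_neg (by omega)]
    congr 1; omega
  have cases3 : ∀ i, i < j + 1 + 2 * m → i ≤ j ∨ (∃ a < m, i = j + 1 + 2 * a) ∨
      (∃ a < m, i = j + 1 + 2 * a + 1) := by
    intro i hi
    by_cases h1 : i ≤ j
    · left; exact h1
    · rcases Nat.even_or_odd (i - (j + 1)) with ⟨t, ht⟩ | ⟨t, ht⟩
      · right; left; exact ⟨t, by omega, by omega⟩
      · right; right; exact ⟨t, by omega, by omega⟩
  have hfh' : ∀ a < m, ∀ b < m, f a ≠ h b := fun a ha b hb => (hfh a ha b hb).ne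
  apply cycle_of_seq G (by omega) s
  · intro i hi i' hi' hii
    rcases cases3 i hi with h1 | ⟨a, ha, rfl⟩ | ⟨a, ha, rfl⟩ <;>
      rcases cases3 i' hi' with h2 | ⟨b, hb, rfl⟩ | ⟨b, hb, rfl⟩
    · rw [s1 _ h1, s1 _ h2] at hii; exact hq _ h1 _ h2 hii
    · rw [s1 _ h1, s2] at hii; exact absurd hii.symm (hfq b hb _ h1)
    · rw [s1 _ h1, s3] at hii; exact absurd hii.symm (hhq b hb _ h1)
    · rw [s1 _ h2, s2] at hii; exact absurd hii (hfq a ha _ h2)
    · rw [s2, s2] at hii; rw [hf a ha b hb hii]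
    · rw [s2, s3] at hii; exact absurd hii (hfh' a ha b hb)
    · rw [s1 _ h2, s3] at hii; exact absurd hii (hhq a ha _ h2)
    · rw [s2, s3] at hii; exact absurd hii.symm (hfh' b hb a ha)
    · rw [s3, s3] at hii; rw [hh a ha b hb hii]
  · intro i hi
    rcases cases3 i (by omega) with h1 | ⟨a, ha, rfl⟩ | ⟨a, ha, rfl⟩
    · by_cases h2 : i = j
      · subst h2
        rw [s1 _ h1]
        have := s2 0
        rw [mul_zero, add_zero] at this
        rw [this]
        exact hfx 0 (by omega)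
      · rw [s1 _ h1, s1 _ (by omega)]
        exact hqa i (by omega)
    · rw [s2, s3]; exact hfh a ha a ha
    · rw [s3, show j + 1 + 2 * a + 1 + 1 = j + 1 + 2 * (a + 1) by ring, s2]
      exact (hfh (a + 1) (by omega) a ha).symm
  · have e1 : j + 1 + 2 * m - 1 = j + 1 + 2 * (m - 1) + 1 := by omega
    rw [e1, s3, s1 0 (by omega)]
    exact (hhx (m - 1) (by omega)).symm

open Classical in
/-- the number of adjacent pairs -/
noncomputable def eAB {V : Type} [Fintype V] (G : SimpleGraph V) (A B : Finset V) : ℕ :=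
  ((A ×ˢ B).filter fun p => G.Adj p.1 p.2).card

open Classical in
/-- few edges between the neighbourhoods of the ends of a path -/
theorem few_path (j m : ℕ) (hm : 1 ≤ m) (c : ℝ) (hc : 0 < c) : ∃ n0 : ℕ,
    ∀ (V : Type) [Fintype V], n0 ≤ Fintype.card V → ∀ (G : SimpleGraph V),
      (cycleGraph (j + 1 + 2 * m)).Free G → ∀ q : ℕ → V,
      (∀ a ≤ j, ∀ b ≤ j, q a = q b → a = b) → (∀ a < j, G.Adj (q a) (q (a + 1))) →
      (eAB G (G.neighborFinset (q j)) (G.neighborFinset (q 0)) : ℝ) <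
        c * (Fintype.card V : ℝ) ^ 2 := by
  obtain ⟨n0, hn0⟩ := kst m (j + 1) hm c hc
  refine ⟨n0, fun V _ hV G hfree q hq hqa => ?_⟩
  by_contra hcon
  push Not at hcon
  obtain ⟨f, h, hf, hh, hfA, hhB, hfS, hhS, hfh⟩ := hn0 V hV G _ _
    ((range (j + 1)).image q) (card_image_le.trans (by rw [card_range])) hcon
  have hmem : ∀ b ≤ j, q b ∈ (range (j + 1)).image q := fun b hb =>
    mem_image_of_mem _ (mem_range.mpr (by omega))
  apply hfree
  refine path_cycle G hm q f h hq hqa hf hh ?_ ?_ (fun a _ b _ => hfh a b) ?_ ?_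
  · intro a _ b hb he
    exact hfS a (he ▸ hmem b hb)
  · intro a _ b hb he
    exact hhS a (he ▸ hmem b hb)
  · intro a _
    exact (mem_neighborFinset _ _ _).mp (hfA a)
  · intro a _
    exact (mem_neighborFinset _ _ _).mp (hhB a)

open Classical in
/-- adjacent vertices have few common neighbours -/
theorem few_common (m : ℕ) (hm : 1 ≤ m) (c : ℝ) (hc : 0 < c) : ∃ n0 : ℕ,
    ∀ (V : Type) [Fintype V], n0 ≤ Fintype.card V → ∀ (G : SimpleGraph V),
      (cycleGraph (2 + 1 + 2 * m)).Free G → ∀ x y : V, G.Adj x y →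
      (eAB G (G.neighborFinset x ∩ G.neighborFinset y) univ : ℝ) <
        c * (Fintype.card V : ℝ) ^ 2 := by
  obtain ⟨n0, hn0⟩ := kst (m + 1) 2 (by omega) c hc
  refine ⟨n0, fun V _ hV G hfree x y hxy => ?_⟩
  by_contra hcon
  push Not at hcon
  obtain ⟨f, h, hf, hh, hfA, hhB, hfS, hhS, hfh⟩ := hn0 V hV G _ _
    {x, y} card_le_two hcon
  have hfx : ∀ i, G.Adj x (f i) ∧ G.Adj y (f i) := by
    intro i
    have := mem_inter.mp (hfA i)
    exact ⟨(mem_neighborFinset _ _ _).mp this.1, (mem_neighborFinset _ _ _).mp this.2⟩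
  apply hfree
  let q : ℕ → V := fun i => if i = 0 then f m else if i = 1 then y else x
  have q0 : q 0 = f m := rfl
  have q1 : q 1 = y := rfl
  have q2 : q 2 = x := rfl
  have c3 : ∀ a ≤ 2, a = 0 ∨ a = 1 ∨ a = 2 := by intro a ha; omega
  refine path_cycle G hm q f h ?_ ?_ (fun a ha b hb => hf a (by omega) b (by omega))
    (fun a ha b hb => hh a (by omega) b (by omega)) ?_ ?_ (fun a _ b _ => hfh a b) ?_ ?_
  · intro a ha b hb
    rcases c3 a ha with rfl | rfl | rfl <;> rcases c3 b hb with rfl | rfl | rfl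
    · intro _; rfl
    · rw [q0, q1]; intro he; exact absurd he.symm (hfx m).2.ne
    · rw [q0, q2]; intro he; exact absurd he.symm (hfx m).1.ne
    · rw [q0, q1]; intro he; exact absurd he (hfx m).2.ne
    · intro _; rfl
    · rw [q1, q2]; intro he; exact absurd he.symm hxy.ne
    · rw [q0, q2]; intro he; exact absurd he (hfx m).1.ne
    · rw [q1, q2]; intro he; exact absurd he hxy.ne
    · intro _; rfl
  · intro a ha
    have : a = 0 ∨ a = 1 := by omega
    rcases this with rfl | rfl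
    · change G.Adj (q 0) (q 1)
      rw [q0, q1]; exact (hfx m).2.symm
    · change G.Adj (q 1) (q 2)
      rw [q1, q2]; exact hxy.symm
  · intro a ha b hb
    rcases c3 b hb with rfl | rfl | rfl
    · rw [q0]; intro he
      have := hf a (by omega) m (by omega) he
      omega
    · rw [q1]; exact (hfx a).2.ne'
    · rw [q2]; exact (hfx a).1.ne'
  · intro a ha b hb
    rcases c3 b hb with rfl | rfl | rfl
    · rw [q0]; exact (hfh m a).ne'
    · rw [q1]; intro he; exact hhS a (by rw [he]; simp)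
    · rw [q2]; intro he; exact hhS a (by rw [he]; simp)
  · intro a _
    rw [q2]; exact (hfx a).1
  · intro a _
    rw [q0]; exact hfh m a

end Pool.Agent.LibDFG
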