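import Mathlib
import Pool.Agent.LibDFG.Closed

/-!
A graph of order `n` with minimum degree above `n / 2` contains cycles of all lengths `3, ..., n`
(Dirac, Bondy).
-/

namespace Pool.Agent.LibDFG

open SimpleGraph Finset Function

variable {V : Type} (G : SimpleGraph V)

/-- a path with `m` vertices, as a sequence -/
structure PathSeq (m : ℕ) (s : ℕ → V) : Prop where
  inj : ∀ i < m, ∀ j < m, s i = s j → i = j
  adj : ∀ i, i + 1 < m → G.Adj (s i) (s (i + 1))

variable {G}

theorem PathSeq.le_card [Fintype V] {m : ℕ} {s : ℕ → V} (h : PathSeq G m s) :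
    m ≤ Fintype.card V := by
  classical
  have h1 : ((range m).image s).card = m := by
    rw [card_image_of_injOn, card_range]
    intro i hi j hj hij
    exact h.inj i (mem_range.mp hi) j (mem_range.mp hj) hij
  rw [← h1]
  exact card_le_univ _

theorem PathSeq.mono {m l : ℕ} {s : ℕ → V} (h : PathSeq G m s) (hl : l ≤ m) : PathSeq G l s :=
  ⟨fun i hi j hj => h.inj i (by omega) j (by omega), fun i hi => h.adj i (by omega)⟩

/-- adding a vertex in front -/
theorem PathSeq.cons {m : ℕ} {s : ℕ → V} (h : PathSeq G m s) {v : V} (hv : G.Adj v (s 0))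
    (hne : ∀ i < m, s i ≠ v) : PathSeq G (m + 1) (fun i => if i = 0 then v else s (i - 1)) := by
  refine ⟨?_, ?_⟩
  · intro i hi j hj hij
    by_cases h0 : i = 0 <;> by_cases h1 : j = 0
    · omega
    · simp only [h0, if_true, if_neg h1] at hij
      exact absurd hij.symm (hne _ (by omega))
    · simp only [h1, if_true, if_neg h0] at hij
      exact absurd hij (hne _ (by omega))
    · simp only [if_neg h0, if_neg h1] at hij
      have := h.inj _ (by omega) _ (by omega) hij
      omega
  · intro i hi
    by_cases h0 : i = 0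
    · subst h0
      simpa using hv
    · simp only [if_neg h0, if_neg (show ¬ (i + 1 = 0) by omega)]
      have := h.adj (i - 1) (by omega)
      rwa [show i - 1 + 1 = i + 1 - 1 by omega] at this

/-- the reversed path -/
theorem PathSeq.reverse {m : ℕ} {s : ℕ → V} (h : PathSeq G m s) :
    PathSeq G m (fun i => s (m - 1 - i)) := by
  refine ⟨?_, ?_⟩
  · intro i hi j hj hij
    have := h.inj _ (by omega) _ (by omega) hij
    omega
  · intro i hi
    have := h.adj (m - 1 - (i + 1)) (by omega)
    rw [show m - 1 - (i + 1) + 1 = m - 1 - i by omega] at this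
    exact this.symm

/-- rotating a cycle -/
theorem rotate {m : ℕ} {s : ℕ → V} (h : PathSeq G m s) (hm : 1 < m) (hc : G.Adj (s (m - 1)) (s 0))
    (j : ℕ) : PathSeq G m (fun t => s ((j + t) % m)) := by
  have hadj : ∀ i, G.Adj (s (i % m)) (s ((i + 1) % m)) := by
    intro i
    have hlt : i % m < m := Nat.mod_lt _ (by omega)
    by_cases h1 : i % m + 1 < m
    · have : (i + 1) % m = i % m + 1 := by
        rw [Nat.add_mod, Nat.mod_eq_of_lt hm, Nat.mod_eq_of_lt h1]
      rw [this]; exact h.adj _ h1
    · have h2 : i % m = m - 1 := by omega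
      have : (i + 1) % m = 0 := by
        rw [Nat.add_mod, Nat.mod_eq_of_lt hm, h2, show m - 1 + 1 = m by omega, Nat.mod_self]
      rw [this, h2]; exact hc
  refine ⟨?_, ?_⟩
  · intro a ha b hb hab
    have h1 := h.inj _ (Nat.mod_lt _ (by omega)) _ (Nat.mod_lt _ (by omega)) hab
    have h2 : a ≡ b [MOD m] := Nat.ModEq.add_left_cancel' j h1
    exact Nat.ModEq.eq_of_lt_of_lt h2 ha hb
  · intro a _
    exact hadj (j + a)

open Classical in
/-- Dirac: a Hamiltonian cycle -/
theorem dirac [Fintype V] {δ : ℕ} (hd : ∀ v, δ ≤ G.degree v) (hn3 : 3 ≤ Fintype.card V)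
    (h : Fintype.card V < 2 * δ) :
    ∃ s, PathSeq G (Fintype.card V) s ∧ G.Adj (s (Fintype.card V - 1)) (s 0) := by
  set n := Fintype.card V with hn
  have hne : Nonempty V := Fintype.card_pos_iff.mp (by omega)
  obtain ⟨v₀⟩ := hne
  have hδ : 2 ≤ δ := by omega
  -- a longest path
  have hex : ∃ m, ¬ ∃ s, PathSeq G m s := ⟨n + 1, by
    rintro ⟨s, hs⟩
    have := hs.le_card
    omega⟩
  obtain ⟨m, hmP, hmN⟩ : ∃ m, (∃ s, PathSeq G m s) ∧ ¬ ∃ s, PathSeq G (m + 1) s := by
    have h1 := Nat.find_spec hex
    have h2 : Nat.find hex ≠ 0 := by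
      intro h0
      rw [h0] at h1
      exact h1 ⟨fun _ => v₀, by intro i hi; omega, by intro i hi; omega⟩
    refine ⟨Nat.find hex - 1, ?_, ?_⟩
    · by_contra hcon
      exact Nat.find_min hex (by omega) hcon
    · rwa [show Nat.find hex - 1 + 1 = Nat.find hex by omega]
  obtain ⟨s, hs⟩ := hmP
  have hm1 : 1 ≤ m := by
    by_contra h0
    apply hmN
    have : m = 0 := by omega
    subst this
    exact ⟨fun _ => v₀, by intro i hi j hj _; omega, by intro i hi; omega⟩
  have hmn : m ≤ n := hs.le_card
  -- neighbours of the ends lie on the path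
  have hfront : ∀ v, G.Adj (s 0) v → ∃ i < m, s i = v := by
    intro v hv
    by_contra hcon
    push Not at hcon
    exact hmN ⟨_, hs.cons hv.symm hcon⟩
  have hback : ∀ v, G.Adj (s (m - 1)) v → ∃ i < m, s i = v := by
    intro v hv
    by_contra hcon
    push Not at hcon
    refine hmN ⟨_, hs.reverse.cons (v := v) ?_ ?_⟩
    · simpa using hv.symm
    · intro i hi; exact hcon _ (by omega)
  let A := (range (m - 1)).filter fun i => G.Adj (s 0) (s (i + 1))
  let B := (range (m - 1)).filter fun i => G.Adj (s (m - 1)) (s i)
  have hA : δ ≤ A.card := by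
    refine (hd (s 0)).trans ?_
    rw [← card_neighborFinset_eq_degree]
    have hsub : G.neighborFinset (s 0) ⊆ A.image (fun i => s (i + 1)) := by
      intro v hv
      rw [mem_neighborFinset] at hv
      obtain ⟨i, hi, rfl⟩ := hfront v hv
      have hi0 : i ≠ 0 := by rintro rfl; exact G.irrefl hv
      refine mem_image.mpr ⟨i - 1, ?_, by rw [show i - 1 + 1 = i by omega]⟩
      refine mem_filter.mpr ⟨mem_range.mpr (by omega), ?_⟩
      rw [show i - 1 + 1 = i by omega]; exact hv
    exact (card_le_card hsub).trans card_image_le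
  have hB : δ ≤ B.card := by
    refine (hd (s (m - 1))).trans ?_
    rw [← card_neighborFinset_eq_degree]
    have hsub : G.neighborFinset (s (m - 1)) ⊆ B.image s := by
      intro v hv
      rw [mem_neighborFinset] at hv
      obtain ⟨i, hi, rfl⟩ := hback v hv
      have hi0 : i ≠ m - 1 := by rintro rfl; exact G.irrefl hv
      exact mem_image.mpr ⟨i, mem_filter.mpr ⟨mem_range.mpr (by omega), hv⟩, rfl⟩
    exact (card_le_card hsub).trans card_image_le
  have hAm : A.card ≤ m - 1 := (card_filter_le _ _).trans (by rw [card_range])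
  obtain ⟨i, hi⟩ : (A ∩ B).Nonempty := by
    rw [← card_pos]
    have h1 := card_union_add_card_inter A B
    have h2 : (A ∪ B).card ≤ m - 1 := by
      have : A ∪ B ⊆ range (m - 1) := union_subset (filter_subset _ _) (filter_subset _ _)
      exact (card_le_card this).trans (by rw [card_range])
    omega
  obtain ⟨hiA, hiB⟩ := mem_inter.mp hi
  obtain ⟨him, hia⟩ := mem_filter.mp hiA
  obtain ⟨_, hib⟩ := mem_filter.mp hiB
  rw [mem_range] at him
  -- the cycle
  let c : ℕ → V := fun t => if t ≤ i then s t else s (m + i - t)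
  have c1 : ∀ t ≤ i, c t = s t := fun t ht => if_pos ht
  have c2 : ∀ t, i < t → c t = s (m + i - t) := fun t ht => if_neg (by omega)
  have hc : PathSeq G m c := by
    refine ⟨?_, ?_⟩
    · intro a ha b hb hab
      rcases Nat.lt_or_ge i a with h1 | h1 <;> rcases Nat.lt_or_ge i b with h2 | h2
      · rw [c2 a h1, c2 b h2] at hab
        have := hs.inj _ (by omega) _ (by omega) hab
        omega
      · rw [c2 a h1, c1 b h2] at hab
        have := hs.inj _ (by omega) _ (by omega) hab
        omega
      · rw [c1 a h1, c2 b h2] at hab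
        have := hs.inj _ (by omega) _ (by omega) hab
        omega
      · rw [c1 a h1, c1 b h2] at hab
        exact hs.inj _ (by omega) _ (by omega) hab
    · intro a ha
      rcases Nat.lt_trichotomy a i with h1 | h1 | h1
      · rw [c1 a h1.le, c1 (a + 1) (by omega)]; exact hs.adj _ (by omega)
      · subst h1
        rw [c1 a le_rfl, c2 (a + 1) (by omega), show m + a - (a + 1) = m - 1 by omega]
        exact hib.symm
      · rw [c2 a h1, c2 (a + 1) (by omega)]
        have := hs.adj (m + i - (a + 1)) (by omega)
        rw [show m + i - (a + 1) + 1 = m + i - a by omega] at this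
        exact this.symm
  have hclose : G.Adj (c (m - 1)) (c 0) := by
    rw [c1 0 (by omega), c2 (m - 1) (by omega), show m + i - (m - 1) = i + 1 by omega]
    exact hia.symm
  -- it is Hamiltonian
  by_cases hmn' : m = n
  · rw [← hmn']; exact ⟨c, hc, hclose⟩
  · exfalso
    have himg : ((range m).image c).card = m := by
      rw [card_image_of_injOn, card_range]
      intro a ha b hb hab
      exact hc.inj a (mem_range.mp ha) b (mem_range.mp hb) hab
    obtain ⟨v, hv⟩ : ∃ v, v ∉ (range m).image c := by
      by_contra hcon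
      push Not at hcon
      have : (range m).image c = univ := eq_univ_of_forall hcon
      rw [this, card_univ] at himg
      omega
    obtain ⟨w, hw⟩ : (G.neighborFinset v ∩ (range m).image c).Nonempty := by
      rw [← card_pos]
      have h1 := card_union_add_card_inter (G.neighborFinset v) ((range m).image c)
      have h2 : (G.neighborFinset v ∪ (range m).image c).card ≤ n := card_le_univ _
      have h3 := hd v
      rw [himg, card_neighborFinset_eq_degree] at h1
      omega
    obtain ⟨hw1, hw2⟩ := mem_inter.mp hw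
    obtain ⟨j, hj, rfl⟩ := mem_image.mp hw2
    rw [mem_range] at hj
    rw [mem_neighborFinset] at hw1
    have hm2 : 1 < m := by omega
    have hrot := rotate hc hm2 hclose j
    refine hmN ⟨_, hrot.cons (v := v) ?_ ?_⟩
    · rw [add_zero, Nat.mod_eq_of_lt hj]; exact hw1
    · intro a _ he
      apply hv
      rw [← he]
      exact mem_image_of_mem _ (mem_range.mpr (Nat.mod_lt _ (by omega)))

open Classical in
/-- Bondy: all cycle lengths -/
theorem pancyclic [Fintype V] {δ : ℕ} (hd : ∀ v, δ ≤ G.degree v)
    (h : Fintype.card V < 2 * δ) {l : ℕ} (hl : 3 ≤ l) (hln : l ≤ Fintype.card V) :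
    cycleGraph l ⊑ G := by
  set n := Fintype.card V with hn
  obtain ⟨s, hs, hclose⟩ := dirac hd (by omega) h
  rw [← hn] at hs hclose
  rcases Nat.eq_or_lt_of_le hln with heq | hlt
  · rw [heq]
    exact cycle_of_seq G (by omega) s hs.inj hs.adj hclose
  by_contra hcon
  -- every vertex is on the cycle
  have hall : ∀ v, ∃ i < n, s i = v := by
    intro v
    have himg : ((range n).image s).card = n := by
      rw [card_image_of_injOn, card_range]
      intro a ha b hb hab
      exact hs.inj a (mem_range.mp ha) b (mem_range.mp hb) hab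
    have : (range n).image s = univ := (card_eq_iff_eq_univ _).mp (by rw [himg])
    have hv : v ∈ (range n).image s := by rw [this]; exact mem_univ v
    obtain ⟨i, hi, rfl⟩ := mem_image.mp hv
    exact ⟨i, mem_range.mp hi, rfl⟩
  -- the two kinds of chords
  have k1 : ∀ a, 1 ≤ a → a + l ≤ n + 1 → G.Adj (s 0) (s a) →
      ¬ G.Adj (s (n - 1)) (s (a + l - 3)) := by
    intro a ha1 ha2 h1 h2
    apply hcon
    let c : ℕ → V := fun t => if t = 0 then s 0 else if t = l - 1 then s (n - 1) else s (a + t - 1)
    have c0 : c 0 = s 0 := rfl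
    have c1 : c (l - 1) = s (n - 1) := by
      change (if l - 1 = 0 then s 0 else if l - 1 = l - 1 then s (n - 1) else s (a + (l - 1) - 1)) = _
      rw [if_neg (by omega), if_pos rfl]
    have c2 : ∀ t, 1 ≤ t → t < l - 1 → c t = s (a + t - 1) := by
      intro t ht ht'
      change (if t = 0 then s 0 else if t = l - 1 then s (n - 1) else s (a + t - 1)) = _
      rw [if_neg (by omega), if_neg (by omega)]
    have cases3 : ∀ t, t < l → t = 0 ∨ t = l - 1 ∨ (1 ≤ t ∧ t < l - 1) := by
      intro t ht; omega
    apply cycle_of_seq G hl c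
    · intro i hi j hj hij
      rcases cases3 i hi with rfl | rfl | ⟨h3, h4⟩ <;> rcases cases3 j hj with rfl | rfl | ⟨h5, h6⟩
      · rfl
      · rw [c0, c1] at hij
        have := hs.inj _ (by omega) _ (by omega) hij; omega
      · rw [c0, c2 j h5 h6] at hij
        have := hs.inj _ (by omega) _ (by omega) hij; omega
      · rw [c0, c1] at hij
        have := hs.inj _ (by omega) _ (by omega) hij; omega
      · rfl
      · rw [c1, c2 j h5 h6] at hij
        have := hs.inj _ (by omega) _ (by omega) hij; omega
      · rw [c0, c2 i h3 h4] at hij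
        have := hs.inj _ (by omega) _ (by omega) hij; omega
      · rw [c1, c2 i h3 h4] at hij
        have := hs.inj _ (by omega) _ (by omega) hij; omega
      · rw [c2 i h3 h4, c2 j h5 h6] at hij
        have := hs.inj _ (by omega) _ (by omega) hij; omega
    · intro i hi
      rcases cases3 i (by omega) with rfl | rfl | ⟨h3, h4⟩
      · rw [c0, c2 (0 + 1) (by omega) (by omega), show a + (0 + 1) - 1 = a by omega]; exact h1
      · omega
      · rw [c2 i h3 h4]
        by_cases h5 : i + 1 = l - 1
        · rw [h5, c1, show a + i - 1 = a + l - 3 by omega]; exact h2.symm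
        · rw [c2 (i + 1) (by omega) (by omega)]
          have := hs.adj (a + i - 1) (by omega)
          rwa [show a + i - 1 + 1 = a + (i + 1) - 1 by omega] at this
    · rw [c1, c0]; exact hclose
  have k2 : ∀ a, n + 2 ≤ a + l → a ≤ n - 2 → G.Adj (s 0) (s a) →
      ¬ G.Adj (s (n - 1)) (s (a + l - n - 1)) := by
    intro a ha1 ha2 h1 h2
    apply hcon
    let b := a + l - n - 1
    have hb : a + l = n + 1 + b := by omega
    let c : ℕ → V := fun t => if t = 0 then s 0 else if t ≤ n - a then s (a + t - 1) else
      s (b + (n - a + 1) - t)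
    have c0 : c 0 = s 0 := rfl
    have c1 : ∀ t, 1 ≤ t → t ≤ n - a → c t = s (a + t - 1) := by
      intro t ht ht'
      change (if t = 0 then s 0 else if t ≤ n - a then s (a + t - 1) else
        s (b + (n - a + 1) - t)) = _
      rw [if_neg (by omega), if_pos ht']
    have c2 : ∀ t, n - a < t → c t = s (b + (n - a + 1) - t) := by
      intro t ht
      change (if t = 0 then s 0 else if t ≤ n - a then s (a + t - 1) else
        s (b + (n - a + 1) - t)) = _
      rw [if_neg (by omega), if_neg (by omega)]
    have cases3 : ∀ t, t < l → t = 0 ∨ (1 ≤ t ∧ t ≤ n - a) ∨ (n - a < t) := by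
      intro t ht; omega
    have hba : b < a := by omega
    apply cycle_of_seq G hl c
    · intro i hi j hj hij
      rcases cases3 i hi with rfl | ⟨h3, h4⟩ | h3 <;> rcases cases3 j hj with rfl | ⟨h5, h6⟩ | h5
      · rfl
      · rw [c0, c1 j h5 h6] at hij
        have := hs.inj _ (by omega) _ (by omega) hij; omega
      · rw [c0, c2 j h5] at hij
        have := hs.inj _ (by omega) _ (by omega) hij; omega
      · rw [c0, c1 i h3 h4] at hij
        have := hs.inj _ (by omega) _ (by omega) hij; omega
      · rw [c1 i h3 h4, c1 j h5 h6] at hij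
        have := hs.inj _ (by omega) _ (by omega) hij; omega
      · rw [c1 i h3 h4, c2 j h5] at hij
        have := hs.inj _ (by omega) _ (by omega) hij; omega
      · rw [c0, c2 i h3] at hij
        have := hs.inj _ (by omega) _ (by omega) hij; omega
      · rw [c1 j h5 h6, c2 i h3] at hij
        have := hs.inj _ (by omega) _ (by omega) hij; omega
      · rw [c2 i h3, c2 j h5] at hij
        have := hs.inj _ (by omega) _ (by omega) hij; omega
    · intro i hi
      rcases cases3 i (by omega) with rfl | ⟨h3, h4⟩ | h3
      · rw [c0, c1 (0 + 1) (by omega) (by omega), show a + (0 + 1) - 1 = a by omega]; exact h1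
      · rw [c1 i h3 h4]
        by_cases h5 : i + 1 ≤ n - a
        · rw [c1 (i + 1) (by omega) h5]
          have := hs.adj (a + i - 1) (by omega)
          rwa [show a + i - 1 + 1 = a + (i + 1) - 1 by omega] at this
        · rw [c2 (i + 1) (by omega), show a + i - 1 = n - 1 by omega,
            show b + (n - a + 1) - (i + 1) = b by omega]
          exact h2
      · rw [c2 i h3, c2 (i + 1) (by omega)]
        have := hs.adj (b + (n - a + 1) - (i + 1)) (by omega)
        rw [show b + (n - a + 1) - (i + 1) + 1 = b + (n - a + 1) - i by omega] at this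
        exact this.symm
    · by_cases h5 : l - 1 ≤ n - a
      · omega
      · rw [c2 (l - 1) (by omega), c0, show b + (n - a + 1) - (l - 1) = 1 by omega]
        have := hs.adj 0 (by omega)
        exact this.symm
  -- counting
  let A := (Ico 1 (n - 1)).filter fun a => G.Adj (s 0) (s a)
  let B := (Ico 1 (n - 1)).filter fun a => G.Adj (s (n - 1)) (s a)
  let φ : ℕ → ℕ := fun a => if a + l ≤ n + 1 then a + l - 3 else a + l - n - 1
  have hφA : A.image φ ⊆ (Ico 1 (n - 1)) \ B := by
    intro b hb
    obtain ⟨a, ha, rfl⟩ := mem_image.mp hb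
    obtain ⟨ha1, ha2⟩ := mem_filter.mp ha
    rw [mem_Ico] at ha1
    rw [mem_sdiff, mem_Ico, mem_filter, not_and]
    by_cases h3 : a + l ≤ n + 1
    · have e : φ a = a + l - 3 := if_pos h3
      rw [e]
      exact ⟨by omega, fun _ => k1 a ha1.1 h3 ha2⟩
    · have e : φ a = a + l - n - 1 := if_neg h3
      rw [e]
      exact ⟨by omega, fun _ => k2 a (by omega) (by omega) ha2⟩
  have hφinj : Set.InjOn φ (A : Set ℕ) := by
    intro a ha b hb hab
    have ha1 := mem_Ico.mp (mem_filter.mp (mem_coe.mp ha)).1
    have hb1 := mem_Ico.mp (mem_filter.mp (mem_coe.mp hb)).1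
    simp only [φ] at hab
    split_ifs at hab <;> omega
  have hAB : A.card + B.card ≤ n - 2 := by
    have h1 : A.card = (A.image φ).card := (card_image_of_injOn hφinj).symm
    have h2 := card_le_card hφA
    have h3 : B ⊆ Ico 1 (n - 1) := filter_subset _ _
    rw [card_sdiff_of_subset h3, Nat.card_Ico] at h2
    have h4 := card_le_card h3
    rw [Nat.card_Ico] at h4
    omega
  have hA : δ ≤ A.card + 1 := by
    refine (hd (s 0)).trans ?_
    rw [← card_neighborFinset_eq_degree]
    have hsub : G.neighborFinset (s 0) ⊆ insert (s (n - 1)) (A.image s) := by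
      intro v hv
      rw [mem_neighborFinset] at hv
      obtain ⟨i, hi, rfl⟩ := hall v
      have hi0 : i ≠ 0 := by rintro rfl; exact G.irrefl hv
      by_cases h1 : i = n - 1
      · rw [h1]; exact mem_insert_self _ _
      · exact mem_insert_of_mem (mem_image_of_mem _ (mem_filter.mpr
          ⟨mem_Ico.mpr ⟨by omega, by omega⟩, hv⟩))
    exact (card_le_card hsub).trans ((card_insert_le _ _).trans
      (Nat.add_le_add_right card_image_le 1))
  have hB : δ ≤ B.card + 1 := by
    refine (hd (s (n - 1))).trans ?_
    rw [← card_neighborFinset_eq_degree]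
    have hsub : G.neighborFinset (s (n - 1)) ⊆ insert (s 0) (B.image s) := by
      intro v hv
      rw [mem_neighborFinset] at hv
      obtain ⟨i, hi, rfl⟩ := hall v
      have hi0 : i ≠ n - 1 := by rintro rfl; exact G.irrefl hv
      by_cases h1 : i = 0
      · rw [h1]; exact mem_insert_self _ _
      · exact mem_insert_of_mem (mem_image_of_mem _ (mem_filter.mpr
          ⟨mem_Ico.mpr ⟨by omega, by omega⟩, hv⟩))
    exact (card_le_card hsub).trans ((card_insert_le _ _).trans
      (Nat.add_le_add_right card_image_le 1))
  omega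

end Pool.Agent.LibDFG
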