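import Mathlib
import Pool.Agent.LibDFG.Dense
import Pool.Agent.LibDFG.Pancyclic
import Pool.Agent.LibDFG.CliqueLower

/-!
The threshold of the cycles of length at least `8`.
-/

namespace Pool.Agent.LibDFG

open SimpleGraph Finset

theorem long_cycle_arith {s n δ : ℕ} (hs : 2 ≤ s) (hn : n ≤ 3 * s + 3)
    (h : 2 * s * n < (3 * s + 1) * δ) : 2 * n ≤ 3 * δ + 1 := by
  by_contra hcon
  push Not at hcon
  have h3 : 3 * δ + 2 ≤ 2 * n := by omega
  rcases Nat.lt_or_ge n (3 * s + 2) with h1 | h1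
  · -- `n ≤ 3 s + 1`
    have e1 : 3 * (2 * s * n) < (3 * s + 1) * (3 * δ) := by nlinarith
    have e2 : (3 * s + 1) * (3 * δ) + (3 * s + 1) * 2 ≤ (3 * s + 1) * (2 * n) := by
      rw [← mul_add]; exact Nat.mul_le_mul_left _ h3
    nlinarith
  · rcases Nat.lt_or_ge n (3 * s + 3) with h2 | h2
    · have hn' : n = 3 * s + 2 := by omega
      subst hn'
      have hδ : δ ≤ 2 * s := by omega
      nlinarith
    · have hn' : n = 3 * s + 3 := by omega
      subst hn'
      have hδ : δ ≤ 2 * s + 1 := by omega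
      nlinarith

open Classical in
theorem long_cycle (l : ℕ) (hl : 8 ≤ l) :
    deltaCyc (cycleGraph l) = 2 * (((l - 2) / 3 : ℕ) : ℝ) / (3 * (((l - 2) / 3 : ℕ) : ℝ) + 1) := by
  set s := (l - 2) / 3 with hsdef
  have hs : 2 ≤ s := by omega
  have hl1 : 3 * s + 2 ≤ l := by omega
  have hl2 : l ≤ 3 * s + 4 := by omega
  have hpos : (0 : ℝ) < 3 * (s : ℝ) + 1 := by positivity
  have hmem : (2 * (s : ℝ)) / (3 * (s : ℝ) + 1) ∈
      {α : ℝ | 0 ≤ α ∧ CycAbove (cycleGraph l) α} := by
    refine ⟨by positivity, ?_⟩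
    intro V _ G hfree hlt x
    have hlt' : 2 * s * Fintype.card V < (3 * s + 1) * G.minDegree := by
      rw [div_mul_eq_mul_div, div_lt_iff₀ hpos] at hlt
      have h2 : ((2 * s * Fintype.card V : ℕ) : ℝ) < (((3 * s + 1) * G.minDegree : ℕ) : ℝ) := by
        push_cast
        calc 2 * (s : ℝ) * (Fintype.card V : ℝ) < (G.minDegree : ℝ) * (3 * (s : ℝ) + 1) := hlt
          _ = _ := by ring
      exact_mod_cast h2
    have hd : ∀ v, G.minDegree ≤ G.degree v := fun v => G.minDegree_le_degree v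
    have hhalf : Fintype.card V < 2 * G.minDegree := by nlinarith
    have hcard : Fintype.card V < l := by
      by_contra hge
      push Not at hge
      exact hfree (pancyclic hd hhalf (by omega) hge)
    exact cyclic_dense G hd (long_cycle_arith hs (by omega) hlt') x
  have hlow : ∀ α ∈ {α : ℝ | 0 ≤ α ∧ CycAbove (cycleGraph l) α},
      (2 * (s : ℝ)) / (3 * (s : ℝ) + 1) ≤ α := by
    rintro α ⟨_, hα⟩
    by_contra hlt
    push Not at hlt
    have h2 : Fintype.card (Fin (s + 1) ⊕ (Bool × Fin s)) = 3 * s + 1 := by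
      simp; ring
    refine exG_not_cyclic s hs (hα _ (exG s) ?_ ?_ (.inl 0))
    · rintro ⟨φ⟩
      have := Fintype.card_le_of_injective φ φ.injective
      rw [Fintype.card_fin, h2] at this
      omega
    · have h1 : 2 * s ≤ (exG s).minDegree :=
        le_minDegree_of_forall_le_degree _ _ (fun v => exG_degree s (by omega) v)
      rw [h2]
      have h3 : (2 * (s : ℝ)) ≤ ((exG s).minDegree : ℝ) := by exact_mod_cast h1
      rw [lt_div_iff₀ hpos] at hlt
      push_cast
      exact lt_of_lt_of_le hlt h3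
  apply le_antisymm
  · exact csInf_le ⟨0, fun α hα => hα.1⟩ hmem
  · exact le_csInf ⟨_, hmem⟩ hlow

end Pool.Agent.LibDFG
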