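import Mathlib
import Pool.Agent.LibDFG.Few
import Pool.Agent.LibDFG.BipUpper

/-!
A graph without a fixed odd cycle of length at least `5` and with minimum degree above `3 n / 10`
is bipartite when `n` is large.
-/

namespace Pool.Agent.LibDFG

open SimpleGraph Finset Function

open Classical in
theorem eAB_comm {V : Type} [Fintype V] (G : SimpleGraph V) (A B : Finset V) :
    eAB G A B = eAB G B A := by
  unfold eAB
  apply card_bij (fun (p : V × V) _ => (p.2, p.1))
  · intro p hp
    simp only [mem_filter, mem_product] at hp ⊢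
    exact ⟨⟨hp.1.2, hp.1.1⟩, hp.2.symm⟩
  · rintro ⟨a, b⟩ _ ⟨a', b'⟩ _ h
    simp only [Prod.mk.injEq] at h
    rw [h.1, h.2]
  · rintro ⟨a, b⟩ hp
    simp only [mem_filter, mem_product] at hp
    exact ⟨(b, a), by simp only [mem_filter, mem_product]; exact ⟨⟨hp.1.2, hp.1.1⟩, hp.2.symm⟩, rfl⟩

open Classical in
theorem eAB_eq_sum {V : Type} [Fintype V] (G : SimpleGraph V) (A B : Finset V) :
    eAB G A B = ∑ a ∈ A, (B.filter fun b => G.Adj a b).card := by
  unfold eAB
  rw [card_filter, sum_product]
  apply sum_congr rfl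
  intro a _
  rw [card_filter]

open Classical in
theorem eAB_biUnion_le {V : Type} [Fintype V] (G : SimpleGraph V) (r : ℕ) (N : ℕ → Finset V) :
    eAB G ((range r).biUnion N) ((range r).biUnion N) ≤
      ∑ i ∈ range r, ∑ j ∈ range r, eAB G (N i) (N j) := by
  have hsub : (((range r).biUnion N ×ˢ (range r).biUnion N).filter fun p => G.Adj p.1 p.2) ⊆
      (range r).biUnion fun i => (range r).biUnion fun j =>
        (N i ×ˢ N j).filter fun p => G.Adj p.1 p.2 := by
    intro p hp
    simp only [mem_filter, mem_product, mem_biUnion] at hp ⊢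
    obtain ⟨⟨⟨i, hi, h1⟩, ⟨j, hj, h2⟩⟩, h3⟩ := hp
    exact ⟨i, hi, j, hj, ⟨h1, h2⟩, h3⟩
  refine (card_le_card hsub).trans (card_biUnion_le.trans ?_)
  apply sum_le_sum
  intro i _
  exact card_biUnion_le

open Classical in
theorem eAB_self_lower {V : Type} [Fintype V] (G : SimpleGraph V) (U : Finset V) {δ : ℕ}
    (hd : ∀ v, δ ≤ G.degree v) :
    U.card * (δ + U.card) ≤ eAB G U U + U.card * Fintype.card V := by
  rw [eAB_eq_sum]
  have h1 : ∀ a ∈ U, δ + U.card ≤ (U.filter fun b => G.Adj a b).card + Fintype.card V := by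
    intro a _
    have h2 := card_union_add_card_inter (G.neighborFinset a) U
    have h3 : (G.neighborFinset a ∪ U).card ≤ Fintype.card V := card_le_univ _
    have h4 : G.neighborFinset a ∩ U = U.filter fun b => G.Adj a b := by
      ext b; simp [and_comm]
    rw [h4, card_neighborFinset_eq_degree] at h2
    have := hd a
    omega
  calc U.card * (δ + U.card) = ∑ a ∈ U, (δ + U.card) := by rw [sum_const, smul_eq_mul]
    _ ≤ ∑ a ∈ U, ((U.filter fun b => G.Adj a b).card + Fintype.card V) := sum_le_sum h1
    _ = _ := by rw [sum_add_distrib, sum_const, smul_eq_mul]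

open Classical in
theorem eAB_univ_lower {V : Type} [Fintype V] (G : SimpleGraph V) (A : Finset V) {δ : ℕ}
    (hd : ∀ v, δ ≤ G.degree v) : A.card * δ ≤ eAB G A univ := by
  rw [eAB_eq_sum]
  calc A.card * δ = ∑ a ∈ A, δ := by rw [sum_const, smul_eq_mul]
    _ ≤ _ := by
      apply sum_le_sum
      intro a _
      have : (univ.filter fun b => G.Adj a b) = G.neighborFinset a := by ext b; simp
      rw [this, card_neighborFinset_eq_degree]
      exact hd a

open Classical in
/-- on a short odd closed path all pairs of neighbourhoods span few edges -/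
theorem few_closed (k p : ℕ) (hp : Odd p) (hpk : p < 2 * k + 1) (c : ℝ) (hc : 0 < c) : ∃ n0 : ℕ,
    ∀ (V : Type) [Fintype V], n0 ≤ Fintype.card V → ∀ (G : SimpleGraph V),
      (cycleGraph (2 * k + 1)).Free G → ∀ q : ℕ → V, (∀ i, q (i + p) = q i) →
      (∀ i < p, ∀ j < p, q i = q j → i = j) → (∀ i, G.Adj (q i) (q (i + 1))) →
      ∀ i < p, ∀ j < p, (eAB G (G.neighborFinset (q i)) (G.neighborFinset (q j)) : ℝ) <
        c * (Fintype.card V : ℝ) ^ 2 := by
  have hch : ∀ d : ℕ, ∃ n0 : ℕ, Even d → d < p →
      ∀ (V : Type) [Fintype V], n0 ≤ Fintype.card V → ∀ (G : SimpleGraph V),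
      (cycleGraph (2 * k + 1)).Free G → ∀ q : ℕ → V,
      (∀ a ≤ d, ∀ b ≤ d, q a = q b → a = b) → (∀ a < d, G.Adj (q a) (q (a + 1))) →
      (eAB G (G.neighborFinset (q d)) (G.neighborFinset (q 0)) : ℝ) <
        c * (Fintype.card V : ℝ) ^ 2 := by
    intro d
    by_cases hd : Even d ∧ d < p
    · obtain ⟨t, ht⟩ := hd.1
      obtain ⟨n0, hn0⟩ := few_path d (k - t) (by omega) c hc
      refine ⟨n0, fun _ _ V _ hV G hfree q hq hqa => ?_⟩
      apply hn0 V hV G _ q hq hqa
      have : d + 1 + 2 * (k - t) = 2 * k + 1 := by omega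
      rw [this]; exact hfree
    · exact ⟨0, fun h1 h2 => absurd ⟨h1, h2⟩ hd⟩
  choose n0 hn0 using hch
  refine ⟨(range p).sup n0, fun V _ hV G hfree q hper hinj hadj => ?_⟩
  have hn : ∀ d < p, n0 d ≤ Fintype.card V := fun d hd =>
    (le_sup (f := n0) (mem_range.mpr hd)).trans hV
  have hp0 : 0 < p := by obtain ⟨t, ht⟩ := hp; omega
  have hmod : ∀ x, q x = q (x % p) := by
    intro x
    have h1 : ∀ s y, q (y + p * s) = q y := by
      intro s
      induction s with
      | zero => intro y; rw [mul_zero, add_zero]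
      | succ s ih => intro y; rw [mul_add, mul_one, ← add_assoc, hper, ih]
    conv_lhs => rw [← Nat.mod_add_div x p]
    exact h1 _ _
  have hinj' : ∀ x y, q x = q y → x % p = y % p := by
    intro x y h
    rw [hmod x, hmod y] at h
    exact hinj _ (Nat.mod_lt _ hp0) _ (Nat.mod_lt _ hp0) h
  have key : ∀ x d, d < p → Even d →
      (eAB G (G.neighborFinset (q (x + d))) (G.neighborFinset (q x)) : ℝ) <
        c * (Fintype.card V : ℝ) ^ 2 := by
    intro x d hd he
    have := hn0 d he hd V (hn d hd) G hfree (fun a => q (x + a)) ?_ ?_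
    · simpa using this
    · intro a ha b hb hab
      have h1 := hinj' _ _ hab
      have h2 : a ≡ b [MOD p] := Nat.ModEq.add_left_cancel' x h1
      exact Nat.ModEq.eq_of_lt_of_lt h2 (by omega) (by omega)
    · intro a _
      exact hadj (x + a)
  have main : ∀ i < p, ∀ j < p, j ≤ i →
      (eAB G (G.neighborFinset (q i)) (G.neighborFinset (q j)) : ℝ) <
        c * (Fintype.card V : ℝ) ^ 2 := by
    intro i hi j hj hji
    rcases Nat.even_or_odd (i - j) with he | ho
    · have := key j (i - j) (by omega) he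
      rwa [show j + (i - j) = i by omega] at this
    · have h1 : 1 ≤ i - j := by obtain ⟨t, ht⟩ := ho; omega
      have h2 : Even (p - (i - j)) := by
        obtain ⟨t, ht⟩ := ho
        obtain ⟨u, hu⟩ := hp
        exact ⟨u - t, by omega⟩
      have := key i (p - (i - j)) (by omega) h2
      rw [show i + (p - (i - j)) = j + p by omega, hper, eAB_comm] at this
      exact this
  intro i hi j hj
  rcases Nat.le_total j i with h | h
  · exact main i hi j hj h
  · rw [eAB_comm]; exact main j hj i hi h

open Classical in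
/-- no short odd closed path if the neighbourhoods cover a large part -/
theorem cover_contra {V : Type} [Fintype V] (G : SimpleGraph V) {δ : ℕ}
    (hd : ∀ v, δ ≤ G.degree v) (r : ℕ) (N : ℕ → Finset V) (c u : ℝ)
    (hfew : ∀ i < r, ∀ j < r, (eAB G (N i) (N j) : ℝ) < c * (Fintype.card V : ℝ) ^ 2)
    (hδ : 3 / 10 * (Fintype.card V : ℝ) < δ) (hu : 7 / 10 ≤ u)
    (hU : u * (Fintype.card V : ℝ) ≤ (((range r).biUnion N).card : ℝ)) (hn : 0 < Fintype.card V)
    (hcu : (r : ℝ) ^ 2 * c ≤ u * (u - 7 / 10)) : False := by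
  set n : ℝ := (Fintype.card V : ℝ) with hndef
  have hn0 : 0 < n := by rw [hndef]; exact_mod_cast hn
  set U := (range r).biUnion N with hUdef
  have h1 : (eAB G U U : ℝ) ≤ (r : ℝ) ^ 2 * c * n ^ 2 := by
    have h2 : (eAB G U U : ℝ) ≤ ∑ i ∈ range r, ∑ j ∈ range r, (eAB G (N i) (N j) : ℝ) := by
      exact_mod_cast eAB_biUnion_le G r N
    refine h2.trans ?_
    calc ∑ i ∈ range r, ∑ j ∈ range r, (eAB G (N i) (N j) : ℝ)
        ≤ ∑ i ∈ range r, ∑ j ∈ range r, c * n ^ 2 := by
          apply sum_le_sum; intro i hi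
          apply sum_le_sum; intro j hj
          exact (hfew i (mem_range.mp hi) j (mem_range.mp hj)).le
      _ = _ := by simp only [sum_const, card_range, nsmul_eq_mul]; ring
  have h3 : (U.card : ℝ) * (δ + U.card) ≤ (eAB G U U : ℝ) + U.card * n := by
    rw [hndef]; exact_mod_cast eAB_self_lower G U hd
  set a : ℝ := (U.card : ℝ) with hadef
  have ha : u * n ≤ a := hU
  have hun : 0 < u * n := mul_pos (by linarith) hn0
  have h4 : a * (δ + a - n) ≤ (r : ℝ) ^ 2 * c * n ^ 2 := by nlinarith
  have h5 : (u - 7 / 10) * n < δ + a - n := by nlinarith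
  have h6 : 0 ≤ (u - 7 / 10) * n := mul_nonneg (by linarith) hn0.le
  have h7 : u * n * ((u - 7 / 10) * n) < a * (δ + a - n) := by
    calc u * n * ((u - 7 / 10) * n) ≤ a * ((u - 7 / 10) * n) := mul_le_mul_of_nonneg_right ha h6
      _ < a * (δ + a - n) := mul_lt_mul_of_pos_left h5 (by linarith)
  have h8 : (r : ℝ) ^ 2 * c * n ^ 2 ≤ u * n * ((u - 7 / 10) * n) := by
    calc (r : ℝ) ^ 2 * c * n ^ 2 ≤ (u * (u - 7 / 10)) * n ^ 2 :=
          mul_le_mul_of_nonneg_right hcu (by positivity)
      _ = _ := by ring
  linarith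

theorem five_le (b0 b1 b2 b3 b4 : Prop) [Decidable b0] [Decidable b1] [Decidable b2]
    [Decidable b3] [Decidable b4] (m01 : b0 → b1 → False) (m12 : b1 → b2 → False)
    (m23 : b2 → b3 → False) (m34 : b3 → b4 → False) (m40 : b4 → b0 → False) :
    0 + (if b0 then 1 else 0) + (if b1 then 1 else 0) + (if b2 then 1 else 0) +
      (if b3 then 1 else 0) + (if b4 then 1 else 0) ≤ 2 := by
  by_cases h0 : b0
  · rw [if_neg (fun h => m01 h0 h), if_neg (fun h => m40 h h0)]
    by_cases h2 : b2
    · rw [if_neg (fun h => m23 h2 h), if_pos h0, if_pos h2]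
    · rw [if_neg h2, if_pos h0]; split_ifs <;> omega
  · rw [if_neg h0]
    by_cases h1 : b1
    · rw [if_neg (fun h => m12 h1 h)]
      by_cases h3 : b3
      · rw [if_neg (fun h => m34 h3 h)]; split_ifs <;> omega
      · rw [if_neg h3]; split_ifs <;> omega
    · rw [if_neg h1]
      by_cases h3 : b3
      · rw [if_neg (fun h => m34 h3 h)]; split_ifs <;> omega
      · rw [if_neg h3]; split_ifs <;> omega

open Classical in
/-- large graphs of this kind are bipartite -/
theorem odd_bipartite (k : ℕ) (hk : 2 ≤ k) : ∃ n0 : ℕ, ∀ (V : Type) [Fintype V],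
    n0 ≤ Fintype.card V → ∀ (G : SimpleGraph V), (cycleGraph (2 * k + 1)).Free G →
      ∀ δ : ℕ, (∀ v, δ ≤ G.degree v) → 3 * Fintype.card V < 10 * δ → G.Colorable 2 := by
  obtain ⟨n1, hn1⟩ := few_closed k 3 (by decide) (by omega) (1 / 1000) (by norm_num)
  obtain ⟨n2, hn2⟩ := few_common (k - 1) (by omega) (3 / 1000) (by norm_num)
  have h5ex : ∃ n3 : ℕ, 3 ≤ k →
    ∀ (V : Type) [Fintype V], n3 ≤ Fintype.card V → ∀ (G : SimpleGraph V),
      (cycleGraph (2 * k + 1)).Free G → ∀ q : ℕ → V, (∀ i, q (i + 5) = q i) →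
      (∀ i < 5, ∀ j < 5, q i = q j → i = j) → (∀ i, G.Adj (q i) (q (i + 1))) →
      ∀ i < 5, ∀ j < 5, (eAB G (G.neighborFinset (q i)) (G.neighborFinset (q j)) : ℝ) <
        1 / 1000 * (Fintype.card V : ℝ) ^ 2 := by
    by_cases h : 3 ≤ k
    · obtain ⟨n3, hn3⟩ := few_closed k 5 (by decide) (by omega) (1 / 1000) (by norm_num)
      exact ⟨n3, fun _ => hn3⟩
    · exact ⟨0, fun h' => absurd h' h⟩
  obtain ⟨n3, hn3⟩ := h5ex
  refine ⟨max (max n1 n2) (max n3 1), fun V _ hV G hfree δ hd hδ => ?_⟩
  have hV1 : n1 ≤ Fintype.card V := by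
    exact le_trans (le_trans (le_max_left _ _) (le_max_left _ _)) hV
  have hV2 : n2 ≤ Fintype.card V := by
    exact le_trans (le_trans (le_max_right _ _) (le_max_left _ _)) hV
  have hV3 : n3 ≤ Fintype.card V := by
    exact le_trans (le_trans (le_max_left _ _) (le_max_right _ _)) hV
  have hV4 : 1 ≤ Fintype.card V := by
    exact le_trans (le_trans (le_max_right _ _) (le_max_right _ _)) hV
  have hδr : 3 / 10 * (Fintype.card V : ℝ) < δ := by
    have : (3 * Fintype.card V : ℝ) < 10 * δ := by exact_mod_cast hδ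
    linarith
  have hn0 : (0 : ℝ) < (Fintype.card V : ℝ) := by exact_mod_cast hV4
  -- no triangle
  have h3 : ¬ HasClosed G 3 := by
    intro hcl
    obtain ⟨q, hper, hadj⟩ := periodic_of_closed G (by omega) hcl
    have a01 : G.Adj (q 0) (q 1) := hadj 0
    have a12 : G.Adj (q 1) (q 2) := hadj 1
    have a20 : G.Adj (q 2) (q 0) := by
      have := hadj 2
      rwa [show 2 + 1 = 0 + 3 by norm_num, hper] at this
    have hinj : ∀ i < 3, ∀ j < 3, q i = q j → i = j := by
      intro i hi j hj h
      have ci : i = 0 ∨ i = 1 ∨ i = 2 := by omega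
      have cj : j = 0 ∨ j = 1 ∨ j = 2 := by omega
      rcases ci with rfl | rfl | rfl <;> rcases cj with rfl | rfl | rfl <;>
        first | rfl | (exact absurd h a01.ne) | (exact absurd h a12.ne) | (exact absurd h a20.ne) |
          (exact absurd h.symm a01.ne) | (exact absurd h.symm a12.ne) | (exact absurd h.symm a20.ne)
    have hfew := hn1 V hV1 G hfree q hper hinj hadj
    have hcom : ∀ x y, G.Adj x y →
        ((G.neighborFinset x ∩ G.neighborFinset y).card : ℝ) ≤
          1 / 100 * (Fintype.card V : ℝ) := by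
      intro x y hxy
      have h1 := hn2 V hV2 G (by
        have : 2 + 1 + 2 * (k - 1) = 2 * k + 1 := by omega
        rw [this]; exact hfree) x y hxy
      have h2 : (((G.neighborFinset x ∩ G.neighborFinset y).card * δ : ℕ) : ℝ) ≤
          (eAB G (G.neighborFinset x ∩ G.neighborFinset y) univ : ℝ) := by
        exact_mod_cast eAB_univ_lower G _ hd
      push_cast at h2
      by_contra hcon
      push Not at hcon
      have h3 : 1 / 100 * (Fintype.card V : ℝ) * (3 / 10 * (Fintype.card V : ℝ)) ≤
          ((G.neighborFinset x ∩ G.neighborFinset y).card : ℝ) * δ :=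
        mul_le_mul hcon.le hδr.le (by positivity) (by positivity)
      nlinarith
    have hU : 87 / 100 * (Fintype.card V : ℝ) ≤
        (((range 3).biUnion fun i => G.neighborFinset (q i)).card : ℝ) := by
      have e : (range 3).biUnion (fun i => G.neighborFinset (q i))
          = (G.neighborFinset (q 0) ∪ G.neighborFinset (q 1)) ∪ G.neighborFinset (q 2) := by
        ext v
        simp only [mem_biUnion, mem_range, mem_union]
        constructor
        · rintro ⟨i, hi, h⟩
          have ci : i = 0 ∨ i = 1 ∨ i = 2 := by omega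
          rcases ci with rfl | rfl | rfl
          · exact Or.inl (Or.inl h)
          · exact Or.inl (Or.inr h)
          · exact Or.inr h
        · rintro ((h | h) | h)
          · exact ⟨0, by norm_num, h⟩
          · exact ⟨1, by norm_num, h⟩
          · exact ⟨2, by norm_num, h⟩
      rw [e]
      have c1 := card_union_add_card_inter (G.neighborFinset (q 0) ∪ G.neighborFinset (q 1))
        (G.neighborFinset (q 2))
      have c2 := card_union_add_card_inter (G.neighborFinset (q 0)) (G.neighborFinset (q 1))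
      have c3 : ((G.neighborFinset (q 0) ∪ G.neighborFinset (q 1)) ∩
          G.neighborFinset (q 2)).card ≤ (G.neighborFinset (q 0) ∩ G.neighborFinset (q 2)).card +
            (G.neighborFinset (q 1) ∩ G.neighborFinset (q 2)).card := by
        rw [union_inter_distrib_right]
        exact card_union_le _ _
      have d0 : δ ≤ (G.neighborFinset (q 0)).card := by
        rw [card_neighborFinset_eq_degree]; exact hd _
      have d1 : δ ≤ (G.neighborFinset (q 1)).card := by
        rw [card_neighborFinset_eq_degree]; exact hd _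
      have d2 : δ ≤ (G.neighborFinset (q 2)).card := by
        rw [card_neighborFinset_eq_degree]; exact hd _
      have e1 := hcom _ _ a01
      have e2 := hcom _ _ a12
      have e3 := hcom _ _ a20.symm
      have hnat : 3 * δ ≤ ((G.neighborFinset (q 0) ∪ G.neighborFinset (q 1)) ∪
          G.neighborFinset (q 2)).card + ((G.neighborFinset (q 0) ∩ G.neighborFinset (q 2)).card +
            (G.neighborFinset (q 1) ∩ G.neighborFinset (q 2)).card +
            (G.neighborFinset (q 0) ∩ G.neighborFinset (q 1)).card) := by omega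
      have hreal : (3 : ℝ) * δ ≤ (((G.neighborFinset (q 0) ∪ G.neighborFinset (q 1)) ∪
          G.neighborFinset (q 2)).card : ℝ) +
            (((G.neighborFinset (q 0) ∩ G.neighborFinset (q 2)).card : ℝ) +
            ((G.neighborFinset (q 1) ∩ G.neighborFinset (q 2)).card : ℝ) +
            ((G.neighborFinset (q 0) ∩ G.neighborFinset (q 1)).card : ℝ)) := by
        exact_mod_cast hnat
      linarith
    exact cover_contra G hd 3 (fun i => G.neighborFinset (q i)) (1 / 1000) (87 / 100) hfew hδr
      (by norm_num) hU hV4 (by norm_num)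
  -- no pentagon
  have h5 : ¬ HasClosed G 5 := by
    intro hcl
    obtain ⟨q, hper, hadj⟩ := periodic_of_closed G (by omega) hcl
    have tri : ∀ x y z, G.Adj x y → G.Adj y z → ¬ G.Adj z x := by
      intro x y z hxy hyz hzx
      apply h3
      refine ⟨fun i => if i = 1 then y else if i = 2 then z else x, rfl, ?_⟩
      intro i hi
      have ci : i = 0 ∨ i = 1 ∨ i = 2 := by omega
      rcases ci with rfl | rfl | rfl
      · exact hxy
      · exact hyz
      · exact hzx
    have a01 : G.Adj (q 0) (q 1) := hadj 0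
    have a12 : G.Adj (q 1) (q 2) := hadj 1
    have a23 : G.Adj (q 2) (q 3) := hadj 2
    have a34 : G.Adj (q 3) (q 4) := hadj 3
    have a40 : G.Adj (q 4) (q 0) := by
      have := hadj 4
      rwa [show 4 + 1 = 0 + 5 by norm_num, hper] at this
    have n02 : q 0 ≠ q 2 := fun h => tri _ _ _ a23 a34 (h ▸ a40)
    have n13 : q 1 ≠ q 3 := fun h => tri _ _ _ a34 a40 (h ▸ a01)
    have n24 : q 2 ≠ q 4 := fun h => tri _ _ _ a40 a01 (h ▸ a12)
    have n30 : q 3 ≠ q 0 := fun h => tri _ _ _ a01 a12 (h ▸ a23)
    have n41 : q 4 ≠ q 1 := fun h => tri _ _ _ a12 a23 (h ▸ a34)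
    have hinj : ∀ i < 5, ∀ j < 5, q i = q j → i = j := by
      intro i hi j hj h
      have ci : i = 0 ∨ i = 1 ∨ i = 2 ∨ i = 3 ∨ i = 4 := by omega
      have cj : j = 0 ∨ j = 1 ∨ j = 2 ∨ j = 3 ∨ j = 4 := by omega
      rcases ci with rfl | rfl | rfl | rfl | rfl <;>
        rcases cj with rfl | rfl | rfl | rfl | rfl <;>
        first | rfl | (exact absurd h a01.ne) | (exact absurd h a12.ne) | (exact absurd h a23.ne) |
          (exact absurd h a34.ne) | (exact absurd h a40.ne) | (exact absurd h.symm a01.ne) |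
          (exact absurd h.symm a12.ne) | (exact absurd h.symm a23.ne) |
          (exact absurd h.symm a34.ne) | (exact absurd h.symm a40.ne) | (exact absurd h n02) |
          (exact absurd h n13) | (exact absurd h n24) | (exact absurd h n30) |
          (exact absurd h n41) | (exact absurd h.symm n02) | (exact absurd h.symm n13) |
          (exact absurd h.symm n24) | (exact absurd h.symm n30) | (exact absurd h.symm n41)
    by_cases hk3 : 3 ≤ k
    · have hfew := hn3 hk3 V hV3 G hfree q hper hinj hadj
      have hU : 3 / 4 * (Fintype.card V : ℝ) ≤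
          (((range 5).biUnion fun i => G.neighborFinset (q i)).card : ℝ) := by
        have h1 : ∑ i ∈ range 5, (G.neighborFinset (q i)).card ≤
            2 * ((range 5).biUnion fun i => G.neighborFinset (q i)).card := by
          have h2 : ∑ i ∈ range 5, (G.neighborFinset (q i)).card =
              ∑ v ∈ (range 5).biUnion (fun i => G.neighborFinset (q i)),
                ((range 5).filter fun i => G.Adj (q i) v).card := by
            simp_rw [card_filter]
            rw [sum_comm]
            apply sum_congr rfl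
            intro i hi
            rw [← card_filter]
            congr 1
            ext v
            simp only [mem_neighborFinset, mem_filter, mem_biUnion]
            exact ⟨fun h => ⟨⟨i, hi, h⟩, h⟩, fun h => h.2⟩
          rw [h2, mul_comm]
          apply (sum_le_card_nsmul _ _ 2 ?_).trans (by rw [smul_eq_mul])
          intro v _
          have e : (range 5).filter (fun i => G.Adj (q i) v) ⊆ range 5 := filter_subset _ _
          have m01 : ¬ (G.Adj (q 0) v ∧ G.Adj (q 1) v) := fun h => tri _ _ _ a01 h.2 h.1.symm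
          have m12 : ¬ (G.Adj (q 1) v ∧ G.Adj (q 2) v) := fun h => tri _ _ _ a12 h.2 h.1.symm
          have m23 : ¬ (G.Adj (q 2) v ∧ G.Adj (q 3) v) := fun h => tri _ _ _ a23 h.2 h.1.symm
          have m34 : ¬ (G.Adj (q 3) v ∧ G.Adj (q 4) v) := fun h => tri _ _ _ a34 h.2 h.1.symm
          have m40 : ¬ (G.Adj (q 4) v ∧ G.Adj (q 0) v) := fun h => tri _ _ _ a40 h.2 h.1.symm
          rw [card_filter]
          simp only [sum_range_succ, sum_range_zero]
          exact five_le _ _ _ _ _ (fun a b => m01 ⟨a, b⟩) (fun a b => m12 ⟨a, b⟩)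
            (fun a b => m23 ⟨a, b⟩) (fun a b => m34 ⟨a, b⟩) (fun a b => m40 ⟨a, b⟩)
        have h2 : 5 * δ ≤ ∑ i ∈ range 5, (G.neighborFinset (q i)).card := by
          calc 5 * δ = ∑ i ∈ range 5, δ := by rw [sum_const, card_range, smul_eq_mul]
            _ ≤ _ := by
              apply sum_le_sum; intro i _
              rw [card_neighborFinset_eq_degree]; exact hd _
        have h3 : (5 * δ : ℝ) ≤
            2 * (((range 5).biUnion fun i => G.neighborFinset (q i)).card : ℝ) := by
          exact_mod_cast h2.trans h1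
        linarith
      exact cover_contra G hd 5 (fun i => G.neighborFinset (q i)) (1 / 1000) (3 / 4) hfew hδr
        (by norm_num) hU hV4 (by norm_num)
    · have hk2 : k = 2 := by omega
      subst hk2
      apply hfree
      exact cycle_of_seq G (by omega) q hinj (fun i _ => hadj i) a40
  exact colorable_of_no_short G rfl hd (by omega) h3 h5

end Pool.Agent.LibDFG
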