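import Mathlib
import Pool.Agent.LibDFG.Large
import Pool.Agent.LibDFG.OddUpper
import Pool.Agent.LibDFG.BipLower

/-!
The threshold for graphs of large order of the odd cycles of length at least `5`.
-/

namespace Pool.Agent.LibDFG

open SimpleGraph

/-- a graph with a proper colouring by `Bool` contains no odd cycle -/
theorem odd_free {V : Type} (G : SimpleGraph V) (f : V → Bool) (hf : ∀ u v, G.Adj u v → f u ≠ f v)
    (k : ℕ) (hk : 1 ≤ k) : (cycleGraph (2 * k + 1)).Free G := by
  rintro ⟨φ⟩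
  have hne : ∀ a b : Fin (2 * k + 1), (cycleGraph (2 * k + 1)).Adj a b → f (φ a) ≠ f (φ b) :=
    fun a b hab => hf _ _ (φ.toHom.map_adj hab)
  have key : ∀ i : ℕ, ∀ hi : i < 2 * k + 1, f (φ ⟨i, hi⟩) = if i % 2 = 0 then f (φ ⟨0, by omega⟩)
      else !(f (φ ⟨0, by omega⟩)) := by
    intro i
    induction i with
    | zero => intro hi; simp
    | succ i ih =>
      intro hi
      have h1 := ih (by omega)
      have h2 : (cycleGraph (2 * k + 1)).Adj ⟨i + 1, hi⟩ ⟨i, by omega⟩ := by
        rw [cycleGraph_adj']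
        left
        rw [Fin.sub_val_of_le (by simp)]
        simp
      have h3 := hne _ _ h2
      rw [h1] at h3
      rcases Nat.mod_two_eq_zero_or_one i with h4 | h4
      · have h5 : (i + 1) % 2 = 1 := by omega
        simp only [h4, h5] at h3 ⊢
        cases h6 : f (φ ⟨0, by omega⟩) <;> cases h7 : f (φ ⟨i + 1, hi⟩) <;> simp_all
      · have h5 : (i + 1) % 2 = 0 := by omega
        simp only [h4, h5] at h3 ⊢
        cases h6 : f (φ ⟨0, by omega⟩) <;> cases h7 : f (φ ⟨i + 1, hi⟩) <;> simp_all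
  have h1 := key (2 * k) (by omega)
  have h2 : (cycleGraph (2 * k + 1)).Adj (⟨0, by omega⟩ : Fin (2 * k + 1)) ⟨2 * k, by omega⟩ := by
    rw [cycleGraph_adj']
    left
    rw [Fin.coe_sub_iff_lt.mpr (by rw [Fin.lt_def]; simp; omega)]
    simp
  have h3 := hne _ _ h2
  rw [h1] at h3
  have h4 : (2 * k) % 2 = 0 := by omega
  simp [h4] at h3

open Classical in
theorem odd_cycle_large (k : ℕ) (hk : 2 ≤ k) :
    deltaCycLarge (cycleGraph (2 * k + 1)) = 3 / 10 := by
  have hmem : (3 / 10 : ℝ) ∈ {α : ℝ | 0 ≤ α ∧ CycAboveLarge (cycleGraph (2 * k + 1)) α} := by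
    refine ⟨by norm_num, ?_⟩
    obtain ⟨n0, hn0⟩ := odd_bipartite k hk
    refine ⟨n0, fun V _ G hV hfree hlt x => ?_⟩
    have hlt' : 3 * Fintype.card V < 10 * G.minDegree := by
      have : (3 * Fintype.card V : ℝ) < 10 * G.minDegree := by linarith
      exact_mod_cast this
    have hcol := hn0 V hV G hfree G.minDegree (fun v => G.minDegree_le_degree v) hlt'
    obtain ⟨C⟩ := hcol
    have hf : ∀ u v, G.Adj u v → decide (C u = 0) ≠ decide (C v = 0) := by
      intro u v huv h
      have h1 := C.valid huv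
      have h2 : (C u = 0) ↔ (C v = 0) := by simpa using h
      apply h1
      have cu : C u = 0 ∨ C u = 1 := by
        rcases C u with ⟨a, ha⟩
        have : a = 0 ∨ a = 1 := by omega
        rcases this with rfl | rfl
        · left; rfl
        · right; rfl
      have cv : C v = 0 ∨ C v = 1 := by
        rcases C v with ⟨a, ha⟩
        have : a = 0 ∨ a = 1 := by omega
        rcases this with rfl | rfl
        · left; rfl
        · right; rfl
      rcases cu with hu | hu <;> rcases cv with hv | hv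
      · rw [hu, hv]
      · rw [hu, hv] at h2; simp at h2
      · rw [hu, hv] at h2; simp at h2
      · rw [hu, hv]
    exact bip_upper G (fun v => decide (C v = 0)) hf (fun v => G.minDegree_le_degree v) hlt' x
  have hlow : ∀ α ∈ {α : ℝ | 0 ≤ α ∧ CycAboveLarge (cycleGraph (2 * k + 1)) α},
      (3 / 10 : ℝ) ≤ α := by
    rintro α ⟨_, n0, hα⟩
    by_contra hlt
    push Not at hlt
    have hN : 1 ≤ n0 + 1 := by omega
    refine bG_not_cyclic (n0 + 1) hN (hα _ (bG (n0 + 1)) ?_ ?_ ?_ _)
    · rw [bV_card]; omega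
    · exact odd_free (bG (n0 + 1)) (fun v => v.1) (fun u v h => ((bG_adj _ u v).mp h).1) k (by omega)
    · have : Nonempty (BV (n0 + 1)) := ⟨(false, 0, ⟨0, hN⟩)⟩
      have h1 : 3 * (n0 + 1) ≤ (bG (n0 + 1)).minDegree :=
        le_minDegree_of_forall_le_degree _ _ (fun v => bG_degree (n0 + 1) v)
      rw [bV_card]
      have h3 : ((3 * (n0 + 1) : ℕ) : ℝ) ≤ ((bG (n0 + 1)).minDegree : ℝ) := by exact_mod_cast h1
      refine lt_of_lt_of_le ?_ h3
      push_cast
      have : (0 : ℝ) < (n0 : ℝ) + 1 := by positivity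
      nlinarith
  apply le_antisymm
  · exact csInf_le ⟨0, fun α hα => hα.1⟩ hmem
  · exact le_csInf ⟨_, hmem⟩ hlow

end Pool.Agent.LibDFG
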