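import Mathlib
import Pool.Agent.LibDFG.Tools

namespace Pool.Agent.LibDFG

open SimpleGraph Finset

set_option linter.unusedSectionVars false

variable {V : Type} [Fintype V] [DecidableEq V] (G : SimpleGraph V) [DecidableRel G.Adj]

theorem three_common {δ : ℕ} (hd : ∀ v, δ ≤ G.degree v) (h : Fintype.card V < 3 * δ)
    (u v w : V) : ∃ z, (G.Adj u z ∧ G.Adj v z) ∨ (G.Adj v z ∧ G.Adj w z) ∨
      (G.Adj u z ∧ G.Adj w z) := by
  by_contra hcon
  push Not at hcon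
  have hz : ∀ z : V, (if G.Adj u z then 1 else 0) + (if G.Adj v z then 1 else 0)
      + (if G.Adj w z then 1 else 0) ≤ 1 := by
    intro z
    obtain ⟨c1, c2, c3⟩ := hcon z
    by_cases e0 : G.Adj u z <;> by_cases e1 : G.Adj v z <;> by_cases e2 : G.Adj w z <;>
      simp_all
  have hsum := Finset.sum_le_sum (fun z (_ : z ∈ (univ : Finset V)) => hz z)
  simp only [sum_add_distrib, sum_boole, Nat.cast_id] at hsum
  have hdeg : ∀ a : V, (univ.filter (fun z => G.Adj a z)).card = G.degree a := by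
    intro a
    rw [← card_neighborFinset_eq_degree]
    congr 1
    ext z; simp
  rw [hdeg, hdeg, hdeg] at hsum
  have g0 := hd u
  have g1 := hd v
  have g2 := hd w
  have hr : ∑ _z : V, 1 = Fintype.card V := by simp
  omega

theorem hex_bound : ∀ b0 b1 b2 b3 b4 b5 : Bool,
    ¬ (b0 ∧ b1) → ¬ (b1 ∧ b2) → ¬ (b2 ∧ b3) → ¬ (b3 ∧ b4) → ¬ (b4 ∧ b5) → ¬ (b5 ∧ b0) →
    ¬ (b0 ∧ b2 ∧ b4) → ¬ (b1 ∧ b3 ∧ b5) →
    b0.toNat + b1.toNat + b2.toNat + b3.toNat + b4.toNat + b5.toNat ≤ 2 := by decide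

theorem hexagon_common {δ : ℕ} (hd : ∀ v, δ ≤ G.degree v) (h : Fintype.card V < 3 * δ)
    (htri : ∀ a b c, G.Adj a b → G.Adj b c → G.Adj c a → False)
    (a0 a1 a2 a3 a4 a5 : V) (h01 : G.Adj a0 a1) (h12 : G.Adj a1 a2) (h23 : G.Adj a2 a3)
    (h34 : G.Adj a3 a4) (h45 : G.Adj a4 a5) (h50 : G.Adj a5 a0) :
    ∃ z, (G.Adj a0 z ∧ G.Adj a2 z ∧ G.Adj a4 z) ∨ (G.Adj a1 z ∧ G.Adj a3 z ∧ G.Adj a5 z) := by
  by_contra hcon
  push Not at hcon
  have hz : ∀ z : V, (if G.Adj a0 z then 1 else 0) + (if G.Adj a1 z then 1 else 0)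
      + (if G.Adj a2 z then 1 else 0) + (if G.Adj a3 z then 1 else 0)
      + (if G.Adj a4 z then 1 else 0) + (if G.Adj a5 z then 1 else 0) ≤ 2 := by
    intro z
    obtain ⟨c1, c2⟩ := hcon z
    have key := hex_bound (decide (G.Adj a0 z)) (decide (G.Adj a1 z))
      (decide (G.Adj a2 z)) (decide (G.Adj a3 z)) (decide (G.Adj a4 z)) (decide (G.Adj a5 z))
    simp only [decide_eq_true_eq] at key
    have key2 := key (fun hh => htri _ _ _ h01 hh.2 hh.1.symm)
      (fun hh => htri _ _ _ h12 hh.2 hh.1.symm)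
      (fun hh => htri _ _ _ h23 hh.2 hh.1.symm)
      (fun hh => htri _ _ _ h34 hh.2 hh.1.symm)
      (fun hh => htri _ _ _ h45 hh.2 hh.1.symm)
      (fun hh => htri _ _ _ h50 hh.2 hh.1.symm)
      (fun hh => c1 hh.1 hh.2.1 hh.2.2)
      (fun hh => c2 hh.1 hh.2.1 hh.2.2)
    clear key c1 c2 hcon
    by_cases e0 : G.Adj a0 z <;> by_cases e1 : G.Adj a1 z <;> by_cases e2 : G.Adj a2 z <;>
      by_cases e3 : G.Adj a3 z <;> by_cases e4 : G.Adj a4 z <;> by_cases e5 : G.Adj a5 z <;>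
      simp_all
  have hsum := Finset.sum_le_sum (fun z (_ : z ∈ (univ : Finset V)) => hz z)
  simp only [sum_add_distrib, sum_boole, Nat.cast_id] at hsum
  have hdeg : ∀ a : V, (univ.filter (fun z => G.Adj a z)).card = G.degree a := by
    intro a
    rw [← card_neighborFinset_eq_degree]
    congr 1
    ext z; simp
  rw [hdeg, hdeg, hdeg, hdeg, hdeg, hdeg] at hsum
  have g0 := hd a0
  have g1 := hd a1
  have g2 := hd a2
  have g3 := hd a3
  have g4 := hd a4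
  have g5 := hd a5
  have hr : ∑ _z : V, 2 = 2 * Fintype.card V := by simp [mul_comm]
  omega

/-- In a group valued potential, closed hexagons are trivial. -/
theorem hexagon_trivial {Γ : Type} [Group Γ] (t : V → V → Γ)
    (hback : ∀ u v, G.Adj u v → t u v * t v u = 1)
    (hsub : ∀ a b b' c, G.Adj a b → G.Adj b c → G.Adj a b' → G.Adj b' c →
      t a b * t b c = t a b' * t b' c)
    {δ : ℕ} (hd : ∀ v, δ ≤ G.degree v) (h : Fintype.card V < 3 * δ)
    (htri : ∀ a b c, G.Adj a b → G.Adj b c → G.Adj c a → False)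
    (a0 a1 a2 a3 a4 a5 : V) (h01 : G.Adj a0 a1) (h12 : G.Adj a1 a2) (h23 : G.Adj a2 a3)
    (h34 : G.Adj a3 a4) (h45 : G.Adj a4 a5) (h50 : G.Adj a5 a0) :
    t a0 a1 * t a1 a2 * t a2 a3 * t a3 a4 * t a4 a5 * t a5 a0 = 1 := by
  have hinv : ∀ u v, G.Adj u v → t v u = (t u v)⁻¹ := fun u v huv =>
    eq_inv_of_mul_eq_one_right (hback u v huv)
  obtain ⟨z, ⟨z0, z2, z4⟩ | ⟨z1, z3, z5⟩⟩ :=
    hexagon_common G hd h htri a0 a1 a2 a3 a4 a5 h01 h12 h23 h34 h45 h50
  · have e1 := hsub _ _ _ _ h01 h12 z0 z2.symm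
    have e2 := hsub _ _ _ _ h23 h34 z2 z4.symm
    have e3 := hsub _ _ _ _ h45 h50 z4 z0.symm
    calc t a0 a1 * t a1 a2 * t a2 a3 * t a3 a4 * t a4 a5 * t a5 a0
        = (t a0 a1 * t a1 a2) * (t a2 a3 * t a3 a4) * (t a4 a5 * t a5 a0) := by group
      _ = 1 := by
        rw [e1, e2, e3, hinv a0 z z0, hinv a2 z z2, hinv a4 z z4]; group
  · have e1 := hsub _ _ _ _ h12 h23 z1 z3.symm
    have e2 := hsub _ _ _ _ h34 h45 z3 z5.symm
    have e3 := hsub _ _ _ _ h50 h01 z5 z1.symm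
    have e4 : t a5 a0 = t a5 z * t z a1 * (t a0 a1)⁻¹ := by
      rw [← e3]; group
    calc t a0 a1 * t a1 a2 * t a2 a3 * t a3 a4 * t a4 a5 * t a5 a0
        = t a0 a1 * (t a1 a2 * t a2 a3) * (t a3 a4 * t a4 a5) * t a5 a0 := by group
      _ = 1 := by
        rw [e1, e2, e4, hinv a1 z z1, hinv a3 z z3, hinv a5 z z5]; group

/-- the classes of hexagons are trivial, as a statement on three-step classes -/
theorem three_step_eq {δ : ℕ} (hd : ∀ v, δ ≤ G.degree v) (h : Fintype.card V < 3 * δ)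
    (htri : ∀ a b c, G.Adj a b → G.Adj b c → G.Adj c a → False)
    {x a c u b d : V} (h1 : G.Adj x a) (h2 : G.Adj a c) (h3 : G.Adj c u)
    (h1' : G.Adj x b) (h2' : G.Adj b d) (h3' : G.Adj d u) :
    (edge h1).comp ((edge h2).comp (edge h3)) = (edge h1').comp ((edge h2').comp (edge h3')) := by
  obtain ⟨z, ⟨z0, z2, z4⟩ | ⟨z1, z3, z5⟩⟩ :=
    hexagon_common G hd h htri x a c u d b h1 h2 h3 h3'.symm h2'.symm h1'.symm
  · -- z adjacent to x, c, d
    rw [← comp_assoc, edge_sub h1 h2 z0 z2.symm, ← comp_assoc, edge_sub h1' h2' z0 z4.symm,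
      comp_assoc, comp_assoc, edge_sub z2.symm h3 z4.symm h3']
  · -- z adjacent to a, u, b
    rw [edge_sub h2 h3 z1 z3.symm, edge_sub h2' h3' z5 z3.symm, ← comp_assoc, ← comp_assoc,
      edge_sub h1 z1 h1' z5]

theorem match_prop {A B C D : Prop} (h1 : A ∨ C) (h2 : B ∨ D) (h3 : A ∨ B) (h4 : C ∨ D) :
    (A ∧ D) ∨ (B ∧ C) := by
  by_cases hA : A
  · by_cases hD : D
    · exact Or.inl ⟨hA, hD⟩
    · exact Or.inr ⟨h2.resolve_right hD, h4.resolve_right hD⟩
  · exact Or.inr ⟨h3.resolve_left hA, h1.resolve_left hA⟩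

theorem triangle_upper {δ : ℕ} (hd : ∀ v, δ ≤ G.degree v) (h : Fintype.card V < 3 * δ)
    (htri : ∀ a b c, G.Adj a b → G.Adj b c → G.Adj c a → False) (x : V) :
    IsCyclic (DFG G x) := by
  classical
  -- reference classes
  have hex : ∀ u : V, ∃ q : Cls G x u,
      (∀ h1 : G.Adj x u, q = edge h1) ∧
      (∀ a (h1 : G.Adj x a) (h2 : G.Adj a u), q = (edge h1).comp (edge h2)) ∧
      ((¬ ∃ a, G.Adj x a ∧ G.Adj a u) → ∀ a c (h1 : G.Adj x a) (h2 : G.Adj a c)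
        (h3 : G.Adj c u), q = (edge h1).comp ((edge h2).comp (edge h3))) := by
    intro u
    by_cases hu1 : G.Adj x u
    · refine ⟨edge hu1, fun _ => rfl, fun a h1 h2 => (htri _ _ _ h1 h2 hu1.symm).elim, ?_⟩
      intro _ a c h1 h2 h3
      rw [← comp_assoc, edge_sub h1 h2 hu1 h3.symm, comp_assoc, edge_back, comp_nil]
    · by_cases hu2 : ∃ a, G.Adj x a ∧ G.Adj a u
      · obtain ⟨a, h1, h2⟩ := hu2
        refine ⟨(edge h1).comp (edge h2), fun h3 => (hu1 h3).elim,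
          fun b h3 h4 => edge_sub _ _ _ _, fun h3 => (h3 ⟨a, h1, h2⟩).elim⟩
      · -- distance three
        obtain ⟨a, ha⟩ : ∃ a, G.Adj x a := by
          obtain ⟨z, hz | hz | hz⟩ := three_common G hd h x x x
          · exact ⟨z, hz.1⟩
          · exact ⟨z, hz.1⟩
          · exact ⟨z, hz.1⟩
        obtain ⟨c, hc1, hc2⟩ : ∃ c, G.Adj a c ∧ G.Adj c u := by
          obtain ⟨z, hz | hz | hz⟩ := three_common G hd h x a u
          · exact (htri _ _ _ ha hz.2 hz.1.symm).elim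
          · exact ⟨z, hz.1, hz.2.symm⟩
          · exact (hu2 ⟨z, hz.1, hz.2.symm⟩).elim
        refine ⟨(edge ha).comp ((edge hc1).comp (edge hc2)), fun h3 => (hu1 h3).elim,
          fun b h3 h4 => (hu2 ⟨b, h3, h4⟩).elim, ?_⟩
        intro _ b d h1 h2 h3
        exact three_step_eq G hd h htri _ _ _ _ _ _
  choose p hp1 hp2 hp3 using hex
  have hnb : ∃ a, G.Adj x a := by
    obtain ⟨z, hz | hz | hz⟩ := three_common G hd h x x x
    · exact ⟨z, hz.1⟩
    · exact ⟨z, hz.1⟩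
    · exact ⟨z, hz.1⟩
  obtain ⟨a0, ha0⟩ := hnb
  have hpx : p x = cls Walk.nil := by
    rw [hp2 x a0 ha0 ha0.symm]; exact edge_back ha0 ha0.symm
  set t := tt p with ht
  have hback : ∀ u v, G.Adj u v → t u v * t v u = 1 := fun u v huv => tt_back p huv
  have hsub : ∀ a b b' c, G.Adj a b → G.Adj b c → G.Adj a b' → G.Adj b' c →
      t a b * t b c = t a b' * t b' c := fun a b b' c h1 h2 h3 h4 => tt_sub p h1 h2 h3 h4
  have hinv : ∀ u v, G.Adj u v → t v u = (t u v)⁻¹ := fun u v huv =>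
    eq_inv_of_mul_eq_one_right (hback u v huv)
  let C : V → Prop := fun u => ∃ a, G.Adj x a ∧ G.Adj a u
  have hT1 : ∀ a, G.Adj x a → t x a = 1 := by
    intro a h1
    rw [ht, tt_adj p h1, hpx, nil_comp, hp1 a h1, comp_inv, one_def']
  have hT2 : ∀ a u, G.Adj x a → G.Adj a u → t a u = 1 := by
    intro a u h1 h2
    rw [ht, tt_adj p h2, ← comp_assoc, hp1 a h1, hp2 u a h1 h2, comp_inv, one_def']
  have hT3 : ∀ c w, C c → ¬ C w → G.Adj c w → t c w = 1 := by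
    rintro c w ⟨a, h1, h2⟩ hw h3
    rw [ht, tt_adj p h3, ← comp_assoc, hp2 c a h1 h2, hp3 w hw a c h1 h2 h3, comp_assoc,
      comp_assoc, ← comp_assoc (edge h2), ← comp_assoc (edge h1), comp_inv, one_def']
  have hS : ∀ c m d, C c → C d → G.Adj c m → G.Adj m d → t c m * t m d = 1 := by
    rintro c m d ⟨a, h1, h2⟩ ⟨b, h3, h4⟩ h5 h6
    have := hexagon_trivial G t hback hsub hd h htri x a c m d b h1 h2 h5 h6 h4.symm h3.symm
    rw [hT1 a h1, hT2 a c h1 h2, hinv b d h4, hT2 b d h3 h4, hinv x b h3, hT1 b h3] at this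
    simpa using this
  have hclose : ∀ c c' d, G.Adj c c' → (∃ m, G.Adj c m ∧ G.Adj m d) ∨
      (∃ m, G.Adj c' m ∧ G.Adj m d) := by
    intro c c' d h1
    obtain ⟨z, hz | hz | hz⟩ := three_common G hd h c c' d
    · exact (htri _ _ _ h1 hz.2 hz.1.symm).elim
    · exact Or.inr ⟨z, hz.1, hz.2.symm⟩
    · exact Or.inl ⟨z, hz.1, hz.2.symm⟩
  have hmatch : ∀ c c' d d', C c → C c' → C d → C d' → G.Adj c c' → G.Adj d d' →
      (∃ m, G.Adj c m ∧ G.Adj m d) → (∃ m, G.Adj c' m ∧ G.Adj m d') → t d d' = t c c' := by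
    rintro c c' d d' hc hc' hd1 hd' h1 h2 ⟨m, h3, h4⟩ ⟨m', h5, h6⟩
    have e := hexagon_trivial G t hback hsub hd h htri c m d d' m' c' h3 h4 h2 h6.symm h5.symm
      h1.symm
    have e1 := hS c m d hc hd1 h3 h4
    have e2 := hS d' m' c' hd' hc' h6.symm h5.symm
    have e3 : t c' c = (t c c')⁻¹ := hinv c c' h1
    have e4 : t c m * t m d * t d d' * t d' m' * t m' c' * t c' c
        = (t c m * t m d) * t d d' * (t d' m' * t m' c') * t c' c := by group
    rw [e4, e1, e2, e3, one_mul, mul_one] at e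
    exact eq_of_mul_inv_eq_one e
  have hpm : ∀ c c' d d', C c → C c' → C d → C d' → G.Adj c c' → G.Adj d d' →
      t d d' = t c c' ∨ t d d' = (t c c')⁻¹ := by
    intro c c' d d' hc hc' hd1 hd' h1 h2
    have sym : ∀ a b, (∃ m, G.Adj a m ∧ G.Adj m b) → ∃ m, G.Adj b m ∧ G.Adj m a := by
      rintro a b ⟨m, h3, h4⟩; exact ⟨m, h4.symm, h3.symm⟩
    have k1 := hclose c c' d h1
    have k2 := hclose c c' d' h1
    have k3 := hclose d d' c h2
    have k4 := hclose d d' c' h2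
    have key : ((∃ m, G.Adj c m ∧ G.Adj m d) ∧ (∃ m, G.Adj c' m ∧ G.Adj m d')) ∨
        ((∃ m, G.Adj c m ∧ G.Adj m d') ∧ (∃ m, G.Adj c' m ∧ G.Adj m d)) := by
      exact match_prop k1 k2 (k3.imp (sym _ _) (sym _ _)) (k4.imp (sym _ _) (sym _ _))
    rcases key with ⟨k5, k6⟩ | ⟨k5, k6⟩
    · left; exact hmatch c c' d d' hc hc' hd1 hd' h1 h2 k5 k6
    · right
      rw [hinv d' d h2.symm, hmatch c c' d' d hc hc' hd' hd1 h1 h2.symm k5 k6]
  -- choose the generator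
  obtain ⟨τ, hτ⟩ : ∃ τ : DFG G x, ∀ u v, C u → C v → G.Adj u v → t u v = τ ∨ t u v = τ⁻¹ := by
    by_cases hex : ∃ c c', C c ∧ C c' ∧ G.Adj c c'
    · obtain ⟨c, c', hc, hc', h1⟩ := hex
      exact ⟨t c c', fun u v hu hv huv => hpm c c' u v hc hc' hu hv h1 huv⟩
    · exact ⟨1, fun u v hu hv huv => (hex ⟨u, v, hu, hv, huv⟩).elim⟩
  refine isCyclic_of_tt p hpx τ (fun u v huv => ?_)
  change t u v ∈ Subgroup.zpowers τ
  by_cases hu : C u
  · by_cases hv : C v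
    · rcases hτ u v hu hv huv with h1 | h1
      · rw [h1]; exact Subgroup.mem_zpowers τ
      · rw [h1]; exact (Subgroup.zpowers τ).inv_mem (Subgroup.mem_zpowers τ)
    · rw [hT3 u v hu hv huv]; exact (Subgroup.zpowers τ).one_mem
  · by_cases hv : C v
    · rw [hinv v u huv.symm, hT3 v u hv hu huv.symm, inv_one]
      exact (Subgroup.zpowers τ).one_mem
    · exfalso
      obtain ⟨z, hz | hz | hz⟩ := three_common G hd h x u v
      · exact hu ⟨z, hz.1, hz.2.symm⟩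
      · exact htri _ _ _ huv hz.2 hz.1.symm
      · exact hv ⟨z, hz.1, hz.2.symm⟩

end Pool.Agent.LibDFG
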