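import Mathlib
import Pool.Agent.LibDFG.Basic
import Pool.Agent.LibDFG.Tools
import Pool.Agent.LibDFG.TriangleUpper
import Pool.Agent.LibDFG.TriangleLower

namespace Pool.Agent.LibDFG

open SimpleGraph

/-- The threshold of the triangle equals `1/3`. -/
theorem triangle_value : deltaCyc (completeGraph (Fin 3)) = 1 / 3 := by
  classical
  have hmem : (1 / 3 : ℝ) ∈ {α : ℝ | 0 ≤ α ∧ CycAbove (completeGraph (Fin 3)) α} := by
    refine ⟨by norm_num, ?_⟩
    intro V _ G hfree hlt x
    have hcf : G.CliqueFree 3 := by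
      by_contra hcon
      exact hfree ((not_cliqueFree_iff_top_isContained _).mp hcon)
    refine triangle_upper G (δ := G.minDegree) (fun v => ?_) ?_ ?_ x
    · convert G.minDegree_le_degree v
    · have h2 : ((Fintype.card V : ℕ) : ℝ) < ((3 * G.minDegree : ℕ) : ℝ) := by
        push_cast
        have h3 : (1 / 3 : ℝ) * (Fintype.card V : ℝ) < (G.minDegree : ℝ) := by convert hlt
        linarith
      exact_mod_cast h2
    · intro a b c h1 h2 h3
      exact hcf {a, b, c} (is3Clique_triple_iff.mpr ⟨h1, h3.symm, h2⟩)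
  have hlow : ∀ α ∈ {α : ℝ | 0 ≤ α ∧ CycAbove (completeGraph (Fin 3)) α}, (1 / 3 : ℝ) ≤ α := by
    rintro α ⟨hα0, hα⟩
    by_contra hlt
    push Not at hlt
    have hpos : 0 < 1 - 3 * α := by linarith
    obtain ⟨m, hm⟩ := exists_nat_gt ((4 * α) / (1 - 3 * α))
    have hm0 : 1 ≤ m := by
      rcases Nat.eq_zero_or_pos m with h0 | h0
      · subst h0
        have : 0 ≤ (4 * α) / (1 - 3 * α) := by positivity
        simp at hm
        linarith
      · exact h0
    refine tG_not_cyclic m hm0 (hα _ (tG m) ?_ ?_ _)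
    · intro hcon
      have hcf : ¬ (tG m).CliqueFree 3 := (not_cliqueFree_iff_top_isContained _).mpr hcon
      apply hcf
      intro t ht
      obtain ⟨a, b, c, h1, h2, h3, _⟩ := is3Clique_iff.mp ht
      exact tG_triangle m a b c h1 h3 h2.symm
    · have : Nonempty (TV m) := ⟨.inr (.inl ⟨0, hm0⟩)⟩
      have h1 : m + 1 ≤ (tG m).minDegree :=
        le_minDegree_of_forall_le_degree _ _ (fun v => tG_degree m hm0 v)
      rw [tV_card]
      have h3 : ((m : ℝ) + 1) ≤ ((tG m).minDegree : ℝ) := by exact_mod_cast h1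
      rw [div_lt_iff₀ hpos] at hm
      push_cast
      refine lt_of_lt_of_le ?_ h3
      nlinarith
  apply le_antisymm
  · exact csInf_le ⟨0, fun α hα => hα.1⟩ hmem
  · exact le_csInf ⟨_, hmem⟩ hlow

end Pool.Agent.LibDFG
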